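import Pool.Agent.SL4.EDefs

/-! Module FAC4 (SLOPES, four groups, helper64): moduli with a large smooth factor `v` (`≥ x^(.245)`, cofactor `≤ x^(.255)`) have the
factorisations `FacP p4`.

Proof.  `S` = prime factors of `v`, all `≤ x^(1/1000)`; a greedy choice gives divisors of `v` (and of `v / v'`) in every window
`(t x^(-1/1000), t]`, `1 ≤ t ≤ v`.  Given `Y = N` (`x^(1/3)/4 ≤ Y ≤ 4 x^(1/2)`): first `v1 ∣ v` in `[x^V0, x^(V0+δ)]`.
Case A, `q / v1 ≥ Y x^(-3e-δ)`: `r = (q / v) * r'`, `r' ∣ v / v1` with `r` in the window (possible since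
`q / v ≤ x^(.255) ≤ Y x^(-3e-δ)`; take `r' = v / v1` if that is already small enough), `u` = the rest; the divisors of `r u = q / v1`
in the windows up to `x^κ` come from `v / v1 ≥ x^(.241)`.
Case B, `q / v1 < Y x^(-3e-δ)`: `u = 1`, another `v1 ∣ v` in `[q x^(3e)/Y, q x^(3e+δ)/Y]` (the upper end is `< x^(V0+δ)`, the lower end
is `≥ x^(3e-s)/4 ≥ 1`), `r = q / v1`. -/

set_option autoImplicit false

namespace Pool.Agent.SL

open Finset

/-- greedy choice of a divisor -/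
private theorem fac4_greedy {m : ℕ} (hm : m ≠ 0) {z : ℝ}
    (hz : ∀ p : ℕ, p.Prime → p ∣ m → (p : ℝ) ≤ z) {t : ℝ} (ht : 1 ≤ t) :
    ∃ d : ℕ, d ∣ m ∧ (d : ℝ) ≤ t ∧ (t ≤ z * d ∨ d = m) := by
  classical
  have hne : ((m.divisors.filter fun d : ℕ => (d : ℝ) ≤ t)).Nonempty :=
    ⟨1, by rw [mem_filter]; exact ⟨Nat.one_mem_divisors.2 hm, by simpa using ht⟩⟩
  obtain ⟨d, hd, hmax⟩ := exists_max_image _ (fun d : ℕ => d) hne
  rw [mem_filter, Nat.mem_divisors] at hd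
  refine ⟨d, hd.1.1, hd.2, ?_⟩
  by_cases hdm : d = m
  · exact Or.inr hdm
  · left
    obtain ⟨c, hc⟩ := hd.1.1
    have hc1 : c ≠ 1 := by
      rintro rfl
      exact hdm (by rw [hc, mul_one])
    obtain ⟨p, hp, hpc⟩ := Nat.exists_prime_and_dvd hc1
    obtain ⟨c', hc'⟩ := hpc
    have hpm : p ∣ m := ⟨d * c', by rw [hc, hc']; ring⟩
    have hdp : d * p ∣ m := ⟨c', by rw [hc, hc']; ring⟩
    have hd0 : 0 < d := Nat.pos_of_dvd_of_pos hd.1.1 (Nat.pos_of_ne_zero hm)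
    have hgt : t < ((d * p : ℕ) : ℝ) := by
      by_contra hle
      push Not at hle
      have h1 := hmax (d * p) (by
        rw [mem_filter, Nat.mem_divisors]
        exact ⟨⟨hdp, hm⟩, hle⟩)
      have h2 : 2 ≤ p := hp.two_le
      nlinarith
    rw [Nat.cast_mul] at hgt
    have h3 := hz p hp hpm
    have h4 : (0 : ℝ) ≤ d := Nat.cast_nonneg d
    nlinarith

/-- divisors in all windows -/
private theorem fac4_win {m n : ℕ} (hm : m ≠ 0) (hmn : m ∣ n) {z K : ℝ} (hz1 : 1 ≤ z)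
    (hz : ∀ p : ℕ, p.Prime → p ∣ m → (p : ℝ) ≤ z) (hK : K ≤ (m : ℝ)) (t : ℝ) (ht : 1 ≤ t)
    (htK : t ≤ K) : ∃ r1 : ℕ, r1 ∣ n ∧ (r1 : ℝ) ≤ t ∧ t ≤ z * r1 := by
  obtain ⟨d, h1, h2, h3⟩ := fac4_greedy hm hz ht
  refine ⟨d, h1.trans hmn, h2, ?_⟩
  rcases h3 with h3 | rfl
  · exact h3
  · have h4 : (0 : ℝ) ≤ d := Nat.cast_nonneg d
    nlinarith

theorem fac4 (s : ℝ) (hs : 0 < s) (hs2 : s ≤ 1 / 10000) :
    ∃ x0 : ℝ, ∀ x : ℝ, x0 ≤ x → ∀ q v : ℕ, Squarefree q → v ∣ q →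
      x ^ (1 / 2 - s) < (q : ℝ) → (q : ℝ) ≤ x ^ (1 / 2 + 2 / 1000 : ℝ) →
      (∀ p : ℕ, p.Prime → p ∣ v → (p : ℝ) ≤ x ^ (1 / 1000 : ℝ)) →
      x ^ (1 / 4 - 1 / 200 : ℝ) ≤ (v : ℝ) → ((q / v : ℕ) : ℝ) ≤ x ^ (1 / 4 + 1 / 200 : ℝ) →
      Disp.FacP p4 x q := by
  refine ⟨(4 : ℝ) ^ (1000 : ℝ), fun x hx q v hsq hvq hq1 hq2 hsm hv1 hw => ?_⟩
  have hx1 : (1 : ℝ) ≤ x := le_trans (Real.one_le_rpow (by norm_num) (by norm_num)) hx
  have hx0 : (0 : ℝ) < x := lt_of_lt_of_le one_pos hx1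
  have hmono : ∀ a b : ℝ, a ≤ b → x ^ a ≤ x ^ b := fun a b h => Real.rpow_le_rpow_of_exponent_le hx1 h
  have hpos : ∀ a : ℝ, 0 < x ^ a := fun a => Real.rpow_pos_of_pos hx0 a
  have hadd : ∀ a b : ℝ, x ^ a * x ^ b = x ^ (a + b) := fun a b => (Real.rpow_add hx0 a b).symm
  have h4 : (4 : ℝ) ≤ x ^ (1 / 1000 : ℝ) := by
    have h1 : ((4 : ℝ) ^ (1000 : ℝ)) ^ (1 / 1000 : ℝ) = 4 := by
      rw [← Real.rpow_mul (by norm_num)]
      norm_num
    rw [← h1]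
    exact Real.rpow_le_rpow (by positivity) hx (by norm_num)
  set z : ℝ := x ^ (1 / 1000 : ℝ) with hzdef
  have hz1 : 1 ≤ z := by linarith
  have hq0 : q ≠ 0 := hsq.ne_zero
  have hv0 : v ≠ 0 := fun h => hq0 (by rw [h] at hvq; exact Nat.eq_zero_of_zero_dvd hvq)
  obtain ⟨w, hwq⟩ := hvq
  have hqw : q / v = w := by rw [hwq]; exact Nat.mul_div_cancel_left w (Nat.pos_of_ne_zero hv0)
  rw [hqw] at hw
  have hw0 : w ≠ 0 := by rintro rfl; exact hq0 (by rw [hwq, mul_zero])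
  have hw0' : (0 : ℝ) < w := by exact_mod_cast Nat.pos_of_ne_zero hw0
  refine ⟨hsq, fun N hN1 hN2 => ?_⟩
  have hN0 : 0 < N := lt_of_lt_of_le (by have := hpos p4.ν; positivity) hN1
  -- the first small divisor
  have hV : ∀ a : ℝ, a ≤ 245 / 1000 → x ^ a ≤ (v : ℝ) := fun a ha =>
    (hmono a _ (by norm_num; linarith)).trans hv1
  obtain ⟨v1, hv1d, hv1le, hv1ge⟩ := fac4_greedy hv0 hsm (t := x ^ (38 / 10000 : ℝ))
    (Real.one_le_rpow hx1 (by norm_num))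
  have hv1lo : x ^ (28 / 10000 : ℝ) ≤ (v1 : ℝ) := by
    rcases hv1ge with h | h
    · have h1 : x ^ (38 / 10000 : ℝ) = z * x ^ (28 / 10000 : ℝ) := by
        rw [hzdef, hadd]; norm_num
      rw [h1] at h
      exact le_of_mul_le_mul_left h (by linarith)
    · rw [h]
      exact hV _ (by norm_num)
  obtain ⟨v', hv'⟩ := hv1d
  have hv10 : v1 ≠ 0 := by rintro rfl; exact hv0 (by rw [hv', zero_mul])
  have hv'0 : v' ≠ 0 := by rintro rfl; exact hv0 (by rw [hv', mul_zero])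
  have hv10' : (0 : ℝ) < v1 := by exact_mod_cast Nat.pos_of_ne_zero hv10
  have hv'0' : (0 : ℝ) < v' := by exact_mod_cast Nat.pos_of_ne_zero hv'0
  have hκ : p4.κ = 23 / 100 := rfl
  have hν : p4.ν = 1 / 3 := rfl
  have hδ : p4.δ = 1 / 1000 := rfl
  have hδ1 : p4.δ1 = 1 / 1000 := rfl
  have he : p4.e = 1 / 10000 := rfl
  have hV0 : p4.V0 = 28 / 10000 := rfl
  -- a divisor of v with small cofactor is large
  have hbig : ∀ a b : ℕ, v = a * b → a ≠ 0 → (a : ℝ) ≤ x ^ (38 / 10000 : ℝ) →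
      x ^ (23 / 100 : ℝ) ≤ (b : ℝ) := by
    intro a b hab ha ha2
    have ha' : (0 : ℝ) < a := by exact_mod_cast Nat.pos_of_ne_zero ha
    have h1 : x ^ (38 / 10000 : ℝ) * x ^ (23 / 100 : ℝ) ≤ (a : ℝ) * b := by
      rw [hadd]
      have h2 : (v : ℝ) = (a : ℝ) * b := by rw [hab]; push_cast; ring
      rw [← h2]
      exact hV _ (by norm_num)
    have h3 : (a : ℝ) * x ^ (23 / 100 : ℝ) ≤ (a : ℝ) * b :=
      le_trans (mul_le_mul_of_nonneg_right ha2 (hpos _).le) h1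
    exact le_of_mul_le_mul_left h3 ha'
  by_cases hA : N * x ^ (-(3 * p4.e + p4.δ)) ≤ (w : ℝ) * v'
  · -- case A
    have ht1 : 1 ≤ N * x ^ (-(3 * p4.e)) / w := by
      rw [le_div_iff₀ hw0', one_mul]
      refine hw.trans ?_
      have h1 : x ^ (1 / 4 + 1 / 200 : ℝ) * 4 ≤ x ^ p4.ν * x ^ (-(3 * p4.e)) := by
        rw [hadd]
        calc x ^ (1 / 4 + 1 / 200 : ℝ) * 4 ≤ x ^ (1 / 4 + 1 / 200 : ℝ) * z :=
              mul_le_mul_of_nonneg_left h4 (hpos _).le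
          _ = x ^ (1 / 4 + 1 / 200 + 1 / 1000 : ℝ) := by rw [hzdef, hadd]
          _ ≤ _ := hmono _ _ (by rw [hν, he]; norm_num)
      have h2 : x ^ p4.ν / 4 * x ^ (-(3 * p4.e)) ≤ N * x ^ (-(3 * p4.e)) :=
        mul_le_mul_of_nonneg_right hN1 (hpos _).le
      linarith
    obtain ⟨r', hr'd, hr'le, hr'ge⟩ := fac4_greedy hv'0
      (fun p hp hpv => hsm p hp (hpv.trans ⟨v1, by rw [hv']; ring⟩)) ht1
    obtain ⟨u, hu⟩ := hr'd
    rw [le_div_iff₀ hw0'] at hr'le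
    refine ⟨w * r', u, v1, ?_, ?_, ?_, Or.inl ?_, ?_, ?_⟩
    · rw [hwq, hv', hu]; ring
    · push_cast
      rcases hr'ge with h | h
      · rw [div_le_iff₀ hw0'] at h
        have h1 : x ^ (-(3 * p4.e)) = z * x ^ (-(3 * p4.e + p4.δ)) := by
          rw [hzdef, hadd, hδ]; congr 1; ring
        rw [h1] at h
        have h2 : z * (N * x ^ (-(3 * p4.e + p4.δ))) ≤ z * ((w : ℝ) * r') := by linarith
        exact le_of_mul_le_mul_left h2 (by linarith)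
      · rw [h]; exact hA
    · push_cast; linarith
    · rw [hV0]; exact hv1lo
    · rw [hV0, hδ]; exact hv1le.trans (hmono _ _ (by norm_num))
    · intro t h1 h2
      rw [hδ1]
      have h3 : v' ∣ w * r' * u := ⟨w, by rw [hu]; ring⟩
      exact fac4_win hv'0 h3 hz1 (fun p hp hpv => hsm p hp (hpv.trans ⟨v1, by rw [hv']; ring⟩))
        (hbig v1 v' hv' hv10 hv1le) t h1 (by rw [hκ] at h2; exact h2)
  · -- case B
    push Not at hA
    have hqR : (q : ℝ) = (v1 : ℝ) * ((w : ℝ) * v') := by rw [hwq, hv']; push_cast; ring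
    have ht1 : 1 ≤ (q : ℝ) * x ^ (3 * p4.e + p4.δ) / N := by
      rw [le_div_iff₀ hN0, one_mul]
      refine hN2.trans ?_
      have h1 : 4 * x ^ (1 / 2 : ℝ) ≤ x ^ (1 / 2 - s) * x ^ (3 * p4.e + p4.δ) := by
        rw [hadd]
        calc 4 * x ^ (1 / 2 : ℝ) ≤ z * x ^ (1 / 2 : ℝ) := mul_le_mul_of_nonneg_right h4 (hpos _).le
          _ = x ^ (1 / 1000 + 1 / 2 : ℝ) := by rw [hzdef, hadd]
          _ ≤ _ := hmono _ _ (by rw [hδ, he]; linarith)
      exact h1.trans (mul_le_mul_of_nonneg_right hq1.le (hpos _).le)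
    have ht2 : (q : ℝ) * x ^ (3 * p4.e + p4.δ) / N ≤ x ^ (38 / 10000 : ℝ) := by
      rw [div_le_iff₀ hN0, hqR]
      have h1 : (v1 : ℝ) * ((w : ℝ) * v') ≤ x ^ (38 / 10000 : ℝ) *
          (N * x ^ (-(3 * p4.e + p4.δ))) :=
        mul_le_mul hv1le hA.le (by positivity) (hpos _).le
      have h2 : x ^ (-(3 * p4.e + p4.δ)) * x ^ (3 * p4.e + p4.δ) = 1 := by
        rw [hadd]; simp
      calc (v1 : ℝ) * ((w : ℝ) * v') * x ^ (3 * p4.e + p4.δ)
          ≤ x ^ (38 / 10000 : ℝ) * (N * x ^ (-(3 * p4.e + p4.δ))) * x ^ (3 * p4.e + p4.δ) :=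
            mul_le_mul_of_nonneg_right h1 (hpos _).le
        _ = x ^ (38 / 10000 : ℝ) * N * (x ^ (-(3 * p4.e + p4.δ)) * x ^ (3 * p4.e + p4.δ)) := by
            ring
        _ = x ^ (38 / 10000 : ℝ) * N := by rw [h2, mul_one]
    obtain ⟨v2, hv2d, hv2le, hv2ge⟩ := fac4_greedy hv0 hsm ht1
    have hv2le' : (v2 : ℝ) ≤ x ^ (38 / 10000 : ℝ) := hv2le.trans ht2
    obtain ⟨c, hc⟩ := hv2d
    have hv20 : v2 ≠ 0 := by rintro rfl; exact hv0 (by rw [hc, zero_mul])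
    have hc0 : c ≠ 0 := by rintro rfl; exact hv0 (by rw [hc, mul_zero])
    have hv20' : (0 : ℝ) < v2 := by exact_mod_cast Nat.pos_of_ne_zero hv20
    have hv2lo : (q : ℝ) * x ^ (3 * p4.e) / N ≤ v2 := by
      rcases hv2ge with h | h
      · have h1 : x ^ (3 * p4.e + p4.δ) = x ^ (3 * p4.e) * z := by
          rw [hzdef, hadd, hδ]
        rw [h1, div_le_iff₀ hN0] at h
        rw [div_le_iff₀ hN0]
        have h2 : z * ((q : ℝ) * x ^ (3 * p4.e)) ≤ z * ((v2 : ℝ) * N) := by linarith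
        exact le_of_mul_le_mul_left h2 (by linarith)
      · exfalso
        have h1 : x ^ (39 / 10000 : ℝ) ≤ (v : ℝ) := hV _ (by norm_num)
        have h2 : x ^ (38 / 10000 : ℝ) < x ^ (39 / 10000 : ℝ) :=
          Real.rpow_lt_rpow_of_exponent_lt (by
            by_contra hcon
            push Not at hcon
            have h3 : x = 1 := le_antisymm hcon hx1
            rw [hzdef, h3, Real.one_rpow] at h4
            linarith) (by norm_num)
        rw [h] at hv2le'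
        linarith
    have hqc : (q : ℝ) = (w : ℝ) * c * v2 := by rw [hwq, hc]; push_cast; ring
    refine ⟨w * c, 1, v2, ?_, ?_, ?_, Or.inr rfl, ?_, ?_⟩
    · rw [hwq, hc]; ring
    · push_cast
      rw [le_div_iff₀ hN0] at hv2le
      have h2 : x ^ (-(3 * p4.e + p4.δ)) * x ^ (3 * p4.e + p4.δ) = 1 := by
        rw [hadd]; simp
      have h3 : (v2 : ℝ) * (N * x ^ (-(3 * p4.e + p4.δ))) ≤ (v2 : ℝ) * ((w : ℝ) * c) := by
        calc (v2 : ℝ) * (N * x ^ (-(3 * p4.e + p4.δ)))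
            = (v2 * N) * x ^ (-(3 * p4.e + p4.δ)) := by ring
          _ ≤ ((q : ℝ) * x ^ (3 * p4.e + p4.δ)) * x ^ (-(3 * p4.e + p4.δ)) :=
              mul_le_mul_of_nonneg_right hv2le (hpos _).le
          _ = (q : ℝ) * (x ^ (-(3 * p4.e + p4.δ)) * x ^ (3 * p4.e + p4.δ)) := by ring
          _ = (v2 : ℝ) * ((w : ℝ) * c) := by rw [h2, mul_one, hqc]; ring
      exact le_of_mul_le_mul_left h3 hv20'
    · push_cast
      rw [div_le_iff₀ hN0] at hv2lo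
      have h2 : x ^ (3 * p4.e) * x ^ (-(3 * p4.e)) = 1 := by
        rw [hadd]; simp
      have h3 : (v2 : ℝ) * ((w : ℝ) * c) ≤ (v2 : ℝ) * (N * x ^ (-(3 * p4.e))) := by
        calc (v2 : ℝ) * ((w : ℝ) * c) = (q : ℝ) * (x ^ (3 * p4.e) * x ^ (-(3 * p4.e))) := by
              rw [h2, mul_one, hqc]; ring
          _ = ((q : ℝ) * x ^ (3 * p4.e)) * x ^ (-(3 * p4.e)) := by ring
          _ ≤ ((v2 : ℝ) * N) * x ^ (-(3 * p4.e)) := mul_le_mul_of_nonneg_right hv2lo (hpos _).le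
          _ = _ := by ring
      exact le_of_mul_le_mul_left h3 hv20'
    · rw [hV0, hδ]; exact hv2le'.trans (hmono _ _ (by norm_num))
    · intro t h1 h2
      rw [hδ1]
      have h3 : c ∣ w * c * 1 := ⟨w, by ring⟩
      exact fac4_win hc0 h3 hz1 (fun p hp hpv => hsm p hp (hpv.trans ⟨v2, by rw [hc]; ring⟩))
        (hbig v2 c hc hv20 hv2le') t h1 (by rw [hκ] at h2; exact h2)

end Pool.Agent.SL
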