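import Pool.Agent.SL4.EhL
import Pool.Agent.SL4.Fac4
import Pool.Agent.BGG.ToMT

/-! SLOPES, four groups (helper64): equidistribution for the pairs `PF`: the moduli beyond `N^(1/2-s)` have a large
smooth factor. -/

set_option autoImplicit false

namespace Pool.Agent.SL

open Finset Filter Pool.Agent.MT Pool.Agent.BGG

theorem pow_cmp (c a b : ℝ) (hab : a < b) (hb : 0 ≤ b) :
    ∀ᶠ N : ℕ in atTop, ∀ x : ℝ, (N : ℝ) / 2 ≤ x → c * (N : ℝ) ^ a ≤ x ^ b := by
  have h1 : Tendsto (fun N : ℕ => ((N : ℝ)) ^ (b - a)) atTop atTop :=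
    (tendsto_rpow_atTop (by linarith)).comp tendsto_natCast_atTop_atTop
  filter_upwards [h1.eventually_ge_atTop (c * 2 ^ b), eventually_ge_atTop 1] with N hN hN1 x hx
  have hN0 : (0 : ℝ) < N := by exact_mod_cast hN1
  have h2 : ((N : ℝ) / 2) ^ b ≤ x ^ b := Real.rpow_le_rpow (by positivity) hx hb
  refine le_trans ?_ h2
  rw [Real.div_rpow hN0.le (by norm_num), le_div_iff₀ (Real.rpow_pos_of_pos (by norm_num) b)]
  have h3 : (N : ℝ) ^ b = (N : ℝ) ^ (b - a) * (N : ℝ) ^ a := by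
    rw [← Real.rpow_add hN0]
    congr 1
    ring
  rw [h3]
  have h4 : 0 ≤ (N : ℝ) ^ a := Real.rpow_nonneg hN0.le a
  calc c * (N : ℝ) ^ a * 2 ^ b = (c * 2 ^ b) * (N : ℝ) ^ a := by ring
    _ ≤ _ := mul_le_mul_of_nonneg_right hN h4

/-- properties of the modulus `∏ lcm(d_i, e_i)` -/
theorem OK_q {k : ℕ} {D : ℕ} {m : Fin k} {d e : Fin k → ℕ} (hok : OK (primorial D) m d e) :
    Squarefree (∏ i, (d i).lcm (e i)) ∧ (∏ i, (d i).lcm (e i)).Coprime (primorial D) := by
  obtain ⟨_, _, hd, he, hdW, heW, hde⟩ := hok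
  constructor
  · apply Finset.squarefree_prod_of_pairwise_isCoprime
    · intro i _ j _ hij
      show IsRelPrime _ _
      rw [← Nat.coprime_iff_isRelPrime]
      have h1 : ((d i).lcm (e i)).Coprime (d j) :=
        Nat.Coprime.coprime_dvd_left (Nat.lcm_dvd_mul _ _)
          (Nat.Coprime.mul_left (sqf_prod_cop hd hij) (hde j i hij.symm).symm)
      have h2 : ((d i).lcm (e i)).Coprime (e j) :=
        Nat.Coprime.coprime_dvd_left (Nat.lcm_dvd_mul _ _)
          (Nat.Coprime.mul_left (hde i j hij) (sqf_prod_cop he hij))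
      exact Nat.Coprime.coprime_dvd_right (Nat.lcm_dvd_mul _ _) (Nat.Coprime.mul_right h1 h2)
    · intro i _
      exact sqf_lcm (sqf_prod_one hd i) (sqf_prod_one he i)
  · apply Nat.Coprime.prod_left
    intro i _
    exact Nat.Coprime.coprime_dvd_left (Nat.lcm_dvd_mul _ _)
      (Nat.Coprime.mul_left (cop_prod_one hdW i) (cop_prod_one heW i))

theorem ehp4 {k : ℕ} (s h : Fin k → ℕ) (hs : ∀ i, 0 < s i) (D b : ℕ) (hL : Large s h D) (hG : Good s h D b)
    (l m : Fin k) (ξ θ : ℝ) (hξ0 : 0 ≤ ξ) (hθ0 : 0 ≤ θ) (hθ : θ ≤ 1 / 10000) (hξθ : ξ + θ < 1 / 4) :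
    EHP s h (primorial D) b l (PF m ξ (1 / 4 + 1 / 2000) (1 / 2000) θ) := by
  classical
  set u : ℝ := min (1 / 100000) ((1 / 2 - 2 * ξ - 2 * θ) / 2) with hu
  have hu0 : 0 < u := lt_min (by norm_num) (by linarith)
  have hu1 : u ≤ 1 / 100000 := min_le_left _ _
  have hu2 : 2 * u ≤ 1 / 2 - 2 * ξ - 2 * θ := by
    have : u ≤ (1 / 2 - 2 * ξ - 2 * θ) / 2 := min_le_right _ _
    linarith
  set W : ℕ := s l * primorial D with hW
  have hW1 : 1 ≤ W := Nat.mul_pos (hs l) (primorial_pos D)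
  obtain ⟨x0, hx0⟩ := fac4 u hu0 (by linarith)
  refine ehp_of_ehs s h hs D b hL hG l _ (mulD W (1 / 900) (D4 p4 u)) (ehs4 u hu0 hu1 W hW1) ?_ ?_
  · intro x hx r hr
    unfold mulD at hr
    obtain ⟨hr1, hr2⟩ := Finset.mem_filter.1 hr
    obtain ⟨q, hq, rfl⟩ := Finset.mem_image.1 hr1
    constructor
    · have h1 := (Finset.mem_filter.1 hq).1
      unfold D4 at h1
      have h2 := (Finset.mem_Icc.1 (Finset.mem_filter.1 h1).1).1
      exact Nat.mul_pos (by omega) (by omega)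
    · refine hr2.trans ?_
      calc x ^ (1 / 2 + 2 * (1 / 900) : ℝ) ≤ x ^ (1 : ℝ) :=
            Real.rpow_le_rpow_of_exponent_le (by linarith) (by norm_num)
        _ = x := Real.rpow_one x
  · have e0 : ∀ᶠ N : ℕ in atTop, x0 + 1 ≤ (N : ℝ) :=
      tendsto_natCast_atTop_atTop.eventually_ge_atTop _
    filter_upwards [e0, eventually_ge_atTop 4,
      pow_cmp 1 (2 * ξ + 2 * θ) (1 / 2 - u) (by linarith) (by linarith),
      pow_cmp 1 (ξ + 2 * θ) (1 / 4 + 1 / 250) (by linarith) (by norm_num),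
      pow_cmp 1 (2 * (1 / 4 + 1 / 2000) + 2 * θ) (1 / 2 + 2 / 1000) (by linarith) (by norm_num),
      pow_cmp 1 (1 / 2000) (1 / 1000) (by norm_num) (by norm_num),
      pow_cmp W (2 * (1 / 4 + 1 / 2000) + 2 * θ) (1 / 2 + 2 * (1 / 900)) (by linarith) (by norm_num)]
      with N hN0' hN4 c1 c2 c3 c4 c5 d e hok hP
    have hN4R : (4 : ℝ) ≤ N := by exact_mod_cast hN4
    have hN0 : (0 : ℝ) < N := by linarith
    have hN1 : (1 : ℝ) ≤ N := by linarith
    set x : ℝ := ((s l * N + h l : ℕ) : ℝ) - 1 with hx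
    have hxN : (N : ℝ) - 1 ≤ x := by
      have h1 : N ≤ s l * N + h l := by
        have := Nat.le_mul_of_pos_left N (hs l)
        omega
      have h2 : (N : ℝ) ≤ ((s l * N + h l : ℕ) : ℝ) := by exact_mod_cast h1
      rw [hx]
      linarith
    have hx2 : (N : ℝ) / 2 ≤ x := by linarith
    have hx0' : 0 < x := by linarith
    have hx1 : 1 ≤ x := by linarith
    replace c1 := c1 x hx2
    replace c2 := c2 x hx2
    replace c3 := c3 x hx2
    replace c4 := c4 x hx2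
    replace c5 := c5 x hx2
    rw [one_mul] at c1 c2 c3 c4
    set q : ℕ := ∏ i, (d i).lcm (e i) with hq
    obtain ⟨hqs, hqc⟩ := OK_q hok
    rw [← hq] at hqs hqc
    obtain ⟨_, _, hd, he, _, _, _⟩ := hok
    have hd0 : ∀ i, d i ≠ 0 := fun i => (sqf_prod_one hd i).ne_zero
    have he0 : ∀ i, e i ≠ 0 := fun i => (sqf_prod_one he i).ne_zero
    set g : ℕ := ∏ i ∈ univ.erase m, (d i).lcm (e i) with hg
    have hqg : q = (d m).lcm (e m) * g := (Finset.mul_prod_erase univ _ (Finset.mem_univ m)).symm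
    have hgle : (g : ℝ) ≤ (N : ℝ) ^ (2 * θ) := by
      have h1 : g ≤ (∏ i ∈ univ.erase m, d i) * (∏ i ∈ univ.erase m, e i) := by
        rw [hg, ← Finset.prod_mul_distrib]
        exact Finset.prod_le_prod' fun i _ => Nat.le_of_dvd
          (Nat.mul_pos (Nat.pos_of_ne_zero (hd0 i)) (Nat.pos_of_ne_zero (he0 i))) (Nat.lcm_dvd_mul _ _)
      have h2 : (g : ℝ) ≤ ((∏ i ∈ univ.erase m, d i : ℕ) : ℝ) * ((∏ i ∈ univ.erase m, e i : ℕ) : ℝ) := by
        exact_mod_cast h1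
      refine h2.trans ?_
      have h3 : (N : ℝ) ^ (2 * θ) = (N : ℝ) ^ θ * (N : ℝ) ^ θ := by
        rw [← Real.rpow_add hN0]
        congr 1
        ring
      rw [h3]
      exact mul_le_mul hP.2.2.1.le hP.2.2.2.le (Nat.cast_nonneg _) (Real.rpow_nonneg hN0.le _)
    have hq1 : 1 ≤ q := Nat.pos_of_ne_zero hqs.ne_zero
    have hlcm : (((d m).lcm (e m) : ℕ) : ℝ) ≤ (d m : ℝ) * e m := by
      have : (d m).lcm (e m) ≤ d m * e m := Nat.le_of_dvd
          (Nat.mul_pos (Nat.pos_of_ne_zero (hd0 m)) (Nat.pos_of_ne_zero (he0 m))) (Nat.lcm_dvd_mul _ _)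
      exact_mod_cast this
    have hqR : (q : ℝ) = (((d m).lcm (e m) : ℕ) : ℝ) * g := by rw [hqg]; push_cast; ring
    have hadd : ∀ a1 a2 : ℝ, (N : ℝ) ^ a1 * (N : ℝ) ^ a2 = (N : ℝ) ^ (a1 + a2) := fun a1 a2 =>
      (Real.rpow_add hN0 a1 a2).symm
    have hpn : ∀ a1 : ℝ, 0 ≤ (N : ℝ) ^ a1 := fun a1 => Real.rpow_nonneg hN0.le _
    have hmono : ∀ a1 a2 : ℝ, a1 ≤ a2 → (N : ℝ) ^ a1 ≤ (N : ℝ) ^ a2 := fun a1 a2 h12 =>
      Real.rpow_le_rpow_of_exponent_le hN1 h12
    -- size of the members of the family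
    have hFam : ∀ v : ℕ, Fam N ξ (1 / 4 + 1 / 2000) (1 / 2000) v → (v : ℝ) ≤ (N : ℝ) ^ (1 / 4 + 1 / 2000 : ℝ) := by
      intro v hv
      rcases hv with hv | ⟨hv, _⟩
      · exact hv.le.trans (hmono _ _ (by linarith))
      · exact hv.le
    have hqN : (q : ℝ) ≤ (N : ℝ) ^ (2 * (1 / 4 + 1 / 2000) + 2 * θ : ℝ) := by
      rw [hqR, ← hadd]
      refine mul_le_mul ?_ hgle (Nat.cast_nonneg _) (hpn _)
      refine hlcm.trans ?_
      have h3 : (N : ℝ) ^ (2 * (1 / 4 + 1 / 2000) : ℝ) = (N : ℝ) ^ (1 / 4 + 1 / 2000 : ℝ) * (N : ℝ) ^ (1 / 4 + 1 / 2000 : ℝ) := by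
        rw [hadd]
        congr 1
        ring
      rw [h3]
      exact mul_le_mul (hFam _ hP.1) (hFam _ hP.2.1) (Nat.cast_nonneg _) (hpn _)
    have hqhi : (q : ℝ) ≤ x ^ (1 / 2 + 2 / 1000 : ℝ) := hqN.trans c3
    -- the factorisation
    have hfac : ∀ v : ℕ, v ∣ q → (∀ p : ℕ, p.Prime → p ∣ v → (p : ℝ) ≤ (N : ℝ) ^ (1 / 2000 : ℝ)) →
        ∀ w : ℕ, q ≤ v * w → (w : ℝ) ≤ (N : ℝ) ^ (ξ + 2 * θ) ∨ (w : ℝ) ≤ (N : ℝ) ^ (2 * θ) →
        (q : ℝ) ≤ x ^ (1 / 2 - u) ∨ Disp.FacP p4 x q := by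
      intro v hv hvs w hqw hw
      rcases le_or_gt (q : ℝ) (x ^ (1 / 2 - u)) with h1 | h1
      · exact Or.inl h1
      right
      have hw' : (w : ℝ) ≤ x ^ (1 / 4 + 1 / 250 : ℝ) := by
        rcases hw with hw | hw
        · exact hw.trans c2
        · exact (hw.trans (hmono _ _ (by linarith))).trans c2
      have hv0 : v ≠ 0 := fun h0 => by
        rw [h0, zero_dvd_iff] at hv
        omega
      have hvpos : (0 : ℝ) < v := by exact_mod_cast Nat.pos_of_ne_zero hv0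
      have hxx : x0 ≤ x := by linarith
      refine hx0 x hxx q v hqs hv h1 hqhi (fun p hp hpv => (hvs p hp hpv).trans c4) ?_ ?_
      · have h2 : (q : ℝ) ≤ v * w := by exact_mod_cast hqw
        have h3 : x ^ (1 / 4 + 1 / 250 : ℝ) * x ^ (1 / 4 - 1 / 200 : ℝ) ≤ x ^ (1 / 2 - u) := by
          rw [← Real.rpow_add hx0']
          exact Real.rpow_le_rpow_of_exponent_le hx1 (by linarith)
        have h4 : 0 < x ^ (1 / 4 + 1 / 250 : ℝ) := Real.rpow_pos_of_pos hx0' _
        by_contra hcon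
        push Not at hcon
        have h5 : (v : ℝ) * w ≤ x ^ (1 / 4 + 1 / 250 : ℝ) * x ^ (1 / 4 - 1 / 200 : ℝ) := by
          rw [mul_comm (x ^ (1 / 4 + 1 / 250 : ℝ))]
          exact mul_le_mul hcon.le hw' (Nat.cast_nonneg _) (Real.rpow_nonneg hx0'.le _)
        linarith
      · have h2 : q / v ≤ w := by
          apply Nat.div_le_of_le_mul
          exact hqw
        have h3 : ((q / v : ℕ) : ℝ) ≤ w := by exact_mod_cast h2
        refine (h3.trans hw').trans ?_
        exact Real.rpow_le_rpow_of_exponent_le hx1 (by norm_num)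
    have hlcmq : (d m).lcm (e m) ∣ q := hqg ▸ dvd_mul_right _ _
    have hdq : d m ∣ q := (Nat.dvd_lcm_left _ _).trans hlcmq
    have heq : e m ∣ q := (Nat.dvd_lcm_right _ _).trans hlcmq
    have hle2 : (d m).lcm (e m) ≤ d m * e m := Nat.le_of_dvd
          (Nat.mul_pos (Nat.pos_of_ne_zero (hd0 m)) (Nat.pos_of_ne_zero (he0 m))) (Nat.lcm_dvd_mul _ _)
    have hmain : (q : ℝ) ≤ x ^ (1 / 2 - u) ∨ Disp.FacP p4 x q := by
      obtain ⟨hP1, hP2, _, _⟩ := hP
      rcases hP1 with hd1 | ⟨hd1, hds⟩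
      · rcases hP2 with he1 | ⟨he1, hes⟩
        · left
          refine le_trans ?_ c1
          rw [hqR, ← hadd]
          refine mul_le_mul ?_ hgle (Nat.cast_nonneg _) (hpn _)
          refine hlcm.trans ?_
          have h3 : (N : ℝ) ^ (2 * ξ) = (N : ℝ) ^ ξ * (N : ℝ) ^ ξ := by
            rw [hadd]
            congr 1
            ring
          rw [h3]
          exact mul_le_mul hd1.le he1.le (Nat.cast_nonneg _) (hpn _)
        · refine hfac (e m) heq hes (d m * g) ?_ (Or.inl ?_)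
          · rw [hqg]
            calc (d m).lcm (e m) * g ≤ (d m * e m) * g := Nat.mul_le_mul_right _ hle2
              _ = e m * (d m * g) := by ring
          · push_cast
            rw [← hadd]
            exact mul_le_mul hd1.le hgle (Nat.cast_nonneg _) (hpn _)
      · rcases hP2 with he1 | ⟨he1, hes⟩
        · refine hfac (d m) hdq hds (e m * g) ?_ (Or.inl ?_)
          · rw [hqg]
            calc (d m).lcm (e m) * g ≤ (d m * e m) * g := Nat.mul_le_mul_right _ hle2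
              _ = d m * (e m * g) := by ring
          · push_cast
            rw [← hadd]
            exact mul_le_mul he1.le hgle (Nat.cast_nonneg _) (hpn _)
        · refine hfac ((d m).lcm (e m)) hlcmq ?_ g (by rw [hqg]) (Or.inr hgle)
          intro p hp hpv
          rcases (Nat.Prime.dvd_mul hp).1 (hpv.trans (Nat.lcm_dvd_mul _ _)) with h1 | h1
          · exact hds p hp h1
          · exact hes p hp h1
    -- membership
    have hqcW : q.Coprime W := by
      rw [hW]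
      refine Nat.Coprime.mul_right ?_ hqc
      rw [Nat.coprime_iff_gcd_eq_one] at hqc
      apply Nat.coprime_of_dvd
      intro p hp hpq hps
      have hpD : D < p := by
        by_contra hle
        have h1 : p ∣ primorial D := hp.dvd_primorial_iff.2 (by omega)
        have h2 := Nat.dvd_gcd hpq h1
        rw [hqc] at h2
        exact hp.one_lt.ne' (Nat.dvd_one.1 h2)
      exact (hL p hp hpD).1 l hps
    unfold mulD
    rw [Finset.mem_filter]
    refine ⟨Finset.mem_image.2 ⟨q, Finset.mem_filter.2 ⟨?_, hqcW⟩, rfl⟩, ?_⟩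
    · unfold D4
      rw [Finset.mem_filter, Finset.mem_Icc]
      refine ⟨⟨hq1, ?_⟩, hqs, hmain⟩
      have h1 : 1 / 2 + 2 * p4.w = (1 / 2 + 2 / 1000 : ℝ) := by norm_num [p4]
      rw [h1]
      exact Nat.le_floor hqhi
    · rw [Nat.cast_mul]
      calc (W : ℝ) * q ≤ W * (N : ℝ) ^ (2 * (1 / 4 + 1 / 2000) + 2 * θ : ℝ) :=
            mul_le_mul_of_nonneg_left hqN (Nat.cast_nonneg _)
        _ ≤ _ := c5

end Pool.Agent.SL
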