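import Pool.Agent.SL4.Defs
import Pool.Agent.SL.S3Asym
import Pool.Agent.BrunHooley.Mertens

/-! Module ZLOW (SLOPES, four groups, helper64): the family contains a little more than a quarter of all.

Proof.  Disjoint union of `{val T < N^ξ}` and `{T smooth, N^(1/4) ≤ val T < N^ξ'}` (`ξ ≤ 1/4`).
First part: `Z0_lim` with a large number `M` of cells and `L = ⌊ξ M⌋ - 1` or so gives `≥ (ξ - η) XX` (any small `η`; if
`cell M T < L ≤ ξ M` then `val T < N^ξ`).
Second part: choose `j` with `1/(4 j) ≤ β/2`, `a = 1/(4 j)`, `a_i = a + i ε`, `ε` small with `∑_{i<j} a_{i+1} + w0 ≤ ξ'`,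
`w0 ≤ a`, `a_j ≤ β`; `T = {p_0, .., p_(j-1)} ∪ R`, `N^(a_i) < p_i ≤ N^(a_(i+1))`, `val R < N^w0` (so the primes of `R` are `< p_0`, and
`(p, R)` is determined by `T`).  The sum factorises: `∏_i (∑_p 1/(p-1)) · Z0(w0)`, the last factor is `≥ (w0/2) XX` by
`Z0_lim`, and `∑_{N^a < p ≤ N^b} 1/(p-1) ≥ c(a,b) > 0` for `N` large by Mertens (`∑_{p ≤ x} log p / p = log x + O(1)`:
`Pool/Agent/BrunHooley/Mertens.lean` (`M_ge`, `M_le`), or `Pool/Agent/MT/Mert.lean`).  `η` does not depend on `ξ`, `D`. -/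

set_option autoImplicit false

namespace Pool.Agent.SL

open Finset Filter Topology Pool.Agent.MT

open Pool.Agent.BrunHooley.MertensAux (M M_ge M_le) in
/-- the sum of `log p / p` over the primes in a real interval, from below -/
private theorem ZLow_mert : ∃ C : ℝ, 0 < C ∧ ∀ x y : ℝ, 1 ≤ x → x ≤ y →
    Real.log y - Real.log x - C ≤ ∑ p ∈ (Ioc ⌊x⌋₊ ⌊y⌋₊).filter Nat.Prime, Real.log p / p := by
  have h := ArithmeticFunction.vonMangoldt.summable_residueClass_non_primes_div (q := 1) 0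
  have e : (fun n : ℕ ↦ (if n.Prime then 0 else ArithmeticFunction.vonMangoldt.residueClass (q := 1) 0 n) / (n : ℝ))
      = fun n : ℕ => (if n.Prime then 0 else ArithmeticFunction.vonMangoldt n) / (n : ℝ) := by
    funext n
    have : ArithmeticFunction.vonMangoldt.residueClass (q := 1) 0 n = ArithmeticFunction.vonMangoldt n := by
      rw [ArithmeticFunction.vonMangoldt.residueClass, Set.indicator_of_mem]
      simp only [Set.mem_ofPred_eq]
      exact Subsingleton.elim _ _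
    rw [this]
  rw [e] at h
  have hn : ∀ n : ℕ, 0 ≤ (if n.Prime then 0 else ArithmeticFunction.vonMangoldt n) / (n : ℝ) := by
    intro n
    split_ifs
    · simp
    · exact div_nonneg ArithmeticFunction.vonMangoldt_nonneg (Nat.cast_nonneg n)
  set K : ℝ := ∑' n : ℕ, (if n.Prime then 0 else ArithmeticFunction.vonMangoldt n) / (n : ℝ) with hK
  have hK0 : 0 ≤ K := tsum_nonneg hn
  refine ⟨K + 12, by linarith, fun x y hx hxy => ?_⟩
  have hab : ⌊x⌋₊ ≤ ⌊y⌋₊ := Nat.floor_mono hxy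
  have hx1 : 1 ≤ ⌊x⌋₊ := (Nat.one_le_floor_iff x).mpr hx
  have hx1' : (1 : ℝ) ≤ (⌊x⌋₊ : ℝ) := by exact_mod_cast hx1
  have hy1 : 1 ≤ ⌊y⌋₊ := hx1.trans hab
  have hy1' : (1 : ℝ) ≤ (⌊y⌋₊ : ℝ) := by exact_mod_cast hy1
  have h1 : M ⌊y⌋₊ = M ⌊x⌋₊ + ∑ d ∈ Ioc ⌊x⌋₊ ⌊y⌋₊, ArithmeticFunction.vonMangoldt d / d := by
    rw [M, M, ← Finset.sum_union]
    · congr 1
      ext z; simp only [mem_Ioc, mem_union]; omega
    · rw [Finset.disjoint_left]; intro z; simp only [mem_Ioc]; omega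
  have h2 : ∑ n ∈ Ioc ⌊x⌋₊ ⌊y⌋₊, ArithmeticFunction.vonMangoldt n / n =
      (∑ p ∈ (Ioc ⌊x⌋₊ ⌊y⌋₊).filter Nat.Prime, Real.log p / p) +
        ∑ d ∈ Ioc ⌊x⌋₊ ⌊y⌋₊, (if d.Prime then 0 else ArithmeticFunction.vonMangoldt d) / (d : ℝ) := by
    rw [Finset.sum_filter, ← Finset.sum_add_distrib]
    refine Finset.sum_congr rfl fun d _ => ?_
    split_ifs with hp
    · rw [ArithmeticFunction.vonMangoldt_apply_prime hp]; ring
    · ring
  have h3 : ∑ d ∈ Ioc ⌊x⌋₊ ⌊y⌋₊, (if d.Prime then 0 else ArithmeticFunction.vonMangoldt d) / (d : ℝ) ≤ K :=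
    h.sum_le_tsum _ fun i _ => hn i
  have h4 := M_ge ⌊y⌋₊ (by omega)
  have h5 := M_le ⌊x⌋₊ (by omega)
  have h6 : Real.log (⌊x⌋₊ : ℝ) ≤ Real.log x := Real.log_le_log (by linarith) (Nat.floor_le (by linarith))
  have h7 : Real.log y ≤ Real.log 2 + Real.log (⌊y⌋₊ : ℝ) := by
    rw [← Real.log_mul (by norm_num) (by linarith)]
    exact Real.log_le_log (by linarith) (by linarith [Nat.lt_floor_add_one y])
  have hlog2 := Real.log_two_lt_d9
  have hlog4 : Real.log 4 = 2 * Real.log 2 := by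
    rw [show (4 : ℝ) = 2 ^ 2 by norm_num, Real.log_pow]; norm_num
  linarith

/-- the primes of the window `(N^a, N^b]` -/
private noncomputable def ZLowW (D N : ℕ) (a b : ℝ) : Finset (Pr D N) :=
  univ.filter fun p => (N : ℝ) ^ a < ((p : ℕ) : ℝ) ∧ ((p : ℕ) : ℝ) ≤ (N : ℝ) ^ b

private theorem ZLow_win (a b : ℝ) (ha : 0 < a) (hab : a < b) (hb : b < 1) (D : ℕ) (hD : 2 ≤ D) :
    ∀ᶠ N : ℕ in atTop, (b - a) / (2 * b) ≤ ∑ p ∈ ZLowW D N a b, 1 / (qq D N p - 1) := by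
  obtain ⟨C, hC, hm⟩ := ZLow_mert
  have t1 : Tendsto (fun N : ℕ => (N : ℝ) ^ a) atTop atTop :=
    (tendsto_rpow_atTop ha).comp tendsto_natCast_atTop_atTop
  have t2 : Tendsto (fun N : ℕ => Real.log N) atTop atTop :=
    Real.tendsto_log_atTop.comp tendsto_natCast_atTop_atTop
  filter_upwards [t1.eventually_gt_atTop (D : ℝ), t2.eventually_gt_atTop (2 * C / (b - a)),
    eventually_ge_atTop 2, t1.eventually_ge_atTop 1] with N h1 h2 h3 h4
  have hN1 : (1 : ℝ) < N := by exact_mod_cast (by omega : 1 < N)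
  have hb0 : 0 < b := ha.trans hab
  have hlog : 0 < Real.log N := Real.log_pos hN1
  have hxy : (N : ℝ) ^ a ≤ (N : ℝ) ^ b := Real.rpow_le_rpow_of_exponent_le hN1.le hab.le
  have h5 := hm _ _ h4 hxy
  rw [Real.log_rpow (by linarith), Real.log_rpow (by linarith)] at h5
  have h6 : (b - a) / (2 * b) * (b * Real.log N) ≤ b * Real.log N - a * Real.log N - C := by
    have h7 : 2 * C < (b - a) * Real.log N := by
      rw [div_lt_iff₀ (by linarith)] at h2
      linarith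
    have h8 : (b - a) / (2 * b) * (b * Real.log N) = (b - a) * Real.log N / 2 := by
      field_simp
    rw [h8]
    linarith
  -- the sum over natural numbers
  have h7 : ∑ p ∈ (Ioc ⌊(N : ℝ) ^ a⌋₊ ⌊(N : ℝ) ^ b⌋₊).filter Nat.Prime, Real.log p / p ≤
      (b * Real.log N) * ∑ p ∈ (Ioc ⌊(N : ℝ) ^ a⌋₊ ⌊(N : ℝ) ^ b⌋₊).filter Nat.Prime, 1 / ((p : ℝ) - 1) := by
    rw [Finset.mul_sum]
    refine Finset.sum_le_sum fun p hp => ?_
    obtain ⟨hp1, hp2⟩ := Finset.mem_filter.1 hp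
    have hp3 : (2 : ℝ) ≤ p := by exact_mod_cast hp2.two_le
    have hp4 : (p : ℝ) ≤ (N : ℝ) ^ b := by
      have := (Nat.le_floor_iff (by positivity)).1 (Finset.mem_Ioc.1 hp1).2
      exact this
    have hp5 : Real.log p ≤ b * Real.log N := by
      rw [← Real.log_rpow (by linarith)]
      exact Real.log_le_log (by linarith) hp4
    have hp6 : 0 ≤ b * Real.log N := by positivity
    calc Real.log p / p ≤ b * Real.log N / p := by gcongr
      _ = b * Real.log N * (1 / p) := by ring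
      _ ≤ b * Real.log N * (1 / ((p : ℝ) - 1)) := by
        refine mul_le_mul_of_nonneg_left ?_ hp6
        exact one_div_le_one_div_of_le (by linarith) (by linarith)
  have h8 : ∑ p ∈ (Ioc ⌊(N : ℝ) ^ a⌋₊ ⌊(N : ℝ) ^ b⌋₊).filter Nat.Prime, 1 / ((p : ℝ) - 1) ≤
      ∑ p ∈ ZLowW D N a b, 1 / (qq D N p - 1) := by
    have h9 : ∑ p ∈ ZLowW D N a b, 1 / (qq D N p - 1) =
        ∑ p ∈ (ZLowW D N a b).image (fun p : Pr D N => (p : ℕ)), 1 / ((p : ℝ) - 1) := by
      rw [Finset.sum_image]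
      · rfl
      · intro p _ p' _ h
        exact Subtype.ext h
    rw [h9]
    refine Finset.sum_le_sum_of_subset_of_nonneg ?_ ?_
    · intro p hp
      obtain ⟨hp1, hp2⟩ := Finset.mem_filter.1 hp
      obtain ⟨hp3, hp4⟩ := Finset.mem_Ioc.1 hp1
      have hp5 : (p : ℝ) ≤ (N : ℝ) ^ b := (Nat.le_floor_iff (by positivity)).1 hp4
      have hp6 : (N : ℝ) ^ a < p := (Nat.floor_lt (by positivity)).1 hp3
      have hp7 : (p : ℝ) < N := by
        refine hp5.trans_lt ?_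
        calc (N : ℝ) ^ b < (N : ℝ) ^ (1 : ℝ) := Real.rpow_lt_rpow_of_exponent_lt hN1 hb
          _ = N := Real.rpow_one _
      have hp8 : p ∈ PrS D N := by
        unfold PrS
        refine Finset.mem_filter.2 ⟨Finset.mem_range.2 (by exact_mod_cast hp7), hp2, ?_⟩
        exact_mod_cast h1.trans hp6
      exact Finset.mem_image.2 ⟨⟨p, hp8⟩, Finset.mem_filter.2 ⟨Finset.mem_univ _, hp6, hp5⟩, rfl⟩
    · intro p hp _
      obtain ⟨p', hp', rfl⟩ := Finset.mem_image.1 hp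
      have := MT.BOXAux.qq_ge hD p'
      unfold qq at this
      exact div_nonneg zero_le_one (by linarith)
  have h9 : 0 < b * Real.log N := by positivity
  refine le_of_mul_le_mul_right ?_ h9
  calc (b - a) / (2 * b) * (b * Real.log N) ≤ b * Real.log N - a * Real.log N - C := h6
    _ ≤ _ := h5
    _ ≤ _ := h7
    _ ≤ (b * Real.log N) * ∑ p ∈ ZLowW D N a b, 1 / (qq D N p - 1) :=
        mul_le_mul_of_nonneg_left h8 h9.le
    _ = _ := mul_comm _ _

private theorem ZLow_wpos {D N : ℕ} (hD : 2 ≤ D) (T : Finset (Pr D N)) :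
    0 ≤ ∏ p ∈ T, 1 / (qq D N p - 1) := by
  refine Finset.prod_nonneg fun p _ => ?_
  have := MT.BOXAux.qq_ge hD p
  exact div_nonneg zero_le_one (by linarith)

open Classical in
/-- the sets with `val T < N^t` -/
private theorem ZLow_Z (D : ℕ) (hD : 2 ≤ D) (t : ℝ) (ht0 : 0 < t) (ht1 : t ≤ 1) (η : ℝ) (hη : 0 < η) :
    ∀ᶠ N : ℕ in atTop, (t - η) * XX D N ≤
      ∑ T : Finset (Pr D N) with ((MT.val T : ℕ) : ℝ) < (N : ℝ) ^ t, ∏ p ∈ T, 1 / (qq D N p - 1) := by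
  set M : ℕ := ⌈2 / η⌉₊ + 1 with hM
  have hM1 : 1 ≤ M := by omega
  have hM0 : (0 : ℝ) < M := by exact_mod_cast hM1
  have hM2 : 1 / (M : ℝ) ≤ η / 2 := by
    have h1 : 2 / η ≤ (M : ℝ) := by
      rw [hM]
      push_cast
      linarith [Nat.le_ceil (2 / η)]
    rw [div_le_iff₀ hM0]
    rw [div_le_iff₀ hη] at h1
    linarith
  set L : ℕ := ⌊t * M⌋₊ with hL
  have hL1 : (L : ℝ) ≤ t * M := Nat.floor_le (by positivity)
  have hL2 : t * M < L + 1 := Nat.lt_floor_add_one _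
  have hLM : L ≤ M := by
    have : (L : ℝ) ≤ M := hL1.trans (by nlinarith)
    exact_mod_cast this
  have hLt : t - η / 2 ≤ (L : ℝ) / M := by
    rw [le_div_iff₀ hM0]
    have h2 : 1 ≤ η / 2 * M := by
      rw [div_le_iff₀ hM0] at hM2
      exact hM2
    nlinarith
  have hlim := Z0_lim D M L hD hM1 hLM
  have h3 : t - η < (L : ℝ) / M := by linarith
  filter_upwards [hlim.eventually_const_lt h3, eventually_ge_atTop 2] with N h4 hN
  have hX := XX_pos D N hN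
  rw [lt_div_iff₀ hX] at h4
  refine h4.le.trans ?_
  unfold Z0
  refine Finset.sum_le_sum_of_subset_of_nonneg ?_ fun T _ _ => ZLow_wpos hD T
  intro T hT
  have h5 := (Finset.mem_filter.1 hT).2
  refine Finset.mem_filter.2 ⟨Finset.mem_univ _, ?_⟩
  have hN1 : (1 : ℝ) < N := by exact_mod_cast (by omega : 1 < N)
  have hlog : 0 < Real.log N := Real.log_pos hN1
  have hv : (0 : ℝ) < (MT.val T : ℕ) := by exact_mod_cast MT.BOXAux.val_pos T
  unfold cell at h5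
  have h6 : (M : ℝ) * Real.log (MT.val T) / Real.log N < L := by
    rcases Nat.eq_zero_or_pos L with h0 | h0
    · rw [h0] at h5
      exact absurd h5 (Nat.not_lt_zero _)
    · exact (Nat.floor_lt' h0.ne').1 h5
  rw [div_lt_iff₀ hlog] at h6
  rw [← Real.log_lt_log_iff hv (by positivity), Real.log_rpow (by linarith)]
  refine lt_of_mul_lt_mul_left ?_ hM0.le
  calc (M : ℝ) * Real.log (MT.val T) < L * Real.log N := h6
    _ ≤ t * M * Real.log N := mul_le_mul_of_nonneg_right hL1 hlog.le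
    _ = M * (t * Real.log N) := by ring

/-- the product over `{p_0, .., p_(j-1)} ∪ R` -/
private theorem ZLow_prod {ι β : Type} [DecidableEq ι] [CommMonoid β] {j : ℕ} (p : Fin j → ι) (R : Finset ι)
    (hp : Function.Injective p) (hR : ∀ i, p i ∉ R) (f : ι → β) :
    ∏ x ∈ univ.image p ∪ R, f x = (∏ i, f (p i)) * ∏ x ∈ R, f x := by
  rw [Finset.prod_union, Finset.prod_image fun _ _ _ _ h => hp h]
  rw [Finset.disjoint_left]
  intro x hx hx'
  obtain ⟨i, -, rfl⟩ := Finset.mem_image.1 hx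
  exact hR i hx'

open Classical in
private theorem ZLow_B (ξ' β : ℝ) (hξ' : 1 / 4 < ξ') (hβ : 0 < β) :
    ∃ P : ℝ, 0 < P ∧ ∀ D : ℕ, 2 ≤ D → ∀ᶠ N : ℕ in atTop, P * XX D N ≤
      ∑ T : Finset (Pr D N) with ((N : ℝ) ^ (1 / 4 : ℝ) ≤ ((MT.val T : ℕ) : ℝ) ∧
        ((MT.val T : ℕ) : ℝ) < (N : ℝ) ^ ξ' ∧ ∀ p : ℕ, p.Prime → p ∣ MT.val T → (p : ℝ) ≤ (N : ℝ) ^ β),
        ∏ p ∈ T, 1 / (qq D N p - 1) := by
  -- parameters
  set β0 : ℝ := min β (1 / 2) with hβ0
  have hβ1 : 0 < β0 := lt_min hβ (by norm_num)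
  have hβ2 : β0 ≤ β := min_le_left _ _
  have hβ3 : β0 ≤ 1 / 2 := min_le_right _ _
  set δ : ℝ := (ξ' - 1 / 4) / 2 with hδ
  have hδ0 : 0 < δ := by rw [hδ]; linarith
  set j : ℕ := ⌈1 / (2 * β0)⌉₊ + 1 with hj
  have hj1 : 1 ≤ j := by omega
  have hj0 : (0 : ℝ) < j := by exact_mod_cast hj1
  have hj1' : (1 : ℝ) ≤ j := by exact_mod_cast hj1
  have hjβ : 1 / (2 * β0) ≤ (j : ℝ) := by
    rw [hj]
    push_cast
    linarith [Nat.le_ceil (1 / (2 * β0))]
  set a : ℝ := 1 / (4 * j) with ha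
  have ha0 : 0 < a := by rw [ha]; positivity
  have haβ : a ≤ β0 / 2 := by
    rw [ha, div_le_iff₀ (by positivity)]
    rw [div_le_iff₀ (by positivity)] at hjβ
    nlinarith
  set ε : ℝ := min δ β0 / (2 * j ^ 2) with hε
  have hmin : 0 < min δ β0 := lt_min hδ0 hβ1
  have hε0 : 0 < ε := by rw [hε]; positivity
  have hεj : ε * j ^ 2 = min δ β0 / 2 := by rw [hε]; field_simp
  set w0 : ℝ := min a δ with hw0
  have hw1 : 0 < w0 := lt_min ha0 hδ0
  have hw2 : w0 ≤ a := min_le_left _ _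
  have hw3 : w0 ≤ δ := min_le_right _ _
  set A : ℕ → ℝ := fun i => a + i * ε with hA
  have hA0 : ∀ i, 0 < A i := fun i => by
    show 0 < a + i * ε
    positivity
  have hAs : ∀ i, A i < A (i + 1) := fun i => by
    show a + i * ε < a + ((i + 1 : ℕ) : ℝ) * ε
    push_cast
    nlinarith
  have hAm : Monotone A := monotone_nat_of_le_succ fun i => (hAs i).le
  have hAj : ∀ i, i ≤ j → A i ≤ β0 := by
    intro i hi
    refine (hAm hi).trans ?_
    show a + j * ε ≤ β0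
    have h1 : (j : ℝ) * ε ≤ ε * j ^ 2 := by nlinarith
    have h2 : min δ β0 ≤ β0 := min_le_right _ _
    linarith
  -- the sums of the exponents
  have hsum1 : 1 / 4 ≤ ∑ i : Fin j, A i := by
    have h1 : ∑ _i : Fin j, a = 1 / 4 := by
      rw [Finset.sum_const, Finset.card_univ, Fintype.card_fin, nsmul_eq_mul, ha]
      field_simp
    rw [← h1]
    refine Finset.sum_le_sum fun i _ => ?_
    show a ≤ a + ((i : ℕ) : ℝ) * ε
    have : 0 ≤ ((i : ℕ) : ℝ) * ε := by positivity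
    linarith
  have hsum2 : ∑ i : Fin j, A (i + 1) + w0 ≤ ξ' := by
    have h1 : ∑ _i : Fin j, (a + j * ε) = 1 / 4 + ε * j ^ 2 := by
      rw [Finset.sum_const, Finset.card_univ, Fintype.card_fin, nsmul_eq_mul, ha]
      field_simp
    have h2 : ∑ i : Fin j, A (i + 1) ≤ ∑ _i : Fin j, (a + j * ε) := by
      refine Finset.sum_le_sum fun i _ => ?_
      exact hAm (Nat.succ_le_of_lt i.2)
    have h3 : min δ β0 ≤ δ := min_le_left _ _
    rw [h1, hεj] at h2
    rw [hδ] at h3 hw3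
    linarith
  refine ⟨(∏ i : Fin j, (A (i + 1) - A i) / (2 * A (i + 1))) * (w0 / 2), ?_, fun D hD => ?_⟩
  · refine mul_pos (Finset.prod_pos fun i _ => ?_) (by linarith)
    exact div_pos (sub_pos.2 (hAs i)) (mul_pos two_pos (hA0 _))
  have e1 : ∀ᶠ N : ℕ in atTop, ∀ i : Fin j, (A (i + 1) - A i) / (2 * A (i + 1)) ≤
      ∑ p ∈ ZLowW D N (A i) (A (i + 1)), 1 / (qq D N p - 1) := by
    rw [eventually_all]
    intro i
    refine ZLow_win _ _ (hA0 _) (hAs _) ?_ D hD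
    have := hAj (i + 1) (Nat.succ_le_of_lt i.2)
    linarith
  have e2 := ZLow_Z D hD w0 hw1 (by linarith) (w0 / 2) (by linarith)
  filter_upwards [e1, e2, eventually_ge_atTop 2] with N h1 h2 hN
  have hN1 : (1 : ℝ) < N := by exact_mod_cast (by omega : 1 < N)
  have hN0 : (0 : ℝ) < N := by linarith
  have hX := XX_pos D N hN
  set WW : Fin j → Finset (Pr D N) := fun i => ZLowW D N (A i) (A (i + 1)) with hWW
  set RR : Finset (Finset (Pr D N)) :=
    univ.filter (fun T => ((MT.val T : ℕ) : ℝ) < (N : ℝ) ^ w0) with hRR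
  set U : Finset ((Fin j → Pr D N) × Finset (Pr D N)) := Fintype.piFinset WW ×ˢ RR with hU
  -- elements of the windows
  have hwin : ∀ u ∈ U, ∀ i : Fin j, (N : ℝ) ^ A i < ((u.1 i : ℕ) : ℝ) ∧
      ((u.1 i : ℕ) : ℝ) ≤ (N : ℝ) ^ A (i + 1) := by
    intro u hu i
    have h3 := Fintype.mem_piFinset.1 (Finset.mem_product.1 hu).1 i
    exact (Finset.mem_filter.1 h3).2
  have hval : ∀ u ∈ U, ((MT.val u.2 : ℕ) : ℝ) < (N : ℝ) ^ w0 := by
    intro u hu
    exact (Finset.mem_filter.1 (Finset.mem_product.1 hu).2).2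
  have hRsmall : ∀ u ∈ U, ∀ x ∈ u.2, ((x : ℕ) : ℝ) < (N : ℝ) ^ a := by
    intro u hu x hx
    have h3 : (x : ℕ) ≤ MT.val u.2 :=
      Nat.le_of_dvd (MT.BOXAux.val_pos _) ((MT.BOXAux.mem_of_dvd u.2 x).2 hx)
    have h4 : ((x : ℕ) : ℝ) ≤ ((MT.val u.2 : ℕ) : ℝ) := by exact_mod_cast h3
    refine h4.trans_lt ((hval u hu).trans_le ?_)
    exact Real.rpow_le_rpow_of_exponent_le hN1.le hw2
  have hsep : ∀ u ∈ U, ∀ v ∈ U, ∀ i i', u.1 i = v.1 i' → i = i' := by
    have key : ∀ u ∈ U, ∀ v ∈ U, ∀ i i' : Fin j, u.1 i = v.1 i' → ¬ (i < i') := by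
      intro u hu v hv i i' h hlt
      have h3 := (hwin u hu i).2
      have h4 := (hwin v hv i').1
      have h5 : (N : ℝ) ^ A (i + 1) ≤ (N : ℝ) ^ A i' :=
        Real.rpow_le_rpow_of_exponent_le hN1.le (hAm (Nat.succ_le_of_lt (Fin.lt_def.1 hlt)))
      rw [h] at h3
      linarith
    intro u hu v hv i i' h
    rcases lt_trichotomy i i' with h3 | h3 | h3
    · exact absurd h3 (key u hu v hv i i' h)
    · exact h3
    · exact absurd h3 (key v hv u hu i' i h.symm)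
  have hinj : ∀ u ∈ U, Function.Injective u.1 := fun u hu i i' h => hsep u hu u hu i i' h
  have hnot : ∀ u ∈ U, ∀ v ∈ U, ∀ i, u.1 i ∉ v.2 := by
    intro u hu v hv i h
    have h3 := hRsmall v hv _ h
    have h4 := (hwin u hu i).1
    have h5 : (N : ℝ) ^ a ≤ (N : ℝ) ^ A i := by
      refine Real.rpow_le_rpow_of_exponent_le hN1.le ?_
      show a ≤ a + ((i : ℕ) : ℝ) * ε
      have : 0 ≤ ((i : ℕ) : ℝ) * ε := by positivity
      linarith
    linarith
  set φ : (Fin j → Pr D N) × Finset (Pr D N) → Finset (Pr D N) := fun u => univ.image u.1 ∪ u.2 with hφ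
  have hφinj : Set.InjOn φ U := by
    intro u hu v hv h
    have hu' : u ∈ U := hu
    have hv' : v ∈ U := hv
    have h3 : u.1 = v.1 := by
      funext i
      have h4 : u.1 i ∈ φ v := by
        rw [← h]
        exact Finset.mem_union_left _ (Finset.mem_image_of_mem _ (Finset.mem_univ i))
      rcases Finset.mem_union.1 h4 with h5 | h5
      · obtain ⟨i', -, h6⟩ := Finset.mem_image.1 h5
        have h7 := hsep v hv' u hu' i' i h6
        rw [← h6, h7]
      · exact absurd h5 (hnot u hu' v hv' i)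
    have key : ∀ u ∈ U, ∀ v ∈ U, φ u = φ v → u.2 ⊆ v.2 := by
      intro u hu v hv h x hx
      have h4 : x ∈ φ v := by
        rw [← h]
        exact Finset.mem_union_right _ hx
      rcases Finset.mem_union.1 h4 with h5 | h5
      · obtain ⟨i', -, h6⟩ := Finset.mem_image.1 h5
        rw [← h6] at hx
        exact absurd hx (hnot v hv u hu i')
      · exact h5
    exact Prod.ext h3 (Finset.Subset.antisymm (key u hu' v hv' h) (key v hv' u hu' h.symm))
  -- weights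
  have hw : ∀ u ∈ U, ∏ p ∈ φ u, 1 / (qq D N p - 1) =
      (∏ i, 1 / (qq D N (u.1 i) - 1)) * ∏ p ∈ u.2, 1 / (qq D N p - 1) := fun u hu =>
    ZLow_prod u.1 u.2 (hinj u hu) (fun i => hnot u hu u hu i)
      (fun p => 1 / (qq D N p - 1))
  have hv : ∀ u ∈ U, MT.val (φ u) = (∏ i, ((u.1 i : ℕ))) * MT.val u.2 := fun u hu =>
    ZLow_prod u.1 u.2 (hinj u hu) (fun i => hnot u hu u hu i) (fun p : Pr D N => (p : ℕ))
  -- the image lies in the family
  have hsub : U.image φ ⊆ univ.filter (fun T : Finset (Pr D N) =>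
      ((N : ℝ) ^ (1 / 4 : ℝ) ≤ ((MT.val T : ℕ) : ℝ) ∧
        ((MT.val T : ℕ) : ℝ) < (N : ℝ) ^ ξ' ∧ ∀ p : ℕ, p.Prime → p ∣ MT.val T → (p : ℝ) ≤ (N : ℝ) ^ β)) := by
    intro T hT
    obtain ⟨u, hu, rfl⟩ := Finset.mem_image.1 hT
    refine Finset.mem_filter.2 ⟨Finset.mem_univ _, ?_, ?_, ?_⟩
    · rw [hv u hu]
      push_cast
      have h3 : (1 : ℝ) ≤ ((MT.val u.2 : ℕ) : ℝ) := by exact_mod_cast MT.BOXAux.val_pos u.2
      have h4 : (N : ℝ) ^ (1 / 4 : ℝ) ≤ ∏ i, ((u.1 i : ℕ) : ℝ) := by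
        calc (N : ℝ) ^ (1 / 4 : ℝ) ≤ (N : ℝ) ^ (∑ i : Fin j, A i) :=
              Real.rpow_le_rpow_of_exponent_le hN1.le hsum1
          _ = ∏ i : Fin j, (N : ℝ) ^ A i := Real.rpow_sum_of_pos hN0 _ _
          _ ≤ ∏ i, ((u.1 i : ℕ) : ℝ) :=
              Finset.prod_le_prod (fun i _ => by positivity) fun i _ => (hwin u hu i).1.le
      calc (N : ℝ) ^ (1 / 4 : ℝ) ≤ ∏ i, ((u.1 i : ℕ) : ℝ) := h4
        _ = (∏ i, ((u.1 i : ℕ) : ℝ)) * 1 := (mul_one _).symm
        _ ≤ _ := mul_le_mul_of_nonneg_left h3 (Finset.prod_nonneg fun i _ => Nat.cast_nonneg _)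
    · rw [hv u hu]
      push_cast
      have h3 := hval u hu
      have h4 : ∏ i, ((u.1 i : ℕ) : ℝ) ≤ (N : ℝ) ^ (∑ i : Fin j, A (i + 1)) := by
        rw [Real.rpow_sum_of_pos hN0]
        exact Finset.prod_le_prod (fun i _ => Nat.cast_nonneg _) fun i _ => (hwin u hu i).2
      calc (∏ i, ((u.1 i : ℕ) : ℝ)) * ((MT.val u.2 : ℕ) : ℝ)
          ≤ (N : ℝ) ^ (∑ i : Fin j, A (i + 1)) * ((MT.val u.2 : ℕ) : ℝ) :=
            mul_le_mul_of_nonneg_right h4 (Nat.cast_nonneg _)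
        _ < (N : ℝ) ^ (∑ i : Fin j, A (i + 1)) * (N : ℝ) ^ w0 :=
            mul_lt_mul_of_pos_left h3 (by positivity)
        _ = (N : ℝ) ^ (∑ i : Fin j, A (i + 1) + w0) := (Real.rpow_add hN0 _ _).symm
        _ ≤ (N : ℝ) ^ ξ' := Real.rpow_le_rpow_of_exponent_le hN1.le hsum2
    · intro p hp hpv
      have h3 : ∃ x ∈ φ u, p = ((x : Pr D N) : ℕ) := by
        unfold MT.val at hpv
        rw [Prime.dvd_finsetProd_iff hp.prime] at hpv
        obtain ⟨r, hr, hd⟩ := hpv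
        exact ⟨r, hr, (Nat.prime_dvd_prime_iff_eq hp (MT.BOXAux.prime r).1).mp hd⟩
      obtain ⟨x, hx, rfl⟩ := h3
      rcases Finset.mem_union.1 hx with h5 | h5
      · obtain ⟨i', -, rfl⟩ := Finset.mem_image.1 h5
        refine (hwin u hu i').2.trans (Real.rpow_le_rpow_of_exponent_le hN1.le ?_)
        exact (hAj (i' + 1) (Nat.succ_le_of_lt i'.2)).trans hβ2
      · refine (hRsmall u hu x h5).le.trans (Real.rpow_le_rpow_of_exponent_le hN1.le ?_)
        linarith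
  -- the sum
  calc ((∏ i : Fin j, (A (i + 1) - A i) / (2 * A (i + 1))) * (w0 / 2)) * XX D N
      = (∏ i : Fin j, (A (i + 1) - A i) / (2 * A (i + 1))) * ((w0 - w0 / 2) * XX D N) := by ring
    _ ≤ (∏ i : Fin j, ∑ p ∈ WW i, 1 / (qq D N p - 1)) * ∑ T ∈ RR, ∏ p ∈ T, 1 / (qq D N p - 1) := by
        have h3 : ∀ i : Fin j, 0 ≤ (A (i + 1) - A i) / (2 * A (i + 1)) := fun i =>
          (div_pos (sub_pos.2 (hAs i)) (mul_pos two_pos (hA0 _))).le
        refine mul_le_mul (Finset.prod_le_prod (fun i _ => h3 i) fun i _ => h1 i) h2 ?_ ?_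
        · exact mul_nonneg (by linarith) hX.le
        · exact Finset.prod_nonneg fun i _ => (h3 i).trans (h1 i)
    _ = ∑ u ∈ U, (∏ i, 1 / (qq D N (u.1 i) - 1)) * ∏ p ∈ u.2, 1 / (qq D N p - 1) := by
        rw [Finset.prod_univ_sum, Finset.sum_mul_sum, hU, Finset.sum_product]
    _ = ∑ u ∈ U, ∏ p ∈ φ u, 1 / (qq D N p - 1) := Finset.sum_congr rfl fun u hu => (hw u hu).symm
    _ = ∑ T ∈ U.image φ, ∏ p ∈ T, 1 / (qq D N p - 1) := by
        rw [Finset.sum_image hφinj]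
    _ ≤ _ := Finset.sum_le_sum_of_subset_of_nonneg hsub fun T _ _ => ZLow_wpos hD T

theorem zf_low (ξ' β : ℝ) (hξ' : 1 / 4 < ξ') (hβ : 0 < β) :
    ∃ η : ℝ, 0 < η ∧ ∀ ξ : ℝ, 0 < ξ → ξ ≤ 1 / 4 → ∀ D : ℕ, 2 ≤ D →
      ∀ᶠ N : ℕ in atTop, (ξ + η) * XX D N ≤ ZF (qq D N) (FS ξ ξ' β) := by
  classical
  obtain ⟨P, hP, h⟩ := ZLow_B ξ' β hξ' hβ
  refine ⟨P / 2, by linarith, fun ξ hξ hξ4 D hD => ?_⟩
  filter_upwards [h D hD, ZLow_Z D hD ξ hξ (by linarith) (P / 2) (by linarith), eventually_ge_atTop 2]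
    with N h1 h2 hN
  have hN1 : (1 : ℝ) < N := by exact_mod_cast (by omega : 1 < N)
  have h3 : (ξ + P / 2) * XX D N = (ξ - P / 2) * XX D N + P * XX D N := by ring
  rw [h3]
  refine (add_le_add h2 h1).trans ?_
  rw [← Finset.sum_union]
  · unfold ZF
    refine Finset.sum_le_sum_of_subset_of_nonneg ?_ fun T _ _ => ZLow_wpos hD T
    intro T hT
    refine Finset.mem_filter.2 ⟨Finset.mem_univ _, ?_⟩
    rcases Finset.mem_union.1 hT with h4 | h4
    · exact Or.inl (Finset.mem_filter.1 h4).2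
    · exact Or.inr (Finset.mem_filter.1 h4).2.2
  · rw [Finset.disjoint_left]
    intro T hT hT'
    have h4 := (Finset.mem_filter.1 hT).2
    have h5 := (Finset.mem_filter.1 hT').2.1
    have h6 : (N : ℝ) ^ ξ ≤ (N : ℝ) ^ (1 / 4 : ℝ) := Real.rpow_le_rpow_of_exponent_le hN1.le hξ4
    linarith

end Pool.Agent.SL
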