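import Pool.Agent.SL4.FinF
import Pool.Agent.SL4.EhP
import Pool.Agent.SL4.ZLow
import Pool.Agent.SL.EveryG
import Pool.Agent.SL.Fun
import Pool.Agent.SL.BwE

/-! SLOPES (helper64): MORE THAN A QUARTER of the pairs of linear forms can be excluded, unconditionally (the proportion
of the family is `> 1/4`); in particular FOUR groups of linear forms.  Compare SL/Dhl5.lean (helper64), SL/Quarter.lean
(helper84). -/

set_option autoImplicit false

namespace Pool.Agent.SL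

open Finset Filter Topology Pool.Agent.MT Pool.Agent.BGG

/-- number of pairs of different forms in the same group -/
theorem prs_cardG (G k : ℕ) (grp : Fin k → Fin G) (hg : ∀ g, G * (univ.filter fun i => grp i = g).card ≤ k) :
    (G : ℝ) * ((prs grp).card : ℝ) ≤ (k : ℝ) ^ 2 := by
  classical
  have h1 : (prs grp).card ≤ ∑ i : Fin k, (univ.filter fun j => grp j = grp i).card := by
    have h2 : prs grp ⊆ ((univ : Finset (Fin k)).sigma (fun i => univ.filter fun j => grp j = grp i)).image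
        (fun x => ((x.1, x.2) : Fin k × Fin k)) := by
      intro x hx
      have hx' := (Finset.mem_filter.1 hx).2
      rw [Finset.mem_image]
      exact ⟨⟨x.1, x.2⟩, Finset.mem_sigma.2 ⟨Finset.mem_univ _, Finset.mem_filter.2
        ⟨Finset.mem_univ _, hx'.2.symm⟩⟩, rfl⟩
    refine (Finset.card_le_card h2).trans ?_
    refine Finset.card_image_le.trans ?_
    rw [Finset.card_sigma]
  have h3 : G * (prs grp).card ≤ k * k := by
    calc G * (prs grp).card ≤ G * ∑ i : Fin k, (univ.filter fun j => grp j = grp i).card :=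
          Nat.mul_le_mul_left _ h1
      _ = ∑ i : Fin k, G * (univ.filter fun j => grp j = grp i).card := Finset.mul_sum _ _ _
      _ ≤ ∑ _i : Fin k, k := Finset.sum_le_sum fun i _ => hg (grp i)
      _ = k * k := by rw [Finset.sum_const, Finset.card_univ, Fintype.card_fin, smul_eq_mul]
  have h4 : ((G * (prs grp).card : ℕ) : ℝ) ≤ ((k * k : ℕ) : ℝ) := by exact_mod_cast h3
  push_cast at h4
  nlinarith

/-- **more than a quarter of the pairs can be excluded**: there is `c > 1/4` such that for `k` large, for every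
admissible system of `k` linear forms (pairwise not proportional) and every set `G` of at most `c k²` ordered pairs, two
forms `i ≠ j` with `(i, j) ∉ G` are simultaneously prime infinitely often -/
theorem quarterP : ∃ c : ℝ, 1 / 4 < c ∧ ∃ k0 : ℕ, ∀ k ≥ k0, ∀ s h : Fin k → ℕ, (∀ i, 0 < s i) →
    (∀ i j, i ≠ j → s i * h j ≠ s j * h i) → Adm s h → ∀ G : Finset (Fin k × Fin k),
      (G.card : ℝ) ≤ c * (k : ℝ) ^ 2 →
      ∀ x : ℕ, ∃ n ≥ x, ∃ i j, i ≠ j ∧ (i, j) ∉ G ∧ (s i * n + h i).Prime ∧ (s j * n + h j).Prime := by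
  classical
  obtain ⟨η', hη'0, hη'⟩ := zf_low (1 / 4 + 1 / 2000) (1 / 2000) (by norm_num) (by norm_num)
  set η : ℝ := min η' (1 / 10) with hη
  have hη0 : 0 < η := lt_min hη'0 (by norm_num)
  have hη1 : η ≤ 1 / 10 := min_le_right _ _
  have hηη' : η ≤ η' := min_le_left _ _
  set ξ : ℝ := 1 / 4 - η / 2 with hξ
  set θ : ℝ := min (1 / 10000) (η / 4) with hθd
  have hθ0 : 0 < θ := lt_min (by norm_num) (by linarith)
  have hθ1 : θ ≤ 1 / 10000 := min_le_left _ _
  have hθ2 : θ ≤ η / 4 := min_le_right _ _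
  set ζ : ℝ := 1 / 4 + η / 2 with hζ
  have hζ0 : 0 < ζ := by linarith
  obtain ⟨k0, hk0⟩ := fun_main θ (η / 8) (8 / η) hθ0 (by linarith) (by linarith) (by linarith)
  refine ⟨1 / 4 + η / 8, by linarith, k0 + 1, ?_⟩
  intro k hk s h hs hdet hadm G hG
  have hkk0 : k0 ≤ k := by omega
  have hk1 : 1 ≤ k := by omega
  obtain ⟨M, Y, p, I0, hM, hY, hY0, hYθ, hI0, hp, hμ, h1, h2, h3⟩ := hk0 k hkk0
  have hMR : (0 : ℝ) < M := by exact_mod_cast hM
  have hkR : (1 : ℝ) ≤ k := by exact_mod_cast hk1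
  set κ : ℝ := k * p with hκ
  have hκ0 : 0 < κ := lt_of_lt_of_le (by positivity) hμ
  set lm : ℝ := 1 / κ with hlm
  have hlm0 : 0 < lm := by rw [hlm]; positivity
  have hlmκ : lm * κ = 1 := by rw [hlm]; field_simp
  have hlm1 : lm ≤ η / 8 := by
    rw [hlm, div_le_div_iff₀ hκ0 (by norm_num)]
    rw [div_le_iff₀ hη0] at hμ
    linarith
  refine discrete_pairsF s h G ⟨hs, hdet⟩ hadm M hM 1 θ Y hY hY0 hYθ (by linarith) lm hlm0 ξ (1 / 4 + 1 / 2000)
    (1 / 2000) ζ (by linarith) (by norm_num) hζ0 ?_ ?_ ?_ ?_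
  · intro D hD
    filter_upwards [hη' ξ (by linarith) (by linarith) D hD, eventually_ge_atTop 2] with N hN hN2
    have hX := XX_pos D N hN2
    refine le_trans ?_ hN
    refine mul_le_mul_of_nonneg_right ?_ hX.le
    rw [hζ, hξ]
    linarith
  · -- the inequality
    set A2 : ℝ := ∑ m, T2 M (fun _ => 1 / (M : ℝ)) m Y Y with hA2
    have hA2l : (1 - η / 8) * κ * I0 ≤ A2 := by
      have h5 := Finset.sum_le_sum fun m (_ : m ∈ (univ : Finset (Fin k))) => h2 m
      rw [Finset.sum_const, Finset.card_univ, Fintype.card_fin, nsmul_eq_mul] at h5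
      rw [hκ]
      linarith
    have hcard : ((offP G).card : ℝ) ≤ (1 / 4 + η / 8) * (k : ℝ) ^ 2 := by
      refine le_trans ?_ hG
      exact_mod_cast Finset.card_le_card (Finset.filter_subset _ _)
    have hr : (1 / 4 + η / 8) / ζ ≤ 1 - η := by
      rw [div_le_iff₀ hζ0, hζ]
      nlinarith only [hη0, hη1]
    have hA3 : ∑ x ∈ offP G, T3 M (fun _ => 1 / (M : ℝ)) x.1 x.2 Y / ζ ≤ (1 - η) * (κ ^ 2 * I0) := by
      have h5 : ∑ x ∈ offP G, T3 M (fun _ => 1 / (M : ℝ)) x.1 x.2 Y / ζ ≤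
          ∑ _x ∈ offP G, p ^ 2 * I0 / ζ := by
        refine Finset.sum_le_sum fun x hx => ?_
        exact div_le_div_of_nonneg_right (h3 x.1 x.2 (Finset.mem_filter.1 hx).2) hζ0.le
      rw [Finset.sum_const, nsmul_eq_mul] at h5
      refine h5.trans ?_
      have h7 : 0 ≤ p ^ 2 * I0 / ζ := by positivity
      refine (mul_le_mul_of_nonneg_right hcard h7).trans ?_
      have h8 := mul_le_mul_of_nonneg_right hr (show 0 ≤ κ ^ 2 * I0 by positivity)
      refine le_trans (le_of_eq ?_) h8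
      rw [hκ]
      ring
    have h5 : 0 ≤ 2 * lm - lm ^ 2 := by nlinarith only [hlm0, hlm1, hη1]
    have h6 := mul_le_mul_of_nonneg_left hA2l h5
    have h7 := mul_le_mul_of_nonneg_left hA3 (sq_nonneg lm)
    have e1 : T1 M (fun _ => 1 / (M : ℝ)) Y - 2 * lm * A2 + lm ^ 2 * (A2 +
        ∑ x ∈ offP G, T3 M (fun _ => 1 / (M : ℝ)) x.1 x.2 Y / ζ) ≤
        I0 - (2 * lm - lm ^ 2) * ((1 - η / 8) * κ * I0) + lm ^ 2 * ((1 - η) * (κ ^ 2 * I0)) := by
      linarith only [h6, h7, h1]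
    refine e1.trans_lt ?_
    have e2 : I0 - (2 * lm - lm ^ 2) * ((1 - η / 8) * κ * I0) + lm ^ 2 * ((1 - η) * (κ ^ 2 * I0)) =
        I0 * (1 - 2 * (1 - η / 8) * (lm * κ) + (1 - η / 8) * lm * (lm * κ) + (1 - η) * (lm * κ) ^ 2) := by
      ring
    rw [e2, hlmκ]
    have e4 : (1 - η / 8) * lm ≤ η / 8 := by nlinarith only [hlm0, hlm1, hη0]
    have e5 : (1 - 2 * (1 - η / 8) * 1 + (1 - η / 8) * lm * 1 + (1 - η) * 1 ^ 2) < 0 := by
      linarith
    exact mul_neg_of_pos_of_neg hI0 e5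
  · intro D b hL hG m t ht t' ht'
    obtain ⟨v, ⟨_, hv⟩, rfl⟩ := mem_boxes.1 ht
    obtain ⟨v', ⟨_, hv'⟩, rfl⟩ := mem_boxes.1 ht'
    refine EH_of_BV (fun θ _ h => Pool.Agent.BGV.bv θ h) s h D b hL hG m _ _ (fun i => by positivity)
      (fun i => by positivity) ?_
    have := hYθ v hv
    have := hYθ v' hv'
    linarith
  · intro D b hL hG l m _
    exact ehp4 s h hs D b hL hG l m ξ θ (by linarith) hθ0.le hθ1 (by linarith)

/-- **four groups** -/
theorem dhl4 : ∃ k : ℕ, 1 ≤ k ∧ 4 ∣ k ∧ DHLG 4 k := by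
  obtain ⟨c, hc, k0, h0⟩ := quarterP
  refine ⟨4 * (k0 + 1), by omega, Dvd.intro _ rfl, ?_⟩
  intro s h grp hg hs hdet hadm x
  have h1 := prs_cardG 4 (4 * (k0 + 1)) grp hg
  have h2 : ((prs grp).card : ℝ) ≤ c * ((4 * (k0 + 1) : ℕ) : ℝ) ^ 2 := by
    have h3 : (1 / 4 : ℝ) * ((4 * (k0 + 1) : ℕ) : ℝ) ^ 2 ≤ c * ((4 * (k0 + 1) : ℕ) : ℝ) ^ 2 :=
      mul_le_mul_of_nonneg_right hc.le (by positivity)
    have h4 : ((4 : ℕ) : ℝ) = 4 := by norm_num
    rw [h4] at h1
    linarith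
  obtain ⟨n, hn, i, j, hij, hG, hi, hj⟩ := h0 _ (by omega) s h hs hdet hadm (prs grp) h2 x
  refine ⟨n, hn, i, j, ?_, hi, hj⟩
  intro hgrp
  exact hG (Finset.mem_filter.2 ⟨Finset.mem_univ _, hij, hgrp⟩)

end Pool.Agent.SL
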