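import Pool.Agent.SL4.Defs
import Pool.Agent.SL.S3Alg

/-! SLOPES, four groups (helper64): the quadratic form for two primes with the family `F` (copy of SL/S3Alg.lean). -/

set_option autoImplicit false

namespace Pool.Agent.SL

open Finset Pool.Agent.MT

variable {ι : Type} [Fintype ι] [DecidableEq ι] {k : ℕ}

private theorem algF_Q1 (l m : Fin k) (q : ι → ℝ) (c c' : ι → Col k) (T T' : Finset ι) :
    ∏ p, Q1 l m (q p) (c p, decide (p ∈ T)) (c' p, decide (p ∈ T')) =
      (∏ p, P0 l m (q p) (c p) (c' p)) * (if T = T' then ∏ p ∈ T, 1 / (q p - 1) else 0) := by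
  unfold Q1
  rw [Finset.prod_mul_distrib]
  congr 1
  by_cases h : T = T'
  · subst h
    rw [if_pos rfl]
    simp only [if_true]
    rw [← Finset.prod_filter_mul_prod_filter_not univ (fun p => p ∈ T)]
    have h1 : ∏ p ∈ univ.filter (fun p => p ∈ T), (if decide (p ∈ T) = true then 1 / (q p - 1) else 1) =
        ∏ p ∈ T, 1 / (q p - 1) := by
      have : univ.filter (fun p => p ∈ T) = T := by ext; simp
      rw [this]
      refine Finset.prod_congr rfl fun p hp => ?_
      simp [hp]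
    have h2 : ∏ p ∈ univ.filter (fun p => ¬ p ∈ T), (if decide (p ∈ T) = true then 1 / (q p - 1) else (1 : ℝ)) =
        1 := by
      refine Finset.prod_eq_one fun p hp => ?_
      simp [(Finset.mem_filter.1 hp).2]
    rw [h1, h2, mul_one]
  · rw [if_neg h]
    obtain ⟨p, hp⟩ : ∃ p, ¬ (p ∈ T ↔ p ∈ T') := by
      by_contra hc
      push Not at hc
      exact h (Finset.ext hc)
    refine Finset.prod_eq_zero (Finset.mem_univ p) ?_
    rw [if_neg]
    simp only [decide_eq_decide]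
    exact hp

theorem yzF_eq (cl : Finset ι → ℕ) (Y : (Fin k → ℕ) → ℝ) (F : Finset ι → Prop) (c : ι → Col k) (T : Finset ι)
    [Decidable (F T)] :
    yzF cl Y F (fun p => (c p, decide (p ∈ T))) = yy cl Y c * (if F T then 1 else 0) := by
  classical
  unfold yzF
  simp only [SHALG_tset]

private theorem algF_form (l m : Fin k) (q : ι → ℝ) (cl : Finset ι → ℕ) (Y : (Fin k → ℕ) → ℝ)
    (F : Finset ι → Prop) :
    formG (fun p => Q1 l m (q p)) (yzF cl Y F) (yzF cl Y F) =
      form (fun p => P0 l m (q p)) (yy cl Y) (yy cl Y) * ZF q F := by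
  classical
  have hZ : ZF q F = ∑ T : Finset ι,
      ((if F T then 1 else 0) * (if F T then 1 else 0)) * ∏ p ∈ T, 1 / (q p - 1) := by
    unfold ZF
    rw [Finset.sum_filter]
    refine Finset.sum_congr rfl fun T _ => ?_
    by_cases h1 : F T <;> simp [h1]
  rw [hZ]
  unfold formG form
  rw [SHALG_sum]
  rw [Finset.sum_mul]
  refine Finset.sum_congr rfl fun c _ => ?_
  have h1 : ∀ T : Finset ι, ∑ b : ι → Col k × Bool, yzF cl Y F (fun p => (c p, decide (p ∈ T))) * yzF cl Y F b *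
      ∏ p, Q1 l m (q p) (c p, decide (p ∈ T)) (b p) =
      ∑ c' : ι → Col k, (yy cl Y c * yy cl Y c' * ∏ p, P0 l m (q p) (c p) (c' p)) *
        (((if F T then 1 else 0) * (if F T then 1 else 0)) * ∏ p ∈ T, 1 / (q p - 1)) := by
    intro T
    rw [SHALG_sum]
    refine Finset.sum_congr rfl fun c' _ => ?_
    simp only [algF_Q1, yzF_eq]
    rw [Finset.sum_eq_single T]
    · rw [if_pos rfl]; ring
    · intro T' _ hT'
      rw [if_neg (Ne.symm hT')]; ring
    · intro h; exact absurd (Finset.mem_univ T) h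
  simp only [h1]
  rw [Finset.sum_comm, Finset.sum_mul]
  refine Finset.sum_congr rfl fun c' _ => ?_
  rw [Finset.mul_sum]

omit [DecidableEq ι] in
theorem ZF_nonneg (q : ι → ℝ) (hq : ∀ p, 2 ≤ q p) (F : Finset ι → Prop) : 0 ≤ ZF q F := by
  unfold ZF
  refine Finset.sum_nonneg fun T _ => Finset.prod_nonneg fun p _ => ?_
  have := hq p
  exact div_nonneg zero_le_one (by linarith)

omit [DecidableEq ι] in
theorem ZF_le (q : ι → ℝ) (hq : ∀ p, 2 ≤ q p) (F : Finset ι → Prop) : ZF q F ≤ PP q := by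
  classical
  unfold ZF PP
  have h1 : ∏ p, (1 + 1 / (q p - 1)) = ∑ T : Finset ι, ∏ p ∈ T, 1 / (q p - 1) := by
    rw [Finset.prod_one_add]
    rw [Finset.powerset_univ]
  rw [h1]
  refine Finset.sum_le_sum_of_subset_of_nonneg (Finset.filter_subset _ _) fun T _ _ => ?_
  refine Finset.prod_nonneg fun p _ => ?_
  have := hq p
  exact div_nonneg zero_le_one (by linarith)

omit [DecidableEq ι] in
theorem yzF_bd (cl : Finset ι → ℕ) (M : ℕ) (s : ℝ) (Y : (Fin k → ℕ) → ℝ) (hY : Grid M s Y) (F : Finset ι → Prop)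
    (f : ι → Col k × Bool) : |yzF cl Y F f| ≤ s := by
  classical
  unfold yzF
  rw [abs_mul]
  have h1 : |yy cl Y (fun p => (f p).1)| ≤ s := hY.bd _
  have h2 : |(if F (tset f) then (1 : ℝ) else 0)| ≤ 1 := by
    split_ifs <;> simp
  calc _ ≤ s * 1 := mul_le_mul h1 h2 (abs_nonneg _) hY.s_nonneg
    _ = s := mul_one s

theorem alg_twoF (l m : Fin k) (hlm : l ≠ m) (q : ι → ℝ) (hq : ∀ p, 2 ≤ q p) (cl : Finset ι → ℕ) (M : ℕ) (s : ℝ)
    (Y : (Fin k → ℕ) → ℝ) (hY : Grid M s Y) (F : Finset ι → Prop) :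
    |form (fun p => K2 l (q p)) (lam3F m q cl Y F) (lam3F m q cl Y F) - T3 M (VV q cl) l m Y * ZF q F| ≤
      s * s * (PP q ^ (k + 3) *
        (Real.exp (24 * ((k : ℝ) + 1) ^ 2 * EE q) + Real.exp (2 ^ (k + 2) * EE q) - 2)) := by
  have hk : 2 ≤ k := by
    have h1 := l.2
    have h2 := m.2
    have h3 : (l : ℕ) ≠ m := fun e => hlm (Fin.ext e)
    omega
  have hs := hY.s_nonneg
  have hPP1 : 1 ≤ PP q := PP_ge q hq
  have hEE := EE_nonneg q
  have e0 : form (fun p => K2 l (q p)) (lam3F m q cl Y F) (lam3F m q cl Y F) =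
      formG (fun p => conjG (Em m (q p)) (K2 l (q p))) (yzF cl Y F) (yzF cl Y F) := by
    rw [form_eq]
    exact formG_lamG (fun p => Em m (q p)) (fun p => K2 l (q p)) (yzF cl Y F) (yzF cl Y F)
  rw [e0]
  have h1 := formG_diff (fun p => conjG (Em m (q p)) (K2 l (q p))) (fun p => Q1 (k := k) l m (q p))
    (yzF cl Y F) (yzF cl Y F) s s (yzF_bd cl M s Y hY F) (yzF_bd cl M s Y hY F)
  rw [algF_form] at h1
  have h2 := form_P0 l m hlm q hq cl M s Y hY
  have hw : ∀ p, 0 ≤ 1 / (q p - 1) := fun p => by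
    have := hq p
    exact div_nonneg zero_le_one (by linarith)
  have hkw : ∀ p, 0 ≤ ((k : ℝ) - 2) / (q p - 1) := fun p => by
    have := hq p
    have h1k : (2 : ℝ) ≤ k := by exact_mod_cast hk
    exact div_nonneg (by linarith) (by linarith)
  have hA : ∀ p, 0 ≤ ((1 + 2 / (q p - 1)) ^ 2 + ((k : ℝ) - 2) / (q p - 1)) * (1 + 1 / (q p - 1)) := fun p => by
    have a1 := hw p
    have a2 := hkw p
    have a3 : 0 ≤ (1 + 2 / (q p - 1)) ^ 2 := sq_nonneg _
    exact mul_nonneg (by linarith) (by linarith)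
  have h3 : ∏ p, ((∑ c, ∑ c', |Q1 (k := k) l m (q p) c c'|) +
      ∑ c, ∑ c', |conjG (Em m (q p)) (K2 l (q p)) c c' - Q1 (k := k) l m (q p) c c'|) -
      ∏ p, ∑ c, ∑ c', |Q1 (k := k) l m (q p) c c'| ≤
        PP q ^ (k + 3) * (Real.exp (24 * ((k : ℝ) + 1) ^ 2 * EE q) - 1) := by
    refine le_trans ?_ (err3a q hq k hk)
    simp only [sum_Q1 l m hlm _ (hq _)]
    refine sub_le_sub_right (Finset.prod_le_prod (fun p _ => ?_) fun p _ => ?_) _
    · have := hA p
      have h0 : 0 ≤ ∑ c, ∑ c', |conjG (Em m (q p)) (K2 l (q p)) c c' - Q1 (k := k) l m (q p) c c'| :=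
        Finset.sum_nonneg fun _ _ => Finset.sum_nonneg fun _ _ => abs_nonneg _
      linarith
    · have := sum_conj3 (k := k) l m hlm (q p) (hq p)
      linarith
  have h4 := err3b q hq k hk
  have hZ0 := ZF_nonneg q hq F
  have hZ1 := ZF_le q hq F
  have hexp2 : 0 ≤ Real.exp (2 ^ (k + 2) * EE q) - 1 := by
    have : 0 ≤ 2 ^ (k + 2) * EE q := by positivity
    have := Real.one_le_exp this
    linarith
  have h5 : |form (fun p => P0 l m (q p)) (yy cl Y) (yy cl Y) * ZF q F -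
      T3 M (VV q cl) l m Y * ZF q F| ≤
      s * s * (PP q ^ (k + 3) * (Real.exp (2 ^ (k + 2) * EE q) - 1)) := by
    rw [← sub_mul, abs_mul, abs_of_nonneg hZ0]
    calc _ ≤ (s * s * (PP q ^ (k + 2) * (Real.exp (2 ^ (k + 2) * EE q) - 1))) * PP q := by
          refine mul_le_mul (h2.trans (mul_le_mul_of_nonneg_left h4 (mul_nonneg hs hs))) hZ1 hZ0 ?_
          positivity
      _ = _ := by rw [pow_succ (PP q) (k + 2)]; ring
  have h6 := mul_le_mul_of_nonneg_left h3 (mul_nonneg hs hs)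
  calc _ ≤ |formG (fun p => conjG (Em m (q p)) (K2 l (q p))) (yzF cl Y F) (yzF cl Y F) -
        form (fun p => P0 l m (q p)) (yy cl Y) (yy cl Y) * ZF q F| +
      |form (fun p => P0 l m (q p)) (yy cl Y) (yy cl Y) * ZF q F -
        T3 M (VV q cl) l m Y * ZF q F| := abs_sub_le _ _ _
    _ ≤ _ := add_le_add (h1.trans h6) h5
    _ = _ := by ring

end Pool.Agent.SL
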