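import Pool.Agent.SL4.SecF
import Pool.Agent.SL.S3Asym

/-! SLOPES, four groups (helper64): asymptotic upper bound for two primes (compare SL/S3Asym.lean). -/

set_option autoImplicit false

namespace Pool.Agent.SL

open Finset Filter Topology Pool.Agent.MT

variable {k : ℕ}

theorem PF_lt {N : ℕ} (hN : 1 ≤ N) {m : Fin k} {ξ ξ' β θ : ℝ} (hξ : ξ ≤ 1) (hξ' : ξ' ≤ 1) (hθ : θ ≤ 1)
    (d e : Fin k → ℕ) (hp : ∀ i, 0 < d i ∧ 0 < e i) (hP : PF m ξ ξ' β θ N d e) (i : Fin k) : d i < N ∧ e i < N := by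
  have hNR : (1 : ℝ) ≤ N := by exact_mod_cast hN
  have hb : ∀ u : ℝ, u ≤ 1 → (N : ℝ) ^ u ≤ N := by
    intro u hu
    calc (N : ℝ) ^ u ≤ (N : ℝ) ^ (1 : ℝ) := Real.rpow_le_rpow_of_exponent_le hNR hu
      _ = N := Real.rpow_one _
  have hF : ∀ v : ℕ, Fam N ξ ξ' β v → v < N := by
    intro v hv
    have : (v : ℝ) < N := by
      rcases hv with h | ⟨h, _⟩
      · exact h.trans_le (hb _ hξ)
      · exact h.trans_le (hb _ hξ')
    exact_mod_cast this
  have hG : ∀ f : Fin k → ℕ, (∀ i, 0 < f i) → i ≠ m → ((∏ i ∈ univ.erase m, f i : ℕ) : ℝ) < (N : ℝ) ^ θ → f i < N := by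
    intro f hf him hlt
    have h1 : f i ≤ ∏ j ∈ univ.erase m, f j :=
      Nat.le_of_dvd (Finset.prod_pos fun j _ => hf j)
        (Finset.dvd_prod_of_mem f (Finset.mem_erase.2 ⟨him, Finset.mem_univ i⟩))
    have h2 : (f i : ℝ) < N := by
      have h3 : (f i : ℝ) ≤ ((∏ j ∈ univ.erase m, f j : ℕ) : ℝ) := by exact_mod_cast h1
      exact (h3.trans_lt hlt).trans_le (hb _ hθ)
    exact_mod_cast h2
  obtain ⟨h1, h2, h3, h4⟩ := hP
  by_cases him : i = m
  · subst him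
    exact ⟨hF _ h1, hF _ h2⟩
  · exact ⟨hG d (fun j => (hp j).1) him h3, hG e (fun j => (hp j).2) him h4⟩

theorem T3_nonneg (M : ℕ) (V : ℕ → ℝ) (hV : ∀ j, 0 ≤ V j) (l m : Fin k) (Y : (Fin k → ℕ) → ℝ) (hY : ∀ v, 0 ≤ Y v) :
    0 ≤ T3 M V l m Y := by
  unfold T3
  refine Finset.sum_nonneg fun v _ => Finset.sum_nonneg fun r _ => Finset.sum_nonneg fun r' _ => ?_
  exact mul_nonneg (mul_nonneg (hY _) (hY _)) (mul_nonneg (mul_nonneg (Finset.prod_nonneg fun i _ => hV _)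
    (hV _)) (hV _))

theorem S3_asymF (s h : Fin k → ℕ) (D M b : ℕ) (hD : 2 ≤ D) (hM : 1 ≤ M)
    (hL : Large s h D) (hs : ∀ i, 0 < s i) (l m : Fin k) (hlm : l ≠ m) (r C : ℝ)
    (Y : (Fin k → ℕ) → ℝ) (hY : Grid M r Y) (hYn : ∀ v, 0 ≤ Y v)
    (hC0 : 0 < C) (hC : ∀ N, D < N → PP (qq D N) ≤ C * XX D N)
    (ξ ξ' β θ ζ : ℝ) (hξ : ξ ≤ 1) (hξ' : ξ' ≤ 1) (hθ1 : θ ≤ 1)
    (hθ : ∀ v, Y v ≠ 0 → ∑ i ∈ univ.erase m, ((v i : ℝ) + 1) / M ≤ θ) (hζ : 0 < ζ)
    (hZ : ∀ᶠ N : ℕ in atTop, ζ * XX D N ≤ ZF (qq D N) (FS ξ ξ' β))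
    (hEH : EHP s h (primorial D) b l (PF m ξ ξ' β θ))
    (ε : ℝ) (hε : 0 < ε) :
    ∀ᶠ N : ℕ in atTop, S3 s h b l m (lamY D N M Y) ≤ N / (primorial D : ℕ) * XX D N ^ k * Real.log N ^ 2 *
      (T3 M (fun _ => 1 / (M : ℝ)) l m Y / ζ + E3 k r C D / ζ ^ 2 + ε) := by
  classical
  have hW : (0 : ℝ) < (primorial D : ℕ) := by exact_mod_cast primorial_pos D
  have hφ : (0 : ℝ) < (primorial D).totient := by exact_mod_cast Nat.totient_pos.2 (primorial_pos D)
  have hr : 0 ≤ r := hY.s_nonneg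
  have hMR : (0 : ℝ) < M := by exact_mod_cast hM
  set c : ℝ := ((2 * s m + h m : ℕ) : ℝ) with hc
  have hc1 : 1 ≤ c := by
    have : 1 ≤ 2 * s m + h m := by have := hs m; omega
    rw [hc]
    exact_mod_cast this
  set K : ℝ := r * r * C ^ (2 * (k + 1)) * (primorial D).totient with hK
  have hK0 : 0 ≤ K := by rw [hK]; positivity
  have hXt := XX_tendsto D
  have hE30 : 0 ≤ E3 k r C D := by
    unfold E3
    have d1 : 1 ≤ Real.exp (48 * ((k : ℝ) + 1) ^ 2 / D) := Real.one_le_exp (by positivity)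
    have d2 : 1 ≤ Real.exp (2 ^ (k + 3) / D) := Real.one_le_exp (by positivity)
    have d3 : 0 ≤ Real.exp (48 * ((k : ℝ) + 1) ^ 2 / D) + Real.exp (2 ^ (k + 3) / D) - 2 := by linarith
    positivity
  -- limits
  have t1 := T3_lim D M hD hM l m Y
  have t3 : Tendsto (fun N : ℕ => K / XX D N ^ (k + 3)) atTop (𝓝 0) :=
    Tendsto.const_div_atTop ((tendsto_pow_atTop (by omega)).comp hXt) K
  have t4 : Tendsto (fun N : ℕ => T3 M (fun j => VV (qq D N) (cell M) j / XX D N) l m Y / ζ +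
      (E3 k r C D + K / XX D N ^ (k + 3)) / ζ ^ 2) atTop
      (𝓝 (T3 M (fun _ => 1 / (M : ℝ)) l m Y / ζ + (E3 k r C D + 0) / ζ ^ 2)) :=
    (t1.div_const _).add ((tendsto_const_nhds.add t3).div_const _)
  rw [add_zero] at t4
  have hlim0 : 0 ≤ T3 M (fun _ => 1 / (M : ℝ)) l m Y := T3_nonneg M _ (fun _ => by positivity) l m Y hYn
  set lim : ℝ := T3 M (fun _ => 1 / (M : ℝ)) l m Y / ζ + E3 k r C D / ζ ^ 2 with hlim
  have hlimn : 0 ≤ lim := add_nonneg (div_nonneg hlim0 hζ.le) (div_nonneg hE30 (sq_nonneg _))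
  have hden : 0 < lim + ε := add_pos_of_nonneg_of_pos hlimn hε
  have e1 := t4.eventually_lt_const (show lim < lim + ε / 2 by linarith)
  have hε2 : 0 < ε / 2 / (lim + ε) := div_pos (half_pos hε) hden
  have e2 := log_ratio c hc1 _ hε2
  have e3 := hEH (2 * (k + 1))
  filter_upwards [e1, e2, e3, hZ, eventually_gt_atTop D, eventually_ge_atTop 2] with N h1 h2 h3 h4 hN hN2
  have hN0 : (0 : ℝ) < N := by exact_mod_cast (by omega : 0 < N)
  have hN1 : (1 : ℝ) ≤ N := by exact_mod_cast (by omega : 1 ≤ N)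
  have hlog : 0 < Real.log N := Real.log_pos (by exact_mod_cast hN2)
  have hX := XX_pos D N hN2
  have hXl := XX_le_log D N (by omega)
  have hP := hC N hN
  have hP1 := PP_ge (qq D N) (MT.qq_ge D N hD)
  set X : ℝ := XX D N with hXdef
  set Z : ℝ := ZF (qq D N) (FS ξ ξ' β) with hZdef
  have hZ0 : 0 < Z := lt_of_lt_of_le (mul_pos hζ hX) h4
  set B : ℝ := N / (primorial D : ℕ) * X ^ k with hB
  have hB0 : 0 < B := by rw [hB]; positivity
  have hBφ : 0 < N / ((primorial D).totient : ℝ) := div_pos hN0 hφ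
  -- the sum over one prime
  set x3 := lam3F m (qq D N) (cell M) Y (FS ξ ξ' β) with hx3
  have a1 := S2_errF s h D N b hL l (PF m ξ ξ' β θ N)
    (fun d e hp hP' i => PF_lt (by omega) hξ hξ' hθ1 d e hp hP' i)
    (r * PP (qq D N) ^ (k + 1)) (r * PP (qq D N) ^ (k + 1)) x3 x3
    (lam3F_le D N M hD m r Y hY _) (lam3F_le D N M hD m r Y hY _)
    (fun a a' ha ha' => by
      have g1 := lam3F_supp D N M hN2 hM l m hlm ξ ξ' β θ Y hθ a ha
      have g2 := lam3F_supp D N M hN2 hM l m hlm ξ ξ' β θ Y hθ a' ha'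
      exact ⟨g1.1, g2.1, g1.2, g2.2⟩)
  have a2 := alg_twoF l m hlm (qq D N) (MT.qq_ge D N hD) (cell M) M r Y hY (FS ξ ξ' β)
  rw [T3_scale M _ l m Y _ hX.ne'] at a2
  have hPk : PP (qq D N) ^ (k + 3) ≤ C ^ (k + 3) * X ^ (k + 3) := by
    rw [← mul_pow]; exact pow_le_pow_left₀ (by linarith) hP _
  have a5 : r * r * (PP (qq D N) ^ (k + 3) * (Real.exp (24 * ((k : ℝ) + 1) ^ 2 * EE (qq D N)) +
      Real.exp (2 ^ (k + 2) * EE (qq D N)) - 2)) ≤ X ^ (k + 3) * E3 k r C D := by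
    have c1 := EE_exp D N hD (24 * ((k : ℝ) + 1) ^ 2) (by positivity)
    have c1' := EE_exp D N hD ((2 : ℝ) ^ (k + 2)) (by positivity)
    have c2 : 24 * ((k : ℝ) + 1) ^ 2 * (2 / D) = 48 * ((k : ℝ) + 1) ^ 2 / D := by ring
    have c2' : (2 : ℝ) ^ (k + 2) * (2 / D) = 2 ^ (k + 3) / D := by ring
    rw [c2] at c1
    rw [c2'] at c1'
    have hE := EE_nonneg (qq D N)
    have c3 : 0 ≤ Real.exp (24 * ((k : ℝ) + 1) ^ 2 * EE (qq D N)) + Real.exp (2 ^ (k + 2) * EE (qq D N)) - 2 := by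
      have d1 := Real.add_one_le_exp (24 * ((k : ℝ) + 1) ^ 2 * EE (qq D N))
      have d2 := Real.add_one_le_exp (2 ^ (k + 2) * EE (qq D N))
      have d3 : 0 ≤ 24 * ((k : ℝ) + 1) ^ 2 * EE (qq D N) := by positivity
      have d4 : 0 ≤ 2 ^ (k + 2) * EE (qq D N) := by positivity
      linarith
    unfold E3
    calc _ ≤ r * r * (C ^ (k + 3) * X ^ (k + 3) *
          (Real.exp (48 * ((k : ℝ) + 1) ^ 2 / D) + Real.exp (2 ^ (k + 3) / D) - 2)) := by
          refine mul_le_mul_of_nonneg_left ?_ (by positivity)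
          exact mul_le_mul hPk (by linarith) c3 (by positivity)
      _ = _ := by ring
  have a6 : (r * PP (qq D N) ^ (k + 1)) * (r * PP (qq D N) ^ (k + 1)) *
      SetErr s h (primorial D) b N l (PF m ξ ξ' β θ N) ≤ N / ((primorial D).totient : ℝ) * K := by
    have hP2 : PP (qq D N) ^ (2 * (k + 1)) ≤ C ^ (2 * (k + 1)) * Real.log N ^ (2 * (k + 1)) := by
      rw [← mul_pow]
      exact pow_le_pow_left₀ (by linarith) (hP.trans (mul_le_mul_of_nonneg_left hXl hC0.le)) _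
    calc _ ≤ (r * PP (qq D N) ^ (k + 1)) * (r * PP (qq D N) ^ (k + 1)) * (N / Real.log N ^ (2 * (k + 1))) :=
          mul_le_mul_of_nonneg_left h3 (by positivity)
      _ = r * r * PP (qq D N) ^ (2 * (k + 1)) * (N / Real.log N ^ (2 * (k + 1))) := by ring
      _ ≤ r * r * (C ^ (2 * (k + 1)) * Real.log N ^ (2 * (k + 1))) * (N / Real.log N ^ (2 * (k + 1))) := by
          refine mul_le_mul_of_nonneg_right (mul_le_mul_of_nonneg_left hP2 (by positivity)) (by positivity)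
      _ = (r * r * C ^ (2 * (k + 1))) * N := by field_simp
      _ = _ := by
          rw [hK]
          field_simp
  set T : ℝ := T3 M (fun j => VV (qq D N) (cell M) j / X) l m Y with hT
  have hTn : 0 ≤ T := by
    rw [hT]
    refine T3_nonneg M _ (fun j => div_nonneg ?_ hX.le) l m Y hYn
    unfold VV
    refine Finset.sum_nonneg fun S _ => Finset.prod_nonneg fun p _ => ?_
    have := MT.qq_ge D N hD p
    exact div_nonneg zero_le_one (by linarith)
  have a7 : S2 s h b l x3 x3 ≤ N / ((primorial D).totient : ℝ) * X ^ (k + 3) *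
      (T * (Z / X) + E3 k r C D + K / X ^ (k + 3)) := by
    have b1 := (abs_le.1 a1).2
    have b2 := (abs_le.1 a2).2
    have b3 : N / ((primorial D).totient : ℝ) * form (fun p => K2 l (qq D N p)) x3 x3 ≤
        N / ((primorial D).totient : ℝ) * (X ^ (k + 2) * T * Z + X ^ (k + 3) * E3 k r C D) := by
      refine mul_le_mul_of_nonneg_left ?_ hBφ.le
      linarith
    have b4 : N / ((primorial D).totient : ℝ) * (X ^ (k + 2) * T * Z + X ^ (k + 3) * E3 k r C D) +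
        N / ((primorial D).totient : ℝ) * K = N / ((primorial D).totient : ℝ) * X ^ (k + 3) *
      (T * (Z / X) + E3 k r C D + K / X ^ (k + 3)) := by
      field_simp
      ring
    linarith
  have a8 := S3_leF s h D N M b hN2 hs l m Y (FS ξ ξ' β)
  rw [← hZdef, ← hx3, ← hc] at a8
  have hlogc : 0 ≤ Real.log (c * N) := Real.log_nonneg (hN1.trans (le_mul_of_one_le_left hN0.le hc1))
  -- combine
  set E' : ℝ := E3 k r C D + K / X ^ (k + 3) with hE'
  have hE'0 : 0 ≤ E' := by rw [hE']; positivity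
  have a9 : S3 s h b l m (lamY D N M Y) ≤ Real.log (c * N) * (B * Real.log N) *
      (T / ζ + E' / ζ ^ 2) := by
    have b1 : Z ^ 2 * S3 s h b l m (lamY D N M Y) ≤ Real.log (c * N) *
        (N / ((primorial D).totient : ℝ) * X ^ (k + 3) * (T * (Z / X) + E')) := by
      have e5 : T * (Z / X) + E' = T * (Z / X) + E3 k r C D + K / X ^ (k + 3) := by rw [hE']; ring
      rw [e5]
      exact a8.trans (mul_le_mul_of_nonneg_left a7 hlogc)
    have b2 : N / ((primorial D).totient : ℝ) * X ^ (k + 3) = B * Real.log N * X ^ 2 := by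
      rw [hB, hXdef, ← XX_scale D N k]
      ring
    rw [b2] at b1
    have b3 : S3 s h b l m (lamY D N M Y) ≤ Real.log (c * N) * (B * Real.log N) *
        (T * (X / Z) + E' * (X / Z) ^ 2) := by
      have b4 : Real.log (c * N) * (B * Real.log N) * (T * (X / Z) + E' * (X / Z) ^ 2) =
          (Real.log (c * N) * (B * Real.log N * X ^ 2 * (T * (Z / X) + E'))) / Z ^ 2 := by
        field_simp
      rw [b4, le_div_iff₀ (pow_pos hZ0 2), mul_comm]
      exact b1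
    have b5 : X / Z ≤ 1 / ζ := by
      rw [div_le_div_iff₀ hZ0 hζ]
      linarith
    have b6 : 0 ≤ X / Z := div_nonneg hX.le hZ0.le
    have b7 : (X / Z) ^ 2 ≤ 1 / ζ ^ 2 := by
      calc (X / Z) ^ 2 ≤ (1 / ζ) ^ 2 := pow_le_pow_left₀ b6 b5 2
        _ = 1 / ζ ^ 2 := by rw [div_pow, one_pow]
    refine b3.trans (mul_le_mul_of_nonneg_left ?_ (mul_nonneg hlogc (mul_nonneg hB0.le hlog.le)))
    have c1 := mul_le_mul_of_nonneg_left b5 hTn
    have c2 := mul_le_mul_of_nonneg_left b7 hE'0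
    have c3 : T * (1 / ζ) = T / ζ := by ring
    have c4 : E' * (1 / ζ ^ 2) = E' / ζ ^ 2 := by ring
    rw [← c3, ← c4]
    exact add_le_add c1 c2
  have hFlim : T / ζ + E' / ζ ^ 2 ≤ lim + ε / 2 := h1.le
  have hF0 : 0 ≤ T / ζ + E' / ζ ^ 2 := add_nonneg (div_nonneg hTn hζ.le) (div_nonneg hE'0 (sq_nonneg _))
  have a10 : S3 s h b l m (lamY D N M Y) ≤ (1 + ε / 2 / (lim + ε)) * Real.log N * (B * Real.log N) *
      (T / ζ + E' / ζ ^ 2) := by
    refine a9.trans ?_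
    exact mul_le_mul_of_nonneg_right (mul_le_mul_of_nonneg_right h2 (mul_nonneg hB0.le hlog.le)) hF0
  refine a10.trans ?_
  have b1 : (1 + ε / 2 / (lim + ε)) * (T / ζ + E' / ζ ^ 2) ≤ lim + ε := by
    have b2 : ε / 2 / (lim + ε) * (T / ζ + E' / ζ ^ 2) ≤ ε / 2 := by
      rw [div_mul_eq_mul_div, div_le_iff₀ hden]
      exact mul_le_mul_of_nonneg_left (hFlim.trans (by linarith only [hε])) (half_pos hε).le
    have b3 : (1 + ε / 2 / (lim + ε)) * (T / ζ + E' / ζ ^ 2) =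
        (T / ζ + E' / ζ ^ 2) + ε / 2 / (lim + ε) * (T / ζ + E' / ζ ^ 2) := by ring
    rw [b3]
    linarith only [b2, hFlim]
  calc (1 + ε / 2 / (lim + ε)) * Real.log N * (B * Real.log N) * (T / ζ + E' / ζ ^ 2)
      = B * Real.log N ^ 2 * ((1 + ε / 2 / (lim + ε)) * (T / ζ + E' / ζ ^ 2)) := by ring
    _ ≤ _ := mul_le_mul_of_nonneg_left b1 (mul_nonneg hB0.le (sq_nonneg _))

end Pool.Agent.SL
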