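import Pool.Agent.SL4.Defs
import Pool.Agent.BGG.GFin

/-! Module COLL (SLOPES, four groups, helper64): one integer `a` for all pairs (random colouring of the primes).  Adapt
`vec_le` (BGG/Vec.lean), `fiber_card` (BGG/ToMT.lean) and `GCrt.lean` to linear forms.

`q_i = lcm(d_i, e_i)`, `Q = s_m W ∏ q_i`.  The class `c p mod Q` is determined by the vector `(q_i)` (`s_i` is a unit mod `q_i`), so
`|LamErr y z Q (c p)|` depends only on the vector; at most `4^ω(∏ q_i)` pairs have the same vector.  Colouring `col` of the primes by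
`Fin k` (`Pool.Agent.BGG.col_avg`, factor `k^ω`), `a ≡ s_m b + h_m mod s_m W`, `a ≡ class(col p, p) mod p`
(`Pool.Agent.BGG.crt_exists`; class(i, p) = any solution of `s_i c + s_m h_i - s_i h_m ≡ 0 mod p`): for the vectors compatible with the
colouring `a ≡ c p mod Q`, and such a vector is determined by `Q`. -/

set_option autoImplicit false

namespace Pool.Agent.SL

open Finset Pool.Agent.MT Pool.Agent.BGG

/-- the vector of least common multiples satisfies all conditions, also with respect to `s_m W` -/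
private theorem colL_vec {k : ℕ} {s h : Fin k → ℕ} {D : ℕ} (hL : Large s h D) {m : Fin k}
    {d e : Fin k → ℕ} (hok : OK (primorial D) m d e) :
    VecOK (fun i => if i = m then 1 else 0) m (s m * primorial D) (lcmv d e) ∧
      ∀ i j, ∀ p : ℕ, p.Prime → p ∣ lcmv d e i → ¬ p ∣ s j := by
  obtain ⟨hdm, hem, hd, he, hdW, heW, hde⟩ := hok
  have hcW : ∀ i, (lcmv d e i).Coprime (primorial D) := fun i =>
    Nat.Coprime.coprime_dvd_left (Nat.lcm_dvd_mul _ _)
      (Nat.Coprime.mul_left (cop_prod_one hdW i) (cop_prod_one heW i))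
  have hps : ∀ i j, ∀ p : ℕ, p.Prime → p ∣ lcmv d e i → ¬ p ∣ s j := by
    intro i j p hp hpi
    have hpW : ¬ p ∣ primorial D := by
      intro hpW
      have := Nat.dvd_gcd hpi hpW
      rw [hcW i] at this
      exact hp.one_lt.ne' (Nat.dvd_one.1 this)
    have hpD : D < p := by
      by_contra hle
      exact hpW (hp.dvd_primorial_iff.2 (by omega))
    exact (hL p hp hpD).1 j
  refine ⟨⟨?_, ?_, ?_, ?_, ?_⟩, hps⟩
  · simp [lcmv, hdm, hem]
  · intro i; exact sqf_lcm (sqf_prod_one hd i) (sqf_prod_one he i)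
  · intro i j hij
    have h1 : ((d i).lcm (e i)).Coprime (d j) :=
      Nat.Coprime.coprime_dvd_left (Nat.lcm_dvd_mul _ _)
        (Nat.Coprime.mul_left (sqf_prod_cop hd hij) (hde j i hij.symm).symm)
    have h2 : ((d i).lcm (e i)).Coprime (e j) :=
      Nat.Coprime.coprime_dvd_left (Nat.lcm_dvd_mul _ _)
        (Nat.Coprime.mul_left (hde i j hij) (sqf_prod_cop he hij))
    exact Nat.Coprime.coprime_dvd_right (Nat.lcm_dvd_mul _ _) (Nat.Coprime.mul_right h1 h2)
  · intro i
    refine Nat.Coprime.mul_right ?_ (hcW i)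
    rw [Nat.coprime_iff_gcd_eq_one]
    by_contra hg
    obtain ⟨p, hp, hpg⟩ := Nat.exists_prime_and_dvd hg
    exact hps i m p hp (hpg.trans (Nat.gcd_dvd_left _ _)) (hpg.trans (Nat.gcd_dvd_right _ _))
  · intro i hi p hp _ hdiff
    simp only [if_true, if_neg hi] at hdiff
    have h1 : (p : ℤ) ∣ 1 := by simpa using hdiff
    have h2 : p ∣ 1 := by exact_mod_cast h1
    exact hp.one_lt.ne' (Nat.dvd_one.1 h2)

/-- `LamErr` depends only on the class -/
private theorem colL_lam {y z : ℝ} {r : ℕ} {a c : ℤ} (h : (r : ℤ) ∣ a - c) :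
    LamErr y z r a = LamErr y z r c := by
  unfold LamErr
  congr 1
  apply Finset.sum_congr rfl
  intro n _
  have hiff : ((r : ℤ) ∣ (n : ℤ) - a) ↔ ((r : ℤ) ∣ (n : ℤ) - c) := by
    constructor
    · intro h1
      have := dvd_add h1 h
      simpa using this
    · intro h1
      have := dvd_sub h1 h
      simpa using this
  by_cases hy : y < (n : ℝ)
  · by_cases hd : ((r : ℤ) ∣ (n : ℤ) - a)
    · rw [if_pos ⟨hy, hd⟩, if_pos ⟨hy, hiff.1 hd⟩]
    · rw [if_neg (fun hh => hd hh.2), if_neg (fun hh => hd (hiff.2 hh.2))]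
  · rw [if_neg (fun hh => hy hh.1), if_neg (fun hh => hy hh.1)]

/-- solution of `s v + X ≡ 0 mod p` -/
private theorem colL_sol {p s : ℕ} (hp : p.Prime) (hs : ¬ p ∣ s) (X : ℤ) :
    ∃ v : ℤ, (p : ℤ) ∣ s * v + X := by
  have hc : IsCoprime (s : ℤ) (p : ℤ) := by
    rw [Nat.isCoprime_iff_coprime]
    exact ((Nat.Prime.coprime_iff_not_dvd hp).2 hs).symm
  obtain ⟨u, w, huw⟩ := hc
  refine ⟨-(u * X), ⟨w * X, ?_⟩⟩
  have h1 : u * s = 1 - w * p := by linarith
  calc (s : ℤ) * -(u * X) + X = X - (u * s) * X := by ring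
    _ = X - (1 - w * p) * X := by rw [h1]
    _ = p * (w * X) := by ring

open Classical in
theorem col_sum {k : ℕ} (s h : Fin k → ℕ) (D b : ℕ) (hL : Large s h D) (hG : Good s h D b) (m : Fin k) (y z : ℝ)
    (S : Finset ((Fin k → ℕ) × (Fin k → ℕ))) (hS : ∀ p ∈ S, OK (primorial D) m p.1 p.2)
    (c : (Fin k → ℕ) × (Fin k → ℕ) → ℤ)
    (hc1 : ∀ p ∈ S, IsCoprime (c p) ((s m * primorial D * ∏ i, (p.1 i).lcm (p.2 i) : ℕ) : ℤ))
    (hc2 : ∀ p ∈ S, ((s m * primorial D : ℕ) : ℤ) ∣ c p - (s m * b + h m))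
    (hc3 : ∀ p ∈ S, ∀ i, i ≠ m → (((p.1 i).lcm (p.2 i) : ℕ) : ℤ) ∣ s i * c p + (s m * h i - s i * h m)) :
    ∃ a : ℤ, ∑ p ∈ S, |LamErr y z (s m * primorial D * ∏ i, (p.1 i).lcm (p.2 i)) (c p)| ≤
      ∑ r ∈ S.image (fun p => s m * primorial D * ∏ i, (p.1 i).lcm (p.2 i)),
        (if IsCoprime a (r : ℤ) then ((4 * k : ℕ) : ℝ) ^ r.primeFactors.card * |LamErr y z r a| else 0) := by
  have hk : 1 ≤ k := by have := m.2; omega
  have : NeZero k := ⟨by omega⟩
  set M : ℕ := s m * primorial D with hM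
  have hsm : s m ≠ 0 := by
    intro h0
    obtain ⟨p, hpD, hp⟩ := Nat.exists_infinite_primes (D + 1)
    exact (hL p hp (by omega)).1 m (by rw [h0]; exact dvd_zero p)
  have hM0 : M ≠ 0 := Nat.mul_ne_zero hsm (primorial_pos D).ne'
  have hv : ∀ t ∈ S, VecOK (fun i => if i = m then 1 else 0) m M (lcmv t.1 t.2) :=
    fun t ht => (colL_vec hL (hS t ht)).1
  have hvs : ∀ t ∈ S, ∀ i j, ∀ p : ℕ, p.Prime → p ∣ lcmv t.1 t.2 i → ¬ p ∣ s j :=
    fun t ht => (colL_vec hL (hS t ht)).2
  -- the modulus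
  let R : (Fin k → ℕ) × (Fin k → ℕ) → ℕ := fun t => M * ∏ i, lcmv t.1 t.2 i
  have hRdef : ∀ t, M * ∏ i, (t.1 i).lcm (t.2 i) = R t := fun t => rfl
  -- colour of a prime for a pair
  let as : (Fin k → ℕ) × (Fin k → ℕ) → ℕ → Fin k := fun t p =>
    if hp : ∃ i, p ∣ lcmv t.1 t.2 i then hp.choose else 0
  have has : ∀ t ∈ S, ∀ p : ℕ, p.Prime → ∀ i, p ∣ lcmv t.1 t.2 i → as t p = i := by
    intro t ht p hp i hi
    have hex : ∃ i, p ∣ lcmv t.1 t.2 i := ⟨i, hi⟩
    simp only [as, dif_pos hex]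
    by_contra hne
    have := (hv t ht).cop _ _ hne
    have h1 := Nat.dvd_gcd hex.choose_spec hi
    rw [this] at h1
    exact hp.one_lt.ne' (Nat.dvd_one.1 h1)
  let P : Finset ℕ := S.biUnion (fun t => (∏ i, lcmv t.1 t.2 i).primeFactors)
  have hPP : ∀ p ∈ P, p.Prime ∧ Nat.Coprime p M ∧ ∀ j, ¬ p ∣ s j := by
    intro p hp
    obtain ⟨t, ht, hpt⟩ := Finset.mem_biUnion.1 hp
    obtain ⟨hpp, i, hi⟩ := (vec_primeFactors (hv t ht) p).1 hpt
    exact ⟨hpp, Nat.Coprime.coprime_dvd_left hi ((hv t ht).copW i), fun j => hvs t ht i j p hpp hi⟩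
  obtain ⟨col, hcol0⟩ := col_avg P hk S (fun t => (∏ i, lcmv t.1 t.2 i).primeFactors) as
    (fun t => |LamErr y z (R t) (c t)|)
    (fun t ht => Finset.subset_biUnion_of_mem (fun t : (Fin k → ℕ) × (Fin k → ℕ) =>
      (∏ i, lcmv t.1 t.2 i).primeFactors) ht)
  -- the classes
  let v : ℕ → ℤ := fun p => if hp : ∃ v : ℤ, (p : ℤ) ∣ s (col p) * v + (s m * h (col p) - s (col p) * h m)
    then hp.choose else 0
  have hvp : ∀ p ∈ P, (p : ℤ) ∣ s (col p) * v p + (s m * h (col p) - s (col p) * h m) := by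
    intro p hp
    have hex : ∃ v : ℤ, (p : ℤ) ∣ s (col p) * v + (s m * h (col p) - s (col p) * h m) :=
      colL_sol (hPP p hp).1 ((hPP p hp).2.2 (col p)) _
    simp only [v, dif_pos hex]
    exact hex.choose_spec
  obtain ⟨a, haM, haP⟩ := crt_exists M (s m * b + h m) v P (fun p hp => ⟨(hPP p hp).1, (hPP p hp).2.1⟩)
  refine ⟨a, ?_⟩
  simp only [hRdef]
  obtain ⟨S', hS', hle⟩ : ∃ S' : Finset ((Fin k → ℕ) × (Fin k → ℕ)),
      (∀ t, t ∈ S' ↔ t ∈ S ∧ ∀ p ∈ (∏ i, lcmv t.1 t.2 i).primeFactors, col p = as t p) ∧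
      ∑ t ∈ S, |LamErr y z (R t) (c t)| ≤
        ∑ t ∈ S', (k : ℝ) ^ (∏ i, lcmv t.1 t.2 i).primeFactors.card * |LamErr y z (R t) (c t)| := by
    refine ⟨_, fun t => Finset.mem_filter, ?_⟩
    rw [Finset.sum_filter]
    exact hcol0
  refine hle.trans ?_
  have hsub : ∀ t ∈ S', t ∈ S := fun t ht => ((hS' t).1 ht).1
  have hcol : ∀ t ∈ S', ∀ i, ∀ p : ℕ, p.Prime → p ∣ lcmv t.1 t.2 i → col p = i := by
    intro t ht i p hp hpi
    rw [hS'] at ht
    rw [ht.2 p ((vec_primeFactors (hv t ht.1) p).2 ⟨hp, i, hpi⟩)]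
    exact has t ht.1 p hp i hpi
  -- `a` represents the class of every compatible pair
  have hrep : ∀ t ∈ S', (R t : ℤ) ∣ a - c t := by
    intro t ht
    have htS := hsub t ht
    apply prod_cop_dvd (hv t htS)
    · have h1 := dvd_sub haM (hc2 t htS)
      have e : a - ((s m : ℤ) * b + h m) - (c t - ((s m : ℤ) * b + h m)) = a - c t := by ring
      rw [e] at h1
      exact h1
    · intro i
      by_cases hi : i = m
      · rw [hi, (hv t htS).one]; simp
      · apply sqf_dvd_int ((hv t htS).sqf i)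
        intro p hp hpi
        have hpP : p ∈ P :=
          Finset.mem_biUnion.2 ⟨t, htS, (vec_primeFactors (hv t htS) p).2 ⟨hp, i, hpi⟩⟩
        have h1 := hvp p hpP
        rw [hcol t ht i p hp hpi] at h1
        have h2 : (p : ℤ) ∣ s i * c t + (s m * h i - s i * h m) :=
          (Int.natCast_dvd_natCast.2 hpi).trans (hc3 t htS i hi)
        have h3 : (p : ℤ) ∣ (s i : ℤ) * (v p - c t) := by
          have := dvd_sub h1 h2
          have e : (s i : ℤ) * v p + (s m * h i - s i * h m) - (s i * c t + (s m * h i - s i * h m))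
              = s i * (v p - c t) := by ring
          rwa [e] at this
        have h4 : (p : ℤ) ∣ v p - c t := by
          rcases (Nat.prime_iff_prime_int.1 hp).dvd_or_dvd h3 with h5 | h5
          · exact absurd (Int.natCast_dvd_natCast.1 h5) ((hPP p hpP).2.2 i)
          · exact h5
        have := dvd_add (haP p hpP) h4
        simpa using this
  have hqeq : ∀ t ∈ S', ∀ t' ∈ S', R t = R t' → lcmv t.1 t.2 = lcmv t'.1 t'.2 := by
    have key : ∀ t t', t ∈ S' → t' ∈ S' → ∏ i, lcmv t.1 t.2 i = ∏ i, lcmv t'.1 t'.2 i →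
        ∀ i, lcmv t.1 t.2 i ∣ lcmv t'.1 t'.2 i := by
      intro t t' ht ht' he i
      rw [← Int.natCast_dvd_natCast]
      apply sqf_dvd_int ((hv t (hsub t ht)).sqf i)
      intro p hp hpi
      have h1 : p ∈ (∏ i, lcmv t'.1 t'.2 i).primeFactors := by
        rw [← he]; exact (vec_primeFactors (hv t (hsub t ht)) p).2 ⟨hp, i, hpi⟩
      obtain ⟨_, j, hj⟩ := (vec_primeFactors (hv t' (hsub t' ht')) p).1 h1
      have h2 := hcol t ht i p hp hpi
      have h3 := hcol t' ht' j p hp hj
      have : i = j := by rw [← h2, h3]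
      subst this
      exact Int.natCast_dvd_natCast.2 hj
    intro t ht t' ht' heq
    have heq' : ∏ i, lcmv t.1 t.2 i = ∏ i, lcmv t'.1 t'.2 i :=
      Nat.eq_of_mul_eq_mul_left (Nat.pos_of_ne_zero hM0) heq
    funext i
    exact Nat.dvd_antisymm (key t t' ht ht' heq' i) (key t' t ht' ht heq'.symm i)
  have hω : ∀ t ∈ S, (∏ i, lcmv t.1 t.2 i).primeFactors.card ≤ (R t).primeFactors.card := by
    intro t ht
    apply Finset.card_le_card
    apply Nat.primeFactors_mono (dvd_mul_left _ _)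
    exact mul_ne_zero hM0 (vec_prod_ne_zero (hv t ht))
  have hk1 : (1 : ℝ) ≤ (k : ℝ) := by exact_mod_cast hk
  calc ∑ t ∈ S', (k : ℝ) ^ (∏ i, lcmv t.1 t.2 i).primeFactors.card * |LamErr y z (R t) (c t)|
      ≤ ∑ t ∈ S', (fun r : ℕ => if IsCoprime a (r : ℤ) then
          (k : ℝ) ^ r.primeFactors.card * |LamErr y z r a| else 0) (R t) := by
        apply Finset.sum_le_sum
        intro t ht
        have htS := hsub t ht
        have hcop : IsCoprime a ((R t : ℕ) : ℤ) := by
          obtain ⟨w, hw⟩ := hrep t ht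
          have e : a = c t + (R t : ℤ) * w := by linarith
          rw [e]
          exact (IsCoprime.add_mul_left_left_iff).2 (hc1 t htS)
        show _ ≤ if IsCoprime a ((R t : ℕ) : ℤ) then _ else 0
        rw [if_pos hcop, colL_lam (hrep t ht)]
        exact mul_le_mul_of_nonneg_right (pow_le_pow_right₀ hk1 (hω t htS)) (abs_nonneg _)
    _ = ∑ r ∈ S'.image R, (S'.filter (fun t => R t = r)).card • (if IsCoprime a (r : ℤ) then
          (k : ℝ) ^ r.primeFactors.card * |LamErr y z r a| else 0) :=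
        Finset.sum_comp (fun r : ℕ => if IsCoprime a (r : ℤ) then
          (k : ℝ) ^ r.primeFactors.card * |LamErr y z r a| else 0) R
    _ ≤ ∑ r ∈ S'.image R, (if IsCoprime a (r : ℤ) then
          ((4 * k : ℕ) : ℝ) ^ r.primeFactors.card * |LamErr y z r a| else 0) := by
        apply Finset.sum_le_sum
        intro r hr
        obtain ⟨t0, ht0, rfl⟩ := Finset.mem_image.1 hr
        split_ifs with hcop
        · have hcard : (S'.filter (fun t => R t = R t0)).card ≤ 4 ^ (R t0).primeFactors.card := by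
            calc (S'.filter (fun t => R t = R t0)).card
                ≤ (S'.filter (fun t => lcmv t.1 t.2 = lcmv t0.1 t0.2)).card := by
                  apply Finset.card_le_card
                  intro t ht
                  rw [Finset.mem_filter] at ht ⊢
                  exact ⟨ht.1, hqeq t ht.1 t0 ht0 ht.2⟩
              _ ≤ 4 ^ (∏ i, lcmv t0.1 t0.2 i).primeFactors.card :=
                  fiber_card (hv t0 (hsub t0 ht0)) S'
              _ ≤ _ := Nat.pow_le_pow_right (by norm_num) (hω t0 (hsub t0 ht0))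
          rw [nsmul_eq_mul, ← mul_assoc]
          apply mul_le_mul_of_nonneg_right _ (abs_nonneg _)
          calc ((S'.filter (fun t => R t = R t0)).card : ℝ) * (k : ℝ) ^ (R t0).primeFactors.card
              ≤ ((4 ^ (R t0).primeFactors.card : ℕ) : ℝ) * (k : ℝ) ^ (R t0).primeFactors.card := by
                apply mul_le_mul_of_nonneg_right _ (by positivity)
                exact_mod_cast hcard
            _ = ((4 * k : ℕ) : ℝ) ^ (R t0).primeFactors.card := by push_cast; rw [mul_pow]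
        · simp
    _ ≤ _ := by
        apply Finset.sum_le_sum_of_subset_of_nonneg
        · exact Finset.image_subset_image (fun t ht => hsub t ht)
        · intro r _ _
          split_ifs
          · positivity
          · exact le_rfl

end Pool.Agent.SL
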