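import Pool.Agent.SL.S3Defs
import Pool.Agent.SL.BwDefs

/-! SLOPES, four groups (helper64): the upper bound sieve for two primes `s_l n + h_l`, `s_m n + h_m` with an arbitrary
divisor-closed family of divisors of `s_m n + h_m`: all divisors `< N^ξ` (`ξ` a little below `1/4`) and all
`N^β`-smooth divisors `< N^ξ'` (`ξ' > 1/4`).  The moduli of the main sum over the primes `s_l n + h_l` go a little beyond
`N^(1/2)`; those beyond `N^(1/2-s)` have a large smooth factor (dispersion method, `Pool/Agent/Disp`). -/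

set_option autoImplicit false

namespace Pool.Agent.SL

open Finset Pool.Agent.MT Pool.Agent.BGG

/-! ## the family of divisors -/

/-- `v < N^ξ`, or `v < N^ξ'` and all prime factors of `v` are `≤ N^β` -/
def Fam (N : ℕ) (ξ ξ' β : ℝ) (v : ℕ) : Prop :=
  (v : ℝ) < (N : ℝ) ^ ξ ∨ ((v : ℝ) < (N : ℝ) ^ ξ' ∧ ∀ p : ℕ, p.Prime → p ∣ v → (p : ℝ) ≤ (N : ℝ) ^ β)

/-- the family as a set of sets of primes -/
def FS {D N : ℕ} (ξ ξ' β : ℝ) (T : Finset (Pr D N)) : Prop := Fam N ξ ξ' β (MT.val T)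

section abstr

variable {ι : Type} [Fintype ι] [DecidableEq ι] {k : ℕ}

open Classical in
/-- `y ⊗ z`, `z` = indicator function of `F` -/
noncomputable def yzF (cl : Finset ι → ℕ) (Y : (Fin k → ℕ) → ℝ) (F : Finset ι → Prop) (f : ι → Col k × Bool) : ℝ :=
  yy cl Y (fun p => (f p).1) * (if F (tset f) then 1 else 0)

/-- the weights of the majorant (unnormalised) -/
noncomputable def lam3F (m : Fin k) (q : ι → ℝ) (cl : Finset ι → ℕ) (Y : (Fin k → ℕ) → ℝ) (F : Finset ι → Prop) :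
    (ι → Col k) → ℝ := lamG (fun p => Em m (q p)) (yzF cl Y F)

open Classical in
/-- `Σ_{T ∈ F} ∏_{p ∈ T} 1/(p-1)` -/
noncomputable def ZF (q : ι → ℝ) (F : Finset ι → Prop) : ℝ :=
  ∑ T : Finset ι with F T, ∏ p ∈ T, 1 / (q p - 1)

end abstr

/-! ## sets of pairs of divisor vectors -/

open Classical in
/-- total error over the pairs `(d, e)` with `P d e` -/
noncomputable def SetErr {k : ℕ} (s h : Fin k → ℕ) (W b N : ℕ) (m : Fin k)
    (P : (Fin k → ℕ) → (Fin k → ℕ) → Prop) : ℝ :=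
  ∑ d ∈ grid k N, ∑ e ∈ grid k N, if OK W m d e ∧ P d e then Del s h W b N m d e else 0

/-- equidistribution for the pairs in `P N` -/
def EHP {k : ℕ} (s h : Fin k → ℕ) (W b : ℕ) (m : Fin k) (P : ℕ → (Fin k → ℕ) → (Fin k → ℕ) → Prop) : Prop :=
  ∀ A : ℕ, ∀ᶠ N : ℕ in Filter.atTop, SetErr s h W b N m (P N) ≤ N / Real.log N ^ A

/-- the pairs that occur: `d_m`, `e_m` in the family, the product of the others `< N^θ` -/
def PF {k : ℕ} (m : Fin k) (ξ ξ' β θ : ℝ) (N : ℕ) (d e : Fin k → ℕ) : Prop :=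
  Fam N ξ ξ' β (d m) ∧ Fam N ξ ξ' β (e m) ∧
    ((∏ i ∈ univ.erase m, d i : ℕ) : ℝ) < (N : ℝ) ^ θ ∧ ((∏ i ∈ univ.erase m, e i : ℕ) : ℝ) < (N : ℝ) ^ θ

end Pool.Agent.SL
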