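import Pool.Agent.SL4.Defs
import Pool.Agent.SL.BwDel
import Pool.Agent.BGG.GFin

/-! Module DELL (SLOPES, four groups, helper64): `Del` in terms of `LamErr`, with the class. -/

set_option autoImplicit false

namespace Pool.Agent.SL

open Finset Pool.Agent.MT Pool.Agent.BGG

open Classical in
theorem del_lam {k : ℕ} (s h : Fin k → ℕ) (D b N : ℕ) (hN : 1 ≤ N) (hL : Large s h D) (hG : Good s h D b)
    (m : Fin k) (d e : Fin k → ℕ) (hOK : OK (primorial D) m d e) :
    ∃ c : ℤ, IsCoprime c ((s m * primorial D * ∏ i, (d i).lcm (e i) : ℕ) : ℤ) ∧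
      ((s m * primorial D : ℕ) : ℤ) ∣ c - (s m * b + h m) ∧
      (∀ i, i ≠ m → (((d i).lcm (e i) : ℕ) : ℤ) ∣ s i * c + (s m * h i - s i * h m)) ∧
      Del s h (primorial D) b N m d e ≤
        |LamErr ((s m * N + h m : ℕ) - 1) ((2 * s m * N + h m : ℕ) - 1)
          (s m * primorial D * ∏ i, (d i).lcm (e i)) c| +
        ∑ n ∈ Ico N (2 * N), (if ∀ i, i ≠ m → d i ∣ s i * n + h i ∧ e i ∣ s i * n + h i then
          ppw (s m * n + h m) else 0) := by
  obtain ⟨hdm, hem, hsd, hse, hdW, heW, hde⟩ := hOK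
  set W := primorial D with hW
  have hWpos : 0 < W := primorial_pos D
  set q : Fin k → ℕ := fun i => (d i).lcm (e i) with hq
  have hdvd : ∀ i, d i ∣ ∏ i, d i := fun i => Finset.dvd_prod_of_mem _ (mem_univ i)
  have hevd : ∀ i, e i ∣ ∏ i, e i := fun i => Finset.dvd_prod_of_mem _ (mem_univ i)
  have hd0 : ∀ i, d i ≠ 0 := fun i h0 => hsd.ne_zero (Finset.prod_eq_zero (mem_univ i) h0)
  have he0 : ∀ i, e i ≠ 0 := fun i h0 => hse.ne_zero (Finset.prod_eq_zero (mem_univ i) h0)
  have hqpos : ∀ i, 0 < q i := fun i => Nat.lcm_pos (Nat.pos_of_ne_zero (hd0 i)) (Nat.pos_of_ne_zero (he0 i))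
  have hqm : q m = 1 := by simp [hq, hdm, hem]
  have hqdvd : ∀ i, q i ∣ d i * e i := fun i => Nat.lcm_dvd_mul _ _
  have hqq : ∀ i j, i ≠ j → (q i).Coprime (q j) := by
    intro i j hij
    refine Nat.Coprime.of_dvd (hqdvd i) (hqdvd j) ?_
    refine Nat.Coprime.mul_left (Nat.Coprime.mul_right ?_ ?_) (Nat.Coprime.mul_right ?_ ?_)
    · exact DEL_pair d hsd i j hij
    · exact hde i j hij
    · exact (hde j i hij.symm).symm
    · exact DEL_pair e hse i j hij
  have hqW : ∀ i, (q i).Coprime W := by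
    intro i
    refine Nat.Coprime.of_dvd_left (hqdvd i) ?_
    exact Nat.Coprime.mul_left (Nat.Coprime.of_dvd_left (hdvd i) hdW) (Nat.Coprime.of_dvd_left (hevd i) heW)
  -- primes of `q i` are `> D`
  have hbig : ∀ i p, p.Prime → p ∣ q i → D < p := by
    intro i p hp hpq
    by_contra hle
    push Not at hle
    have h1 := DEL_dvd_prim hp hle
    have h2 := Nat.dvd_gcd hpq h1
    rw [hqW i] at h2
    exact hp.one_lt.ne' (Nat.dvd_one.1 h2)
  have hsq : ∀ i, (s i).Coprime (q i) := by
    intro i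
    by_contra hne
    rw [Nat.Prime.not_coprime_iff_dvd] at hne
    obtain ⟨p, hp, h1, h2⟩ := hne
    exact (hL p hp (hbig i p hp h2)).1 i h1
  have hs0 : 0 < s m := by
    obtain ⟨p, hpD, hp⟩ := Nat.exists_infinite_primes (D + 1)
    rcases Nat.eq_zero_or_pos (s m) with h0 | h0
    · exact absurd (h0 ▸ dvd_zero p) ((hL p hp (by omega)).1 m)
    · exact h0
  obtain ⟨r, hr⟩ := DEL_crt s h q W b hqpos hsq hqq hqW univ
  have hrr := (hr r).2 (Nat.ModEq.refl r)
  set Q := s m * W * ∏ i, q i with hQ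
  refine ⟨((s m * r + h m : ℕ) : ℤ), ?_, ?_, ?_, ?_⟩
  · rw [Nat.isCoprime_iff_coprime]
    by_contra hne
    rw [Nat.Prime.not_coprime_iff_dvd] at hne
    obtain ⟨p, hp, h1, h2⟩ := hne
    have hpW : ¬ p ∣ W := by
      intro h3
      have h4 : (s m * r + h m) ≡ (s m * b + h m) [MOD p] :=
        ((hrr.1.of_dvd h3).mul_left (s m)).add_right (h m)
      have h5 : p ∣ s m * b + h m := (Nat.ModEq.dvd_iff h4 dvd_rfl).1 h1
      have h6 := Nat.dvd_gcd h5 h3
      rw [hG m] at h6
      exact hp.one_lt.ne' (Nat.dvd_one.1 h6)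
    have hpD : D < p := by
      by_contra hle
      push Not at hle
      exact hpW (DEL_dvd_prim hp hle)
    have h3 : p ∣ (s m * W) * ∏ i, q i := h2
    rcases (Nat.Prime.dvd_mul hp).1 h3 with h4 | h4
    · rcases (Nat.Prime.dvd_mul hp).1 h4 with h5 | h5
      · exact (hL p hp hpD).1 m h5
      · exact hpW h5
    · obtain ⟨i, -, hi⟩ := (Prime.dvd_finsetProd_iff hp.prime _).1 h4
      have him : i ≠ m := by
        rintro rfl
        rw [hqm] at hi
        exact hp.one_lt.ne' (Nat.dvd_one.1 hi)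
      have h5 : p ∣ s i * r + h i := hi.trans (hrr.2 i (mem_univ i))
      exact (hL p hp hpD).2 r i m him h5 h1
  · have h1 : ((W : ℕ) : ℤ) ∣ (r : ℤ) - b := by
      have h2 := (Nat.modEq_iff_dvd.1 hrr.1.symm)
      exact h2
    have h3 : ((s m * r + h m : ℕ) : ℤ) - (s m * b + h m) = (s m : ℤ) * ((r : ℤ) - b) := by
      push_cast; ring
    rw [h3, Nat.cast_mul]
    exact mul_dvd_mul_left _ h1
  · intro i _
    have h1 : ((q i : ℕ) : ℤ) ∣ ((s i * r + h i : ℕ) : ℤ) := Int.natCast_dvd_natCast.2 (hrr.2 i (mem_univ i))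
    have h3 : (s i : ℤ) * ((s m * r + h m : ℕ) : ℤ) + (s m * h i - s i * h m) =
        (s m : ℤ) * ((s i * r + h i : ℕ) : ℤ) := by
      push_cast; ring
    rw [h3]
    exact Dvd.dvd.mul_left h1 _
  · -- the sums
    set S : Finset ℕ := (Ico N (2 * N)).filter fun n => n ≡ r [MOD W * ∏ i, q i] with hS
    have hl : ((rng W b N).filter fun n => ∀ i, i ≠ m → d i ∣ s i * n + h i ∧ e i ∣ s i * n + h i) =
        (Ico N (2 * N)).filter fun n => n ≡ r [MOD W * ∏ i, q i] := by
      ext n
      rw [mem_filter, rng, mem_filter, mem_filter, ← hr n]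
      constructor
      · rintro ⟨⟨h1, h2⟩, h3⟩
        refine ⟨h1, h2, fun i _ => ?_⟩
        by_cases him : i = m
        · rw [him, hqm]; exact one_dvd _
        · exact Nat.lcm_dvd (h3 i him).1 (h3 i him).2
      · rintro ⟨h1, h2, h3⟩
        refine ⟨⟨h1, h2⟩, fun i _ => ?_⟩
        have h4 := h3 i (mem_univ i)
        exact ⟨(Nat.dvd_lcm_left _ _).trans h4, (Nat.dvd_lcm_right _ _).trans h4⟩
    have hZ : ⌊((2 * s m * N + h m : ℕ) : ℝ) - 1⌋₊ = 2 * s m * N + h m - 1 := by
      have h1 : 1 ≤ 2 * s m * N + h m := by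
        have : 1 ≤ s m * N := Nat.mul_pos hs0 hN
        nlinarith
      have h2 : ((2 * s m * N + h m : ℕ) : ℝ) - 1 = ((2 * s m * N + h m - 1 : ℕ) : ℝ) := by
        rw [Nat.cast_sub h1, Nat.cast_one]
      rw [h2, Nat.floor_natCast]
    have himg : ((Icc 1 (2 * s m * N + h m - 1)).filter fun P : ℕ =>
        ((s m * N + h m : ℕ) : ℝ) - 1 < (P : ℝ) ∧ ((Q : ℕ) : ℤ) ∣ (P : ℤ) - ((s m * r + h m : ℕ) : ℤ)) =
        ((Ico N (2 * N)).filter fun n => n ≡ r [MOD W * ∏ i, q i]).image fun n => s m * n + h m := by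
      ext P
      rw [mem_filter, mem_image, mem_Icc]
      constructor
      · rintro ⟨⟨h1, h2⟩, h3, h4⟩
        have h5 : s m * N + h m ≤ P := by
          have h6 : ((s m * N + h m : ℕ) : ℝ) < ((P + 1 : ℕ) : ℝ) := by push_cast at h3 ⊢; linarith
          have h7 : s m * N + h m < P + 1 := by exact_mod_cast h6
          omega
        have h6 : (s m : ℤ) ∣ (P : ℤ) - h m := by
          have h7 : (s m : ℤ) ∣ ((Q : ℕ) : ℤ) := by
            rw [hQ, mul_assoc, Nat.cast_mul]
            exact dvd_mul_right _ _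
          have h8 := h7.trans h4
          have h9 : (P : ℤ) - h m = ((P : ℤ) - ((s m * r + h m : ℕ) : ℤ)) + s m * r := by push_cast; ring
          rw [h9]
          exact dvd_add h8 (Dvd.intro _ rfl)
        obtain ⟨n, hn⟩ := h6
        have hs0' : (0 : ℤ) < s m := by exact_mod_cast hs0
        have hNn : (N : ℤ) ≤ n := by
          have h7 : (s m : ℤ) * N ≤ s m * n := by
            rw [← hn]
            have : ((s m * N + h m : ℕ) : ℤ) ≤ P := by exact_mod_cast h5
            push_cast at this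
            linarith
          exact le_of_mul_le_mul_left h7 hs0'
        obtain ⟨n', rfl⟩ := Int.eq_ofNat_of_zero_le (le_trans (Int.natCast_nonneg N) hNn)
        have hP : s m * n' + h m = P := by
          have : (P : ℤ) = ((s m * n' + h m : ℕ) : ℤ) := by push_cast; linarith
          exact_mod_cast this.symm
        refine ⟨n', ?_, hP⟩
        rw [mem_filter, mem_Ico]
        refine ⟨⟨by exact_mod_cast hNn, ?_⟩, ?_⟩
        · have h7 : s m * n' < s m * (2 * N) := by
            have h8 : 1 ≤ 2 * s m * N + h m := by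
              have : 1 ≤ s m * N := Nat.mul_pos hs0 hN
              nlinarith
            have h9 : s m * (2 * N) = 2 * s m * N := by ring
            rw [h9]
            omega
          exact lt_of_mul_lt_mul_left h7 (Nat.zero_le _)
        · have h7 : ((W * ∏ i, q i : ℕ) : ℤ) ∣ (n' : ℤ) - r := by
            have h8 : (s m : ℤ) * ((W * ∏ i, q i : ℕ) : ℤ) ∣ s m * ((n' : ℤ) - r) := by
              have h9 : (s m : ℤ) * ((n' : ℤ) - r) = (P : ℤ) - ((s m * r + h m : ℕ) : ℤ) := by
                rw [← hP]; push_cast; ring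
              rw [h9]
              have h10 : (s m : ℤ) * ((W * ∏ i, q i : ℕ) : ℤ) = ((Q : ℕ) : ℤ) := by
                rw [hQ]; push_cast; ring
              rw [h10]
              exact h4
            exact (mul_dvd_mul_iff_left hs0'.ne').1 h8
          exact (Nat.modEq_iff_dvd.2 (by
            have h8 := dvd_neg.2 h7
            rwa [neg_sub] at h8))
      · rintro ⟨n, hn, rfl⟩
        rw [mem_filter, mem_Ico] at hn
        obtain ⟨⟨h1, h2⟩, h3⟩ := hn
        have h4 : s m * N ≤ s m * n := Nat.mul_le_mul_left _ h1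
        have h5 : s m * n + s m ≤ 2 * s m * N := by
          have : s m * (n + 1) ≤ s m * (2 * N) := Nat.mul_le_mul_left _ (by omega)
          nlinarith
        have h6 : 1 ≤ s m * N := Nat.mul_pos hs0 hN
        refine ⟨⟨by omega, by omega⟩, ?_, ?_⟩
        · have h7 : ((s m * N + h m : ℕ) : ℝ) ≤ ((s m * n + h m : ℕ) : ℝ) := by
            exact_mod_cast (by omega : s m * N + h m ≤ s m * n + h m)
          linarith
        · have h7 : ((W * ∏ i, q i : ℕ) : ℤ) ∣ (n : ℤ) - r := by
            have h8 := (Nat.modEq_iff_dvd.1 h3.symm)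
            exact h8
          have h9 : ((s m * n + h m : ℕ) : ℤ) - ((s m * r + h m : ℕ) : ℤ) = (s m : ℤ) * ((n : ℤ) - r) := by
            push_cast; ring
          have h10 : ((Q : ℕ) : ℤ) = (s m : ℤ) * ((W * ∏ i, q i : ℕ) : ℤ) := by
            rw [hQ]; push_cast; ring
          rw [h9, h10]
          exact mul_dvd_mul_left _ h7
    have ht : Q.totient = s m * (W.totient * ∏ i, (q i).totient) := by
      rw [hQ, mul_assoc, DEL_totient_mul (s m) (W * ∏ i, q i)
        (Nat.mul_pos hWpos (Finset.prod_pos fun i _ => hqpos i))]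
      · rw [Nat.totient_mul (Nat.Coprime.prod_right fun i _ => (hqW i).symm), DEL_totient_prod q hqq]
      · intro p hp hps
        have hpD : p ≤ D := by
          by_contra hlt
          push Not at hlt
          exact (hL p hp hlt).1 m hps
        exact (DEL_dvd_prim hp hpD).mul_right _
    have hs0' : (s m : ℝ) ≠ 0 := by exact_mod_cast hs0.ne'
    have hmain : (((2 * s m * N + h m : ℕ) : ℝ) - 1 - (((s m * N + h m : ℕ) : ℝ) - 1)) / (Q.totient : ℝ) =
        N / (W.totient * ∏ i, ((q i).totient : ℝ)) := by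
      rw [ht]
      have hz : ((2 * s m * N + h m : ℕ) : ℝ) - 1 - (((s m * N + h m : ℕ) : ℝ) - 1) = s m * N := by
        push_cast; ring
      rw [hz]
      push_cast
      rw [mul_div_mul_left _ _ hs0']
    have hLam : LamErr ((s m * N + h m : ℕ) - 1) ((2 * s m * N + h m : ℕ) - 1) Q ((s m * r + h m : ℕ) : ℤ) =
        ∑ n ∈ S, ArithmeticFunction.vonMangoldt (s m * n + h m) -
          N / (W.totient * ∏ i, ((q i).totient : ℝ)) := by
      unfold LamErr
      rw [hmain, hZ, ← Finset.sum_filter]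
      congr 1
      rw [himg, Finset.sum_image]
      intro a _ c _ hac
      simp only at hac
      have : s m * a = s m * c := by omega
      exact Nat.eq_of_mul_eq_mul_left hs0 this
    have hDel : Del s h W b N m d e =
        |∑ n ∈ S, th (s m * n + h m) - N / (W.totient * ∏ i, ((q i).totient : ℝ))| := by
      unfold Del
      rw [hl]
    have hth : ∑ n ∈ S, th (s m * n + h m) =
        ∑ n ∈ S, ArithmeticFunction.vonMangoldt (s m * n + h m) - ∑ n ∈ S, ppw (s m * n + h m) := by
      rw [← Finset.sum_sub_distrib]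
      refine Finset.sum_congr rfl fun n _ => ?_
      unfold ppw
      ring
    have hpp : ∑ n ∈ S, ppw (s m * n + h m) ≤
        ∑ n ∈ Ico N (2 * N), (if ∀ i, i ≠ m → d i ∣ s i * n + h i ∧ e i ∣ s i * n + h i then
          ppw (s m * n + h m) else 0) := by
      rw [← Finset.sum_filter]
      refine Finset.sum_le_sum_of_subset_of_nonneg ?_ (fun n _ _ => ppw_nonneg _)
      intro n hn
      rw [hS, ← hl, mem_filter, rng, mem_filter] at hn
      rw [mem_filter]
      exact ⟨hn.1.1, hn.2⟩
    have hpp0 : 0 ≤ ∑ n ∈ S, ppw (s m * n + h m) := Finset.sum_nonneg fun n _ => ppw_nonneg _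
    rw [hDel, hth, hLam]
    have h1 : ∑ n ∈ S, ArithmeticFunction.vonMangoldt (s m * n + h m) - ∑ n ∈ S, ppw (s m * n + h m) -
        N / (W.totient * ∏ i, ((q i).totient : ℝ)) =
        (∑ n ∈ S, ArithmeticFunction.vonMangoldt (s m * n + h m) -
          N / (W.totient * ∏ i, ((q i).totient : ℝ))) - ∑ n ∈ S, ppw (s m * n + h m) := by ring
    rw [h1]
    refine (abs_sub _ _).trans ?_
    rw [abs_of_nonneg hpp0]
    linarith

end Pool.Agent.SL
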