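import Pool.Agent.SL4.Defs
import Pool.Agent.Disp.L0

/-! SLOPES, four groups (helper64): moduli `W q`, `W` fixed (not squarefree), `q` squarefree coprime to `W`. -/

set_option autoImplicit false

namespace Pool.Agent.SL

open Finset Pool.Agent.MT Pool.Agent.BGG

open Classical in
/-- the moduli `W q ≤ x^(1/2+2w')`, `q ∈ D x` coprime to `W` -/
noncomputable def mulD (W : ℕ) (w' : ℝ) (D : ℝ → Finset ℕ) (x : ℝ) : Finset ℕ :=
  (((D x).filter fun q => q.Coprime W).image fun q => W * q).filter fun r => (r : ℝ) ≤ x ^ (1 / 2 + 2 * w')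

open Classical in
/-- squarefree `q ≤ x^(1/2+2w)`, `q ≤ x^(1/2-s)` or with the factorisations `FacP` -/
noncomputable def D4 (p : Disp.Prm) (s : ℝ) (x : ℝ) : Finset ℕ :=
  (Icc 1 ⌊x ^ (1 / 2 + 2 * p.w)⌋₊).filter fun q => Squarefree q ∧ ((q : ℝ) ≤ x ^ (1 / 2 - s) ∨ Disp.FacP p x q)

/-- the parameters: `w = δ = δ1 = 1/1000`, `ν = 1/3`, `κ = 23/100`, `e = 1/10000` -/
noncomputable def p4 : Disp.Prm where
  w := 1 / 1000
  ν := 1 / 3
  κ := 23 / 100
  δ := 1 / 1000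
  δ1 := 1 / 1000
  e := 1 / 10000
  V0 := 28 / 10000

theorem p4_ok : p4.Ok := by
  constructor <;> norm_num [p4]

end Pool.Agent.SL
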