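import Pool.Agent.SL4.Defs
import Pool.Agent.BGG.GFin

/-! Module PPL (SLOPES, four groups, helper64): the proper prime powers are negligible.  Adapt `pp_part`, `tau_prod_sum`
(BGG/ToMT.lean) and `pp_small` (BGG/GFin.lean) to the forms `s_i n + h_i`: Cauchy-Schwarz over `n`,
`∑_n ppw(s_m n + h_m)² ≤ ∑_{P ≤ X} ppw(P)²`, `∑_n τ(s_i n + h_i)^(4k) ≤ ∑_{P ≤ X} τ(P)^(4k)`, `X = (∑ (2 s_i + h_i)) N`. -/

set_option autoImplicit false

namespace Pool.Agent.SL

open Finset Pool.Agent.MT Pool.Agent.BGG

/-- second moment of the number of pairs -/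
private lemma PPL_tau_prod_sum {k : ℕ} (hk : 1 ≤ k) (s h : Fin k → ℕ) (hs : ∀ i, 0 < s i)
    (N X : ℕ) (hN : 1 ≤ N) (hX : ∀ i, ∀ n < 2 * N, s i * n + h i ≤ X) :
    ∑ n ∈ Ico N (2 * N), (∏ i, ((s i * n + h i).divisors.card : ℝ) ^ 2) ^ 2
      ≤ k * (X * (1 + Real.log X) ^ (2 ^ (4 * k))) := by
  calc ∑ n ∈ Ico N (2 * N), (∏ i, ((s i * n + h i).divisors.card : ℝ) ^ 2) ^ 2
      ≤ ∑ n ∈ Ico N (2 * N), ∑ i, ((s i * n + h i).divisors.card : ℝ) ^ (4 * k) := by
        apply Finset.sum_le_sum
        intro n _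
        rw [← Finset.prod_pow]
        calc ∏ i, (((s i * n + h i).divisors.card : ℝ) ^ 2) ^ 2
            ≤ ∑ i, ((((s i * n + h i).divisors.card : ℝ) ^ 2) ^ 2) ^ k :=
              prod_le_sum_pow hk _ (fun i => by positivity)
          _ = _ := by
              apply Finset.sum_congr rfl
              intro i _
              rw [← pow_mul, ← pow_mul]
              congr 1
              ring
    _ = ∑ i, ∑ n ∈ Ico N (2 * N), ((s i * n + h i).divisors.card : ℝ) ^ (4 * k) :=
        Finset.sum_comm
    _ ≤ ∑ _i : Fin k, (X * (1 + Real.log X) ^ (2 ^ (4 * k))) := by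
        apply Finset.sum_le_sum
        intro i _
        refine le_trans ?_ (tau_sum (4 * k) X)
        rw [← Finset.sum_image (s := Ico N (2 * N)) (g := fun n => s i * n + h i)
          (f := fun n => (n.divisors.card : ℝ) ^ (4 * k)) (by
            intro a _ b _ hab
            have h1 : s i * a + h i = s i * b + h i := hab
            exact Nat.eq_of_mul_eq_mul_left (hs i) (by omega))]
        apply Finset.sum_le_sum_of_subset_of_nonneg
        · intro n hn
          rw [Finset.mem_image] at hn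
          obtain ⟨a, ha, rfl⟩ := hn
          rw [Finset.mem_Ico] at ha
          rw [Finset.mem_Icc]
          refine ⟨?_, hX i a ha.2⟩
          have : 0 < s i * a := Nat.mul_pos (hs i) (by omega)
          omega
        · intro n _ _; positivity
    _ = _ := by rw [Finset.sum_const, Finset.card_univ, Fintype.card_fin, nsmul_eq_mul]

/-- the prime power part of the box error -/
private lemma PPL_part {k : ℕ} (s h : Fin k → ℕ) (hs : ∀ i, 0 < s i) (m : Fin k) (N X : ℕ)
    (hN : 1 ≤ N) (hX : ∀ i, ∀ n < 2 * N, s i * n + h i ≤ X)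
    (S : Finset ((Fin k → ℕ) × (Fin k → ℕ))) (hS : ∀ p ∈ S, p.1 m = 1 ∧ p.2 m = 1) :
    ∑ p ∈ S, ∑ n ∈ Ico N (2 * N),
        (if (∀ i, i ≠ m → p.1 i ∣ s i * n + h i ∧ p.2 i ∣ s i * n + h i) then
          ppw (s m * n + h m) else 0)
      ≤ Real.sqrt (2 * Real.sqrt X * Real.log X ^ 2)
        * Real.sqrt (k * (X * (1 + Real.log X) ^ (2 ^ (4 * k)))) := by
  classical
  have hk : 1 ≤ k := by have := m.2; omega
  rw [Finset.sum_comm]
  have hpos : ∀ i, ∀ n, N ≤ n → 0 < s i * n + h i := by
    intro i n hn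
    have : 0 < s i * n := Nat.mul_pos (hs i) (by omega)
    omega
  have hX1 : 1 ≤ X := by
    have h1 := hX m N (by omega)
    have h2 := hpos m N le_rfl
    omega
  calc ∑ n ∈ Ico N (2 * N), ∑ p ∈ S,
        (if (∀ i, i ≠ m → p.1 i ∣ s i * n + h i ∧ p.2 i ∣ s i * n + h i) then
          ppw (s m * n + h m) else 0)
      ≤ ∑ n ∈ Ico N (2 * N), ppw (s m * n + h m) *
          ∏ i, ((s i * n + h i).divisors.card : ℝ) ^ 2 := by
        apply Finset.sum_le_sum
        intro n hn
        rw [Finset.mem_Ico] at hn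
        rw [← Finset.sum_filter, Finset.sum_const, nsmul_eq_mul, mul_comm]
        apply mul_le_mul_of_nonneg_left _ (ppw_nonneg _)
        set F := Fintype.piFinset (fun i => (s i * n + h i).divisors) with hF
        have hsub : S.filter (fun p => ∀ i, i ≠ m → p.1 i ∣ s i * n + h i ∧
            p.2 i ∣ s i * n + h i) ⊆ F ×ˢ F := by
          intro p hp
          rw [Finset.mem_filter] at hp
          rw [Finset.mem_product, hF, Fintype.mem_piFinset, Fintype.mem_piFinset]
          constructor
          · intro i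
            rw [Nat.mem_divisors]
            refine ⟨?_, (hpos i n hn.1).ne'⟩
            by_cases hi : i = m
            · rw [hi, (hS p hp.1).1]; exact one_dvd _
            · exact (hp.2 i hi).1
          · intro i
            rw [Nat.mem_divisors]
            refine ⟨?_, (hpos i n hn.1).ne'⟩
            by_cases hi : i = m
            · rw [hi, (hS p hp.1).2]; exact one_dvd _
            · exact (hp.2 i hi).2
        have h1 := Finset.card_le_card hsub
        rw [Finset.card_product, hF, Fintype.card_piFinset] at h1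
        calc ((S.filter (fun p => ∀ i, i ≠ m → p.1 i ∣ s i * n + h i ∧
              p.2 i ∣ s i * n + h i)).card : ℝ)
            ≤ (((∏ i, (s i * n + h i).divisors.card) *
                ∏ i, (s i * n + h i).divisors.card : ℕ) : ℝ) := by
              exact_mod_cast h1
          _ = _ := by
              push_cast
              rw [← Finset.prod_mul_distrib]
              apply Finset.prod_congr rfl
              intro i _; ring
    _ ≤ Real.sqrt (∑ n ∈ Ico N (2 * N), ppw (s m * n + h m) ^ 2)
        * Real.sqrt (∑ n ∈ Ico N (2 * N),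
            (∏ i, ((s i * n + h i).divisors.card : ℝ) ^ 2) ^ 2) :=
        Real.sum_mul_le_sqrt_mul_sqrt _ _ _
    _ ≤ _ := by
        gcongr
        · refine le_trans ?_ (ppw_sum_sq X hX1)
          rw [← Finset.sum_image (s := Ico N (2 * N)) (g := fun n => s m * n + h m)
            (f := fun n => ppw n ^ 2) (by
              intro a _ b _ hab
              have h1 : s m * a + h m = s m * b + h m := hab
              exact Nat.eq_of_mul_eq_mul_left (hs m) (by omega))]
          apply Finset.sum_le_sum_of_subset_of_nonneg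
          · intro n hn
            rw [Finset.mem_image] at hn
            obtain ⟨a, ha, rfl⟩ := hn
            rw [Finset.mem_Ico] at ha
            rw [Finset.mem_Icc]
            exact ⟨hpos m a ha.1, hX m a ha.2⟩
          · intro n _ _; positivity
        · exact PPL_tau_prod_sum hk s h hs N X hN hX

/-- the prime power part is negligible -/
private lemma PPL_small (k B A : ℕ) (hB : 1 ≤ B) : ∀ᶠ N : ℕ in Filter.atTop,
    Real.sqrt (2 * Real.sqrt ((B * N : ℕ) : ℝ) * Real.log ((B * N : ℕ) : ℝ) ^ 2)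
      * Real.sqrt (k * (((B * N : ℕ) : ℝ) *
        (1 + Real.log ((B * N : ℕ) : ℝ)) ^ (2 ^ (4 * k))))
      ≤ (1 / 2) * ((N : ℝ) / Real.log N ^ A) := by
  set E := 2 ^ (4 * k) with hE
  have hB1 : (1 : ℝ) ≤ B := by exact_mod_cast hB
  set c : ℝ := 4 * (8 * Real.sqrt B * (B * (k + 1) * 3 ^ E)) with hc
  have hcpos : 0 < c := by positivity
  filter_upwards [log_pow_le_sqrt (2 + E + 2 * A) c hcpos,
    Filter.eventually_ge_atTop (B + 3)] with N hN hNB
  have hN3 : (3:ℝ) ≤ N := by exact_mod_cast (show 3 ≤ N by omega)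
  have hN0 : (0:ℝ) < N := by linarith
  have hlog1 : 1 ≤ Real.log N := by
    have h1 : Real.log (Real.exp 1) ≤ Real.log 3 := by
      apply Real.log_le_log (Real.exp_pos _)
      have := Real.exp_one_lt_d9
      linarith
    rw [Real.log_exp] at h1
    exact h1.trans (Real.log_le_log (by norm_num) hN3)
  have hlog0 : 0 < Real.log N := by linarith
  set X : ℝ := ((B * N : ℕ) : ℝ) with hX
  have hX3 : X = B * N := by
    rw [hX]
    push_cast
    ring
  have hX1 : 1 ≤ X := by
    rw [hX3]
    nlinarith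
  have hX0 : 0 ≤ X := by linarith
  have hlX : Real.log X ≤ 2 * Real.log N := by
    calc Real.log X ≤ Real.log (N * N) := by
          apply Real.log_le_log (by linarith)
          rw [hX3]
          apply mul_le_mul_of_nonneg_right _ hN0.le
          exact_mod_cast (show B ≤ N by omega)
      _ = 2 * Real.log N := by rw [Real.log_mul hN0.ne' hN0.ne']; ring
  have hlX0 : 0 ≤ Real.log X := Real.log_nonneg hX1
  rw [← Real.sqrt_mul (by positivity)]
  rw [show (1 / 2 : ℝ) * ((N : ℝ) / Real.log N ^ A) =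
      Real.sqrt (((1 / 2 : ℝ) * ((N : ℝ) / Real.log N ^ A)) ^ 2) by
    rw [Real.sqrt_sq (by positivity)]]
  apply Real.sqrt_le_sqrt
  have hsq : Real.sqrt X ≤ Real.sqrt B * Real.sqrt N := by
    rw [← Real.sqrt_mul (by positivity), hX3]
  calc (2 * Real.sqrt X * Real.log X ^ 2) * (k * (X * (1 + Real.log X) ^ E))
      ≤ (2 * (Real.sqrt B * Real.sqrt N) * (2 * Real.log N) ^ 2)
          * ((k + 1) * ((B * N) * (3 * Real.log N) ^ E)) := by
        gcongr
        · linarith
        · exact hX3.le
        · linarith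
    _ = (1 / 4) * (c * Real.log N ^ (2 + E)) * (N * Real.sqrt N) := by
        rw [hc, pow_add]; ring
    _ = (1 / 4) * ((c * Real.log N ^ (2 + E + 2 * A)) / Real.log N ^ (2 * A)) *
          (N * Real.sqrt N) := by
        congr 2
        rw [pow_add _ (2 + E) (2 * A)]
        field_simp
    _ ≤ (1 / 4) * (Real.sqrt N / Real.log N ^ (2 * A)) * (N * Real.sqrt N) := by
        gcongr
    _ = (1 / 4) * ((Real.sqrt N * Real.sqrt N) * N / Real.log N ^ (2 * A)) := by ring
    _ = ((1 / 2 : ℝ) * ((N : ℝ) / Real.log N ^ A)) ^ 2 := by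
        rw [Real.mul_self_sqrt hN0.le, mul_pow, div_pow (N : ℝ), ← pow_mul, mul_comm A 2]
        ring

open Classical in
theorem pp_smallL {k : ℕ} (s h : Fin k → ℕ) (hs : ∀ i, 0 < s i) (m : Fin k) (A : ℕ) :
    ∀ᶠ N : ℕ in Filter.atTop, ∀ S : Finset ((Fin k → ℕ) × (Fin k → ℕ)), (∀ p ∈ S, p.1 m = 1 ∧ p.2 m = 1) →
      ∑ p ∈ S, ∑ n ∈ Ico N (2 * N), (if ∀ i, i ≠ m → p.1 i ∣ s i * n + h i ∧ p.2 i ∣ s i * n + h i then
        ppw (s m * n + h m) else 0) ≤ (1 / 2) * (N / Real.log N ^ A) := by
  have hB : 1 ≤ ∑ i, (2 * s i + h i) := by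
    refine le_trans ?_ (Finset.single_le_sum (f := fun i => 2 * s i + h i)
      (fun i _ => Nat.zero_le _) (Finset.mem_univ m))
    have := hs m
    show 1 ≤ 2 * s m + h m
    omega
  filter_upwards [PPL_small k (∑ i, (2 * s i + h i)) A hB,
    Filter.eventually_ge_atTop 1] with N hN hN1 S hS
  refine le_trans ?_ hN
  refine le_trans (le_of_eq ?_) (PPL_part s h hs m N ((∑ i, (2 * s i + h i)) * N) hN1 ?_ S hS)
  · refine sum_congr rfl fun p _ => sum_congr rfl fun n _ => ?_
    congr
  · intro i n hn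
    have h1 : 2 * s i + h i ≤ ∑ i, (2 * s i + h i) :=
      Finset.single_le_sum (f := fun i => 2 * s i + h i)
        (fun i _ => Nat.zero_le _) (Finset.mem_univ i)
    calc s i * n + h i ≤ (2 * s i + h i) * N := by nlinarith [hs i]
      _ ≤ _ := Nat.mul_le_mul_right _ h1

end Pool.Agent.SL
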