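import Pool.Agent.SL4.DelLam
import Pool.Agent.SL4.PpL
import Pool.Agent.SL4.ColL
import Pool.Agent.SL4.AsmW
import Pool.Agent.BGG.GCs
import Pool.Agent.BGV.Chain

/-! SLOPES, four groups (helper64): equidistribution for pairs of vectors, from `EHs` (one class for all moduli). -/

set_option autoImplicit false

namespace Pool.Agent.SL

open Finset Filter Pool.Agent.MT Pool.Agent.BGG

theorem ehp_of_ehs {k : ℕ} (s h : Fin k → ℕ) (hs : ∀ i, 0 < s i) (D b : ℕ) (hL : Large s h D) (hG : Good s h D b)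
    (m : Fin k) (P : ℕ → (Fin k → ℕ) → (Fin k → ℕ) → Prop) (DD : ℝ → Finset ℕ) (hEH : EHs DD)
    (hDD : ∀ x : ℝ, 2 ≤ x → ∀ r ∈ DD x, 1 ≤ r ∧ (r : ℝ) ≤ x)
    (hP : ∀ᶠ N : ℕ in atTop, ∀ d e : Fin k → ℕ, OK (primorial D) m d e → P N d e →
      s m * primorial D * ∏ i, (d i).lcm (e i) ∈ DD ((s m * N + h m : ℕ) - 1)) :
    EHP s h (primorial D) b m P := by
  classical
  intro A
  obtain ⟨j, hj⟩ : ∃ j : ℕ, ((4 * k : ℕ) : ℝ) ≤ 2 ^ j := by
    refine ⟨4 * k, ?_⟩
    exact_mod_cast Nat.lt_two_pow_self.le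
  obtain ⟨C0, hC0⟩ := hEH (1 + 2 ^ (2 * j + 1) + 2 * (A + 1))
  obtain ⟨C, hC⟩ := mult_bound j (A + 1) C0
  set Q : ℝ := ((s m + h m : ℕ) : ℝ) with hQ
  have hsm := hs m
  have hQ1 : 1 ≤ Q := by
    rw [hQ]
    exact_mod_cast (show 1 ≤ s m + h m by omega)
  have hlogC : ∀ᶠ N : ℕ in atTop, 2 * (|C| * Q * 2 ^ (A + 1)) ≤ Real.log N :=
    (Real.tendsto_log_atTop.comp tendsto_natCast_atTop_atTop).eventually_ge_atTop _
  filter_upwards [hP, pp_smallL s h hs m A, hlogC, eventually_ge_atTop 4] with N hN hpp hNC hN4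
  have hN4R : (4 : ℝ) ≤ N := by exact_mod_cast hN4
  have hN0 : (0 : ℝ) < N := by linarith
  have hlog0 : 0 < Real.log N := Real.log_pos (by linarith)
  set S : Finset ((Fin k → ℕ) × (Fin k → ℕ)) := (grid k N ×ˢ grid k N).filter
    (fun p => OK (primorial D) m p.1 p.2 ∧ P N p.1 p.2) with hS
  have hbox : SetErr s h (primorial D) b N m (P N) = ∑ p ∈ S, Del s h (primorial D) b N m p.1 p.2 := by
    unfold SetErr
    rw [hS, Finset.sum_filter, Finset.sum_product]
  rw [hbox]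
  have hSOK : ∀ p ∈ S, OK (primorial D) m p.1 p.2 := fun p hp => (Finset.mem_filter.1 hp).2.1
  -- the classes
  have hch : ∀ p : (Fin k → ℕ) × (Fin k → ℕ), ∃ c : ℤ, OK (primorial D) m p.1 p.2 →
      IsCoprime c ((s m * primorial D * ∏ i, (p.1 i).lcm (p.2 i) : ℕ) : ℤ) ∧
      ((s m * primorial D : ℕ) : ℤ) ∣ c - (s m * b + h m) ∧
      (∀ i, i ≠ m → (((p.1 i).lcm (p.2 i) : ℕ) : ℤ) ∣ s i * c + (s m * h i - s i * h m)) ∧
      Del s h (primorial D) b N m p.1 p.2 ≤
        |LamErr ((s m * N + h m : ℕ) - 1) ((2 * s m * N + h m : ℕ) - 1)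
          (s m * primorial D * ∏ i, (p.1 i).lcm (p.2 i)) c| +
        ∑ n ∈ Ico N (2 * N), (if ∀ i, i ≠ m → p.1 i ∣ s i * n + h i ∧ p.2 i ∣ s i * n + h i then
          ppw (s m * n + h m) else 0) := by
    intro p
    by_cases hok : OK (primorial D) m p.1 p.2
    · obtain ⟨c, hc⟩ := del_lam s h D b N (by omega) hL hG m p.1 p.2 hok
      exact ⟨c, fun _ => hc⟩
    · exact ⟨0, fun h => absurd h hok⟩
  choose c hc using hch
  set x : ℝ := ((s m * N + h m : ℕ) : ℝ) - 1 with hx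
  set z : ℝ := ((2 * s m * N + h m : ℕ) : ℝ) - 1 with hz
  have hxN : (N : ℝ) - 1 ≤ x := by
    have h1 : N ≤ s m * N + h m := by
      have := Nat.le_mul_of_pos_left N hsm
      omega
    have h2 : (N : ℝ) ≤ ((s m * N + h m : ℕ) : ℝ) := by exact_mod_cast h1
    rw [hx]
    linarith
  have hx2 : 2 ≤ x := by linarith
  have hx0 : 0 < x := by linarith
  have hxQ : x ≤ Q * N := by
    have h1 : s m * N + h m ≤ (s m + h m) * N := by
      have : h m * 1 ≤ h m * N := Nat.mul_le_mul_left _ (by omega)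
      calc s m * N + h m ≤ s m * N + h m * N := by omega
        _ = (s m + h m) * N := by ring
    have h2 : ((s m * N + h m : ℕ) : ℝ) ≤ (((s m + h m) * N : ℕ) : ℝ) := by exact_mod_cast h1
    rw [Nat.cast_mul, ← hQ] at h2
    rw [hx]
    linarith
  have hxz : x ≤ z := by
    have h1 : s m * N + h m ≤ 2 * s m * N + h m := by
      have : s m * N ≤ 2 * s m * N := by nlinarith
      omega
    have h2 : ((s m * N + h m : ℕ) : ℝ) ≤ ((2 * s m * N + h m : ℕ) : ℝ) := by exact_mod_cast h1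
    rw [hx, hz]
    linarith
  have hz3 : z ≤ 3 * x := by
    have h0 : N ≤ s m * N := Nat.le_mul_of_pos_left N hsm
    have h1 : 2 * s m * N + h m + 2 ≤ 3 * (s m * N + h m) := by nlinarith
    have h2 : ((2 * s m * N + h m + 2 : ℕ) : ℝ) ≤ ((3 * (s m * N + h m) : ℕ) : ℝ) := by exact_mod_cast h1
    rw [hx, hz]
    push_cast at h2 ⊢
    linarith
  have hlogx : Real.log N / 2 ≤ Real.log x := by
    have h1 : Real.sqrt N ≤ x := by
      refine le_trans ?_ hxN
      rw [Real.sqrt_le_left (by linarith)]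
      nlinarith
    have h2 := Real.log_le_log (Real.sqrt_pos.2 hN0) h1
    rwa [Real.log_sqrt hN0.le] at h2
  have hlx0 : 0 < Real.log x := by linarith
  -- the two parts
  have e1 : ∑ p ∈ S, Del s h (primorial D) b N m p.1 p.2 ≤
      ∑ p ∈ S, |LamErr x z (s m * primorial D * ∏ i, (p.1 i).lcm (p.2 i)) (c p)| +
      ∑ p ∈ S, ∑ n ∈ Ico N (2 * N), (if ∀ i, i ≠ m → p.1 i ∣ s i * n + h i ∧ p.2 i ∣ s i * n + h i then
        ppw (s m * n + h m) else 0) := by
    rw [← Finset.sum_add_distrib]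
    exact Finset.sum_le_sum fun p hp => (hc p (hSOK p hp)).2.2.2
  have e2 := hpp S (fun p hp => ⟨(hSOK p hp).1, (hSOK p hp).2.1⟩)
  obtain ⟨a, ha⟩ := col_sum s h D b hL hG m x z S hSOK c (fun p hp => (hc p (hSOK p hp)).1)
    (fun p hp => (hc p (hSOK p hp)).2.1) (fun p hp => (hc p (hSOK p hp)).2.2.1)
  have e3 : ∑ r ∈ S.image (fun p => s m * primorial D * ∏ i, (p.1 i).lcm (p.2 i)),
        (if IsCoprime a (r : ℤ) then ((4 * k : ℕ) : ℝ) ^ r.primeFactors.card * |LamErr x z r a| else 0) ≤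
      C * x / Real.log x ^ (A + 1) := by
    have e4 := hC0 x hx2 a x z le_rfl hxz hz3
    rw [← Finset.sum_filter] at e4
    have e5 := hC x hx2 x z le_rfl hxz hz3 ((DD x).filter fun r : ℕ => IsCoprime a (r : ℤ)) a ((4 * k : ℕ) : ℝ)
      (by positivity) hj (fun r hr => hDD x hx2 r (Finset.mem_filter.1 hr).1) e4
    refine le_trans ?_ e5
    rw [← Finset.sum_filter]
    refine Finset.sum_le_sum_of_subset_of_nonneg ?_ fun r _ _ => by positivity
    intro r hr
    obtain ⟨hr1, hr2⟩ := Finset.mem_filter.1 hr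
    refine Finset.mem_filter.2 ⟨?_, hr2⟩
    obtain ⟨p, hp, rfl⟩ := Finset.mem_image.1 hr1
    exact hN p.1 p.2 (hSOK p hp) (Finset.mem_filter.1 hp).2.2
  have e6 : C * x / Real.log x ^ (A + 1) ≤ 1 / 2 * (N / Real.log N ^ A) := by
    have f1 : C * x / Real.log x ^ (A + 1) ≤ |C| * (Q * N) / (Real.log N / 2) ^ (A + 1) := by
      have g1 : C * x ≤ |C| * (Q * N) := by
        calc C * x ≤ |C| * x := mul_le_mul_of_nonneg_right (le_abs_self C) hx0.le
          _ ≤ _ := mul_le_mul_of_nonneg_left hxQ (abs_nonneg C)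
      have g2 : (Real.log N / 2) ^ (A + 1) ≤ Real.log x ^ (A + 1) :=
        pow_le_pow_left₀ (by positivity) hlogx _
      have g3 : 0 < (Real.log N / 2) ^ (A + 1) := by positivity
      calc C * x / Real.log x ^ (A + 1) ≤ |C| * (Q * N) / Real.log x ^ (A + 1) :=
            div_le_div_of_nonneg_right g1 (by positivity)
        _ ≤ _ := div_le_div_of_nonneg_left (by positivity) g3 g2
    refine f1.trans ?_
    have f2 : |C| * (Q * N) / (Real.log N / 2) ^ (A + 1) =
        (|C| * Q * 2 ^ (A + 1)) * (N / Real.log N ^ A) / Real.log N := by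
      rw [div_pow, pow_succ (Real.log N) A]
      field_simp
    rw [f2, div_le_iff₀ hlog0]
    have f3 : 0 ≤ N / Real.log N ^ A := by positivity
    nlinarith
  have e7 := (ha.trans e3).trans e6
  calc _ ≤ _ := e1
    _ ≤ 1 / 2 * (N / Real.log N ^ A) + 1 / 2 * (N / Real.log N ^ A) := add_le_add e7 e2
    _ = _ := by ring

/-- the primes are equidistributed for the moduli `W q ≤ x^(1/2+2/900)`, `q ∈ D4 p4 s x` -/
theorem ehs4 (s : ℝ) (hs : 0 < s) (hs2 : s ≤ 1 / 100000) (W : ℕ) (hW : 1 ≤ W) :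
    EHs (mulD W (1 / 900) (D4 p4 s)) := by
  classical
  refine Pool.Agent.BGV.ehs_of_bil (1 / 900) (by norm_num) (by norm_num) _ ?_ ?_
  · intro x _ r hr
    unfold mulD at hr
    obtain ⟨hr1, hr2⟩ := Finset.mem_filter.1 hr
    obtain ⟨q, hq, rfl⟩ := Finset.mem_image.1 hr1
    refine ⟨?_, hr2⟩
    have h1 := (Finset.mem_filter.1 hq).1
    unfold D4 at h1
    have h2 := (Finset.mem_Icc.1 (Finset.mem_filter.1 h1).1).1
    exact Nat.mul_pos (by omega) (by omega)
  · refine Disp.bil_of_bilc _ fun K => ?_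
    refine bilW p4 p4_ok s hs (by norm_num [p4]; linarith) 1 K (D4 p4 s) ?_ W hW (1 / 900) (by norm_num)
    intro x hx q hq
    unfold D4 at hq
    obtain ⟨h1, h2, h3⟩ := Finset.mem_filter.1 hq
    rw [Finset.mem_Icc] at h1
    refine ⟨h1.1, h2, ?_, h3⟩
    exact (Nat.le_floor_iff (by positivity)).1 h1.2

end Pool.Agent.SL
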