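import Pool.Agent.SL4.AsyF
import Pool.Agent.SL.Fin5

/-! SLOPES (helper64): excluded pairs of linear forms, discrete version with the family (from SL/Fin5.lean of helper64,
helper41 and SL/Quarter.lean of helper84; `ξ` is the lower bound for the proportion of the family). -/

set_option autoImplicit false

namespace Pool.Agent.SL

open Finset Filter Topology Pool.Agent.MT

variable {k : ℕ}

/-- the pairs of different indices in `G` -/
def offP (G : Finset (Fin k × Fin k)) : Finset (Fin k × Fin k) := G.filter fun x => x.1 ≠ x.2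

theorem discrete_pairsF (s h : Fin k → ℕ) (G : Finset (Fin k × Fin k)) (hn : Nondeg s h)
    (hadm : Adm s h) (M : ℕ)
    (hM : 1 ≤ M) (r θ : ℝ) (Y : (Fin k → ℕ) → ℝ) (hY : Grid M r Y) (hYn : ∀ v, 0 ≤ Y v)
    (hθ : ∀ v, Y v ≠ 0 → ∑ i, ((v i : ℝ) + 1) / M ≤ θ) (hθ2 : θ < 1 / 2) (lm : ℝ) (hlm : 0 < lm)
    (η0 η1 β ξ : ℝ) (hη0 : η0 ≤ 1) (hη1 : η1 ≤ 1) (hξ0 : 0 < ξ)
    (hZ : ∀ D : ℕ, 2 ≤ D → ∀ᶠ N : ℕ in atTop, ξ * XX D N ≤ ZF (qq D N) (FS η0 η1 β))
    (hneg : T1 M (fun _ => 1 / (M : ℝ)) Y - 2 * lm * ∑ m, T2 M (fun _ => 1 / (M : ℝ)) m Y Y +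
      lm ^ 2 * (∑ m, T2 M (fun _ => 1 / (M : ℝ)) m Y Y +
        ∑ x ∈ offP G, T3 M (fun _ => 1 / (M : ℝ)) x.1 x.2 Y / ξ) < 0)
    (hEH : ∀ D b, Large s h D → Good s h D b → ∀ m, ∀ t ∈ boxes M Y, ∀ t' ∈ boxes M Y,
      EH s h (primorial D) b m t t')
    (hEH3 : ∀ D b, Large s h D → Good s h D b → ∀ l m, l ≠ m →
      EHP s h (primorial D) b l (PF m η0 η1 β θ)) :
    ∀ x : ℕ, ∃ n ≥ x, ∃ i j, i ≠ j ∧ (i, j) ∉ G ∧ (s i * n + h i).Prime ∧ (s j * n + h j).Prime := by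
  classical
  by_contra hcon
  push Not at hcon
  obtain ⟨x, hx⟩ := hcon
  obtain ⟨C, hC0, hC⟩ := PP_le
  have hMR : (0 : ℝ) < M := by exact_mod_cast hM
  have hr := hY.s_nonneg
  set A1 : ℝ := T1 M (fun _ => 1 / (M : ℝ)) Y with hA1
  set A2 : ℝ := ∑ m, T2 M (fun _ => 1 / (M : ℝ)) m Y Y with hA2
  set A3 : ℝ := ∑ x ∈ offP G, T3 M (fun _ => 1 / (M : ℝ)) x.1 x.2 Y / ξ with hA3
  set Δ : ℝ := -(A1 - 2 * lm * A2 + lm ^ 2 * (A2 + A3)) with hΔ
  have hΔ0 : 0 < Δ := by rw [hΔ]; linarith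
  set np : ℝ := ((offP G).card : ℝ) with hnp
  have hnp0 : 0 ≤ np := by rw [hnp]; positivity
  set Cε : ℝ := 1 + 2 * lm * k + lm ^ 2 * (|A2| + 2 * k + np) with hCε
  have hCε0 : 0 < Cε := by rw [hCε]; positivity
  set ε : ℝ := min 1 (Δ / (4 * Cε)) with hε
  have hε0 : 0 < ε := lt_min one_pos (by positivity)
  have hε1 : ε ≤ 1 := min_le_left _ _
  have hε2 : ε * Cε ≤ Δ / 4 := by
    have : ε ≤ Δ / (4 * Cε) := min_le_right _ _
    rw [le_div_iff₀ (by positivity)] at this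
    linarith
  -- choose D
  have l1 : Tendsto (fun D : ℕ => r ^ 2 * (C ^ k * (Real.exp (2 * (k : ℝ) ^ 2 / D) - 1))) atTop (𝓝 0) := by
    have := (((exp_lim (2 * (k : ℝ) ^ 2)).sub_const 1).const_mul (C ^ k)).const_mul (r ^ 2)
    simpa using this
  have l2 : Tendsto (fun D : ℕ => r * r * (C ^ (k + 1) * (Real.exp (6 * (k : ℝ) ^ 2 / D) +
      Real.exp (2 ^ (k + 2) / D) - 2))) atTop (𝓝 0) := by
    have := ((((exp_lim (6 * (k : ℝ) ^ 2)).add (exp_lim (2 ^ (k + 2)))).sub_const 2).const_mul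
      (C ^ (k + 1))).const_mul (r * r)
    norm_num at this
    exact this
  have l3 : Tendsto (fun D : ℕ => E3 k r C D) atTop (𝓝 0) := by
    unfold E3
    have := ((((exp_lim (48 * ((k : ℝ) + 1) ^ 2)).add (exp_lim (2 ^ (k + 3)))).sub_const 2).const_mul
      (C ^ (k + 3))).const_mul (r * r)
    norm_num at this
    exact this
  have l4 : Tendsto (fun D : ℕ => r ^ 2 * (C ^ k * (Real.exp (2 * (k : ℝ) ^ 2 / D) - 1)) +
      (2 * lm * k + 2 * lm ^ 2 * k) * (r * r * (C ^ (k + 1) * (Real.exp (6 * (k : ℝ) ^ 2 / D) +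
      Real.exp (2 ^ (k + 2) / D) - 2))) + lm ^ 2 * np / ξ ^ 2 * E3 k r C D) atTop (𝓝 0) := by
    have := (l1.add (l2.const_mul (2 * lm * k + 2 * lm ^ 2 * k))).add (l3.const_mul (lm ^ 2 * np / ξ ^ 2))
    simpa using this
  obtain ⟨D0, hD0⟩ := large_exists s h hn
  obtain ⟨D, ⟨hDa, hDL⟩, hD2⟩ := ((l4.eventually_lt_const (show (0 : ℝ) < Δ / 4 by linarith)).and
    (eventually_ge_atTop D0)).and (eventually_ge_atTop 2) |>.exists
  have hL := hD0 D hDL
  obtain ⟨b, hb⟩ := good_exists s h hadm D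
  have hCD : ∀ N, D < N → PP (qq D N) ≤ C * XX D N := fun N hN => hC D N hD2 hN
  set E1' : ℝ := r ^ 2 * (C ^ k * (Real.exp (2 * (k : ℝ) ^ 2 / D) - 1)) with hE1'
  set E2' : ℝ := r * r * (C ^ (k + 1) * (Real.exp (6 * (k : ℝ) ^ 2 / D) + Real.exp (2 ^ (k + 2) / D) - 2)) with hE2'
  set E3' : ℝ := E3 k r C D with hE3'
  have hexp1 : ∀ c : ℝ, 0 ≤ c → 1 ≤ Real.exp (c / D) := fun c hc => Real.one_le_exp (by positivity)
  have hE2n : 0 ≤ E2' := by
    rw [hE2']
    have := hexp1 (6 * (k : ℝ) ^ 2) (by positivity)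
    have := hexp1 (2 ^ (k + 2)) (by positivity)
    have : 0 ≤ Real.exp (6 * (k : ℝ) ^ 2 / D) + Real.exp (2 ^ (k + 2) / D) - 2 := by linarith
    positivity
  have e1 := S1_asym s h D M b hD2 hM hL r θ C Y hY hθ hθ2 hC0 hCD ε hε0
  have e2 : ∀ᶠ N : ℕ in atTop, ∀ m ∈ (univ : Finset (Fin k)), |S2 s h b m (lamY D N M Y) (lamY D N M Y) -
      N / (primorial D : ℕ) * XX D N ^ k * Real.log N * T2 M (fun _ => 1 / (M : ℝ)) m Y Y| ≤
      N / (primorial D : ℕ) * XX D N ^ k * Real.log N * (E2' + ε) := by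
    rw [Filter.eventually_all_finset]
    intro m _
    exact S2_asym s h D M b hD2 hM hL m r C Y hY hC0 hCD (hEH D b hL hb m) ε hε0
  have e3 : ∀ᶠ N : ℕ in atTop, ∀ x ∈ offP G, S3 s h b x.1 x.2 (lamY D N M Y) ≤
      N / (primorial D : ℕ) * XX D N ^ k * Real.log N ^ 2 *
      (T3 M (fun _ => 1 / (M : ℝ)) x.1 x.2 Y / ξ + E3' / ξ ^ 2 + ε) := by
    rw [Filter.eventually_all_finset]
    intro x hx
    have hx' := (Finset.mem_filter.1 hx).2
    refine S3_asymF s h D M b hD2 hM hL hn.1 x.1 x.2 hx' r C Y hY hYn hC0 hCD η0 η1 β θ ξ hη0 hη1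
      (by linarith) (fun v hv => ?_) hξ0 (hZ D hD2) (hEH3 D b hL hb x.1 x.2 hx') ε hε0
    refine le_trans ?_ (hθ v hv)
    exact Finset.sum_le_sum_of_subset_of_nonneg (Finset.subset_univ _) fun i _ _ => by positivity
  set C0 : ℕ := 1 + ∑ j, (2 * s j + h j) with hC0'
  have hC01 : (1 : ℝ) ≤ C0 := by
    have : 1 ≤ C0 := by omega
    exact_mod_cast this
  have e4 := log_ratio (C0 : ℝ) hC01 ε hε0
  obtain ⟨N, ⟨⟨⟨⟨⟨h1, h2⟩, h3⟩, h4⟩, hNx⟩, hND⟩, hN2⟩ :=
    (((((e1.and e2).and e3).and e4).and (eventually_ge_atTop x)).and (eventually_gt_atTop D)).and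
      (eventually_ge_atTop 2) |>.exists
  have hN0 : (0 : ℝ) < N := by exact_mod_cast (by omega : 0 < N)
  have hlog : 0 < Real.log N := Real.log_pos (by exact_mod_cast hN2)
  have hX := XX_pos D N hN2
  have hW : (0 : ℝ) < (primorial D : ℕ) := by exact_mod_cast primorial_pos D
  set B : ℝ := N / (primorial D : ℕ) * XX D N ^ k with hB
  have hB0 : 0 < B := by rw [hB]; positivity
  set w : ℕ → ℝ := fun n => LamW s h (lamY D N M Y) n ^ 2 with hw
  set t : Fin k → ℕ → ℝ := fun i n => th (s i * n + h i) with ht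
  set Λ0 : ℝ := lm / Real.log N with hΛ0
  have hΛ00 : 0 < Λ0 := by rw [hΛ0]; positivity
  have hS1 : S1 s h b (lamY D N M Y) = ∑ n ∈ rng (primorial D) b N, w n := rfl
  have hS2 : ∀ m, S2 s h b m (lamY D N M Y) (lamY D N M Y) = ∑ n ∈ rng (primorial D) b N, t m n * w n := by
    intro m
    unfold S2
    refine Finset.sum_congr rfl fun n _ => ?_
    simp only [ht, hw]
    ring
  have hS3 : ∀ l m, S3 s h b l m (lamY D N M Y) = ∑ n ∈ rng (primorial D) b N, t l n * t m n * w n := by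
    intro l m
    rfl
  -- pointwise inequality
  have hpt : ∀ n ∈ rng (primorial D) b N, 0 ≤ w n - 2 * Λ0 * ∑ i, t i n * w n +
      Λ0 ^ 2 * (∑ i, Real.log (C0 * N) * (t i n * w n) + ∑ x ∈ offP G, t x.1 n * t x.2 n * w n) := by
    intro n hnr
    have hnN : N ≤ n := (Finset.mem_Ico.1 (Finset.mem_filter.1 hnr).1).1
    have hwn : 0 ≤ w n := sq_nonneg _
    have hsame : ∀ i j, i ≠ j → (i, j) ∉ G → t i n * t j n = 0 := by
      intro i j hij hG
      by_cases hi : (s i * n + h i).Prime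
      · have hj := hx n (hNx.trans hnN) i j hij hG hi
        simp only [ht]
        rw [th_eq_zero hj, mul_zero]
      · simp only [ht]
        rw [th_eq_zero hi, zero_mul]
    have hsq : (∑ i, t i n) ^ 2 = ∑ i, t i n * t i n + ∑ x ∈ offP G, t x.1 n * t x.2 n := by
      rw [sq, Finset.sum_mul_sum, ← Finset.sum_product']
      rw [← Finset.sum_filter_add_sum_filter_not (univ ×ˢ univ) (fun x : Fin k × Fin k => x.1 = x.2)]
      congr 1
      · have : (univ ×ˢ univ : Finset (Fin k × Fin k)).filter (fun x => x.1 = x.2) = univ.image fun i => (i, i) := by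
          ext ⟨i, j⟩
          simp only [Finset.mem_filter, Finset.mem_product, Finset.mem_univ, true_and, Finset.mem_image,
            Prod.mk.injEq]
          constructor
          · intro h
            exact ⟨i, rfl, h⟩
          · rintro ⟨a, rfl, rfl⟩
            rfl
        rw [this, Finset.sum_image]
        intro i _ j _ hij
        exact (Prod.mk.injEq _ _ _ _ ▸ hij).1
      · symm
        apply Finset.sum_subset
        · intro y hy
          have hy1 := (Finset.mem_filter.1 hy).2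
          exact Finset.mem_filter.2 ⟨Finset.mem_product.2 ⟨Finset.mem_univ _, Finset.mem_univ _⟩, hy1⟩
        · intro y hy hy'
          have hy1 := (Finset.mem_filter.1 hy).2
          apply hsame y.1 y.2 hy1
          intro hg
          exact hy' (Finset.mem_filter.2 ⟨hg, hy1⟩)
    have hdiag : ∑ i, t i n * t i n ≤ ∑ i, Real.log (C0 * N) * t i n := by
      refine Finset.sum_le_sum fun i _ => mul_le_mul_of_nonneg_right ?_ (th_nonneg _)
      exact th_le s h _ b N n (by omega) hnr i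
    have hb1 : 0 ≤ (1 - Λ0 * ∑ i, t i n) ^ 2 * w n := mul_nonneg (sq_nonneg _) hwn
    have hb2 : (1 - Λ0 * ∑ i, t i n) ^ 2 = 1 - 2 * Λ0 * ∑ i, t i n +
        Λ0 ^ 2 * (∑ i, t i n * t i n + ∑ x ∈ offP G, t x.1 n * t x.2 n) := by
      rw [← hsq]
      ring
    have hb3 : (1 - Λ0 * ∑ i, t i n) ^ 2 * w n ≤ (1 - 2 * Λ0 * ∑ i, t i n +
        Λ0 ^ 2 * (∑ i, Real.log (C0 * N) * t i n + ∑ x ∈ offP G, t x.1 n * t x.2 n)) * w n := by
      rw [hb2]
      refine mul_le_mul_of_nonneg_right ?_ hwn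
      have := mul_le_mul_of_nonneg_left hdiag (sq_nonneg Λ0)
      linarith
    refine (hb1.trans hb3).trans (le_of_eq ?_)
    rw [add_mul, sub_mul, one_mul, mul_assoc (2 * Λ0), Finset.sum_mul, mul_assoc (Λ0 ^ 2), add_mul, Finset.sum_mul,
      Finset.sum_mul]
    congr 3
    exact Finset.sum_congr rfl fun i _ => by ring
  have hsum : 0 ≤ S1 s h b (lamY D N M Y) - 2 * Λ0 * ∑ i, S2 s h b i (lamY D N M Y) (lamY D N M Y) +
      Λ0 ^ 2 * (Real.log (C0 * N) * ∑ i, S2 s h b i (lamY D N M Y) (lamY D N M Y) +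
        ∑ x ∈ offP G, S3 s h b x.1 x.2 (lamY D N M Y)) := by
    refine (Finset.sum_nonneg hpt).trans (le_of_eq ?_)
    rw [Finset.sum_add_distrib, Finset.sum_sub_distrib, ← Finset.mul_sum, ← Finset.mul_sum,
      Finset.sum_add_distrib, hS1]
    simp only [hS2, hS3]
    congr 2
    · congr 1
      rw [Finset.sum_comm]
    · congr 1
      · rw [Finset.sum_comm, Finset.mul_sum]
        exact Finset.sum_congr rfl fun i _ => by rw [Finset.mul_sum]
      · rw [Finset.sum_comm]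
  -- bounds
  have b1 : S1 s h b (lamY D N M Y) ≤ B * (A1 + E1' + ε) := h1
  have b2l : B * Real.log N * (A2 - k * (E2' + ε)) ≤ ∑ i, S2 s h b i (lamY D N M Y) (lamY D N M Y) := by
    have c1 : ∀ m : Fin k, B * Real.log N * (T2 M (fun _ => 1 / (M : ℝ)) m Y Y - (E2' + ε)) ≤
        S2 s h b m (lamY D N M Y) (lamY D N M Y) := by
      intro m
      have := (abs_le.1 (h2 m (Finset.mem_univ m))).1
      linarith
    have c2 := Finset.sum_le_sum fun m (_ : m ∈ (univ : Finset (Fin k))) => c1 m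
    rw [← Finset.mul_sum, Finset.sum_sub_distrib] at c2
    simp only [Finset.sum_const, Finset.card_univ, Fintype.card_fin, nsmul_eq_mul] at c2
    exact c2
  have b2u : ∑ i, S2 s h b i (lamY D N M Y) (lamY D N M Y) ≤ B * Real.log N * (A2 + k * (E2' + ε)) := by
    have c1 : ∀ m : Fin k, S2 s h b m (lamY D N M Y) (lamY D N M Y) ≤
        B * Real.log N * (T2 M (fun _ => 1 / (M : ℝ)) m Y Y + (E2' + ε)) := by
      intro m
      have := (abs_le.1 (h2 m (Finset.mem_univ m))).2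
      linarith
    have c2 := Finset.sum_le_sum fun m (_ : m ∈ (univ : Finset (Fin k))) => c1 m
    rw [← Finset.mul_sum, Finset.sum_add_distrib] at c2
    simp only [Finset.sum_const, Finset.card_univ, Fintype.card_fin, nsmul_eq_mul] at c2
    exact c2
  have b3 : ∑ x ∈ offP G, S3 s h b x.1 x.2 (lamY D N M Y) ≤
      B * Real.log N ^ 2 * (A3 + np * (E3' / ξ ^ 2 + ε)) := by
    have c2 := Finset.sum_le_sum h3
    rw [← Finset.mul_sum] at c2
    refine c2.trans (le_of_eq ?_)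
    congr 1
    rw [hA3, hnp, ← nsmul_eq_mul, ← Finset.sum_const, ← Finset.sum_add_distrib]
    exact Finset.sum_congr rfl fun x _ => by ring
  have hS2n : 0 ≤ ∑ i, S2 s h b i (lamY D N M Y) (lamY D N M Y) := by
    refine Finset.sum_nonneg fun i _ => ?_
    rw [hS2]
    exact Finset.sum_nonneg fun n _ => mul_nonneg (th_nonneg _) (sq_nonneg _)
  -- total
  have hΛlog : Λ0 * Real.log N = lm := by rw [hΛ0]; field_simp
  have c1 : 2 * Λ0 * (B * Real.log N * (A2 - k * (E2' + ε))) ≤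
      2 * Λ0 * ∑ i, S2 s h b i (lamY D N M Y) (lamY D N M Y) :=
    mul_le_mul_of_nonneg_left b2l (by positivity)
  have c2 : Λ0 ^ 2 * (Real.log (C0 * N) * ∑ i, S2 s h b i (lamY D N M Y) (lamY D N M Y) +
        ∑ x ∈ offP G, S3 s h b x.1 x.2 (lamY D N M Y)) ≤
      Λ0 ^ 2 * ((1 + ε) * Real.log N * (B * Real.log N * (A2 + k * (E2' + ε))) +
        B * Real.log N ^ 2 * (A3 + np * (E3' / ξ ^ 2 + ε))) := by
    refine mul_le_mul_of_nonneg_left (add_le_add ?_ b3) (sq_nonneg _)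
    calc _ ≤ (1 + ε) * Real.log N * ∑ i, S2 s h b i (lamY D N M Y) (lamY D N M Y) :=
          mul_le_mul_of_nonneg_right h4 hS2n
      _ ≤ _ := mul_le_mul_of_nonneg_left b2u (by positivity)
  have c3 : 0 ≤ B * (A1 + E1' + ε) - 2 * Λ0 * (B * Real.log N * (A2 - k * (E2' + ε))) +
      Λ0 ^ 2 * ((1 + ε) * Real.log N * (B * Real.log N * (A2 + k * (E2' + ε))) +
        B * Real.log N ^ 2 * (A3 + np * (E3' / ξ ^ 2 + ε))) := by linarith
  have c4 : B * (A1 + E1' + ε) - 2 * Λ0 * (B * Real.log N * (A2 - k * (E2' + ε))) +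
      Λ0 ^ 2 * ((1 + ε) * Real.log N * (B * Real.log N * (A2 + k * (E2' + ε))) +
        B * Real.log N ^ 2 * (A3 + np * (E3' / ξ ^ 2 + ε))) =
      B * (A1 + E1' + ε - 2 * (Λ0 * Real.log N) * (A2 - k * (E2' + ε)) +
        (Λ0 * Real.log N) ^ 2 * ((1 + ε) * (A2 + k * (E2' + ε)) + (A3 + np * (E3' / ξ ^ 2 + ε)))) := by ring
  rw [c4, hΛlog] at c3
  have c5 : 0 ≤ A1 + E1' + ε - 2 * lm * (A2 - k * (E2' + ε)) +
        lm ^ 2 * ((1 + ε) * (A2 + k * (E2' + ε)) + (A3 + np * (E3' / ξ ^ 2 + ε))) := by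
    by_contra hneg'
    push Not at hneg'
    exact absurd c3 (not_le.2 (mul_neg_of_pos_of_neg hB0 hneg'))
  have hkn : (0 : ℝ) ≤ k := Nat.cast_nonneg k
  have c6 : A1 + E1' + ε - 2 * lm * (A2 - k * (E2' + ε)) +
        lm ^ 2 * ((1 + ε) * (A2 + k * (E2' + ε)) + (A3 + np * (E3' / ξ ^ 2 + ε))) =
      -Δ + (E1' + (2 * lm * k + (1 + ε) * lm ^ 2 * k) * E2' + lm ^ 2 * np / ξ ^ 2 * E3') +
        ε * (1 + 2 * lm * k + lm ^ 2 * (A2 + (1 + ε) * k + np)) := by
    rw [hΔ]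
    field_simp
    ring
  have c7 : (2 * lm * k + (1 + ε) * lm ^ 2 * k) * E2' ≤ (2 * lm * k + 2 * lm ^ 2 * k) * E2' := by
    refine mul_le_mul_of_nonneg_right ?_ hE2n
    have d5 : (1 + ε) * (lm ^ 2 * k) ≤ 2 * (lm ^ 2 * k) :=
      mul_le_mul_of_nonneg_right (by linarith only [hε1]) (mul_nonneg (sq_nonneg _) hkn)
    linarith only [d5]
  have c8 : ε * (1 + 2 * lm * k + lm ^ 2 * (A2 + (1 + ε) * k + np)) ≤ ε * Cε := by
    refine mul_le_mul_of_nonneg_left ?_ hε0.le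
    rw [hCε]
    have d1 : A2 + (1 + ε) * k + np ≤ |A2| + 2 * k + np := by
      have d2 := le_abs_self A2
      have d3 : (1 + ε) * (k : ℝ) ≤ 2 * k := mul_le_mul_of_nonneg_right (by linarith only [hε1]) hkn
      linarith only [d2, d3]
    have d4 := mul_le_mul_of_nonneg_left d1 (sq_nonneg lm)
    linarith only [d4]
  rw [c6] at c5
  linarith only [c5, c7, c8, hDa, hε2, hΔ0]


end Pool.Agent.SL
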