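import Pool.Agent.SL4.AlgF
import Pool.Agent.SL.Sec

/-! SLOPES, four groups (helper64): size and support of `lam3F`, `S2` with the error over a set of pairs of vectors
(compare SL/S3Box.lean, SL/Sec.lean), pointwise majorant (SL/S3Pt.lean). -/

set_option autoImplicit false

namespace Pool.Agent.SL

open Finset Pool.Agent.MT

variable {k : ℕ}

/-! ## `S2` -/

open Classical in
theorem pair_errF (s h : Fin k → ℕ) (D N b : ℕ) (hL : Large s h D) (m : Fin k)
    (P : (Fin k → ℕ) → (Fin k → ℕ) → Prop)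
    (hP : ∀ d e : Fin k → ℕ, (∀ i, 0 < d i ∧ 0 < e i) → P d e → ∀ i, d i < N ∧ e i < N) :
    ∑ a : Pr D N → Col k, ∑ a' : Pr D N → Col k,
      (if P (fun i => MT.val (cset a i)) (fun i => MT.val (cset a' i)) then
        |∑ n ∈ rng (primorial D) b N, th (s m * n + h m) * (ind s h a n * ind s h a' n) -
          N / ((primorial D).totient : ℝ) * ∏ p, K2 m (qq D N p) (a p) (a' p)| else 0) ≤
      SetErr s h (primorial D) b N m P := by
  set T : (Pr D N → Col k) × (Pr D N → Col k) → ℝ := fun x =>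
    (if P (fun i => MT.val (cset x.1 i)) (fun i => MT.val (cset x.2 i)) then
        |∑ n ∈ rng (primorial D) b N, th (s m * n + h m) * (ind s h x.1 n * ind s h x.2 n) -
          N / ((primorial D).totient : ℝ) * ∏ p, K2 m (qq D N p) (x.1 p) (x.2 p)| else 0) with hT
  set G : (Fin k → ℕ) × (Fin k → ℕ) → ℝ := fun y =>
    if OK (primorial D) m y.1 y.2 ∧ P y.1 y.2
    then Del s h (primorial D) b N m y.1 y.2 else 0 with hG
  set good : Finset ((Pr D N → Col k) × (Pr D N → Col k)) := univ.filter fun x =>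
    SEC1_comp m x.1 x.2 ∧ P (fun i => MT.val (cset x.1 i)) (fun i => MT.val (cset x.2 i))
    with hgood
  set φ : (Pr D N → Col k) × (Pr D N → Col k) → (Fin k → ℕ) × (Fin k → ℕ) := fun x =>
    (fun i => MT.val (cset x.1 i), fun i => MT.val (cset x.2 i)) with hφ
  have e1 : ∑ a : Pr D N → Col k, ∑ a' : Pr D N → Col k, T (a, a') = ∑ x, T x :=
    (Fintype.sum_prod_type T).symm
  have e2 : SetErr s h (primorial D) b N m P = ∑ y ∈ grid k N ×ˢ grid k N, G y := by
    unfold SetErr
    rw [Finset.sum_product]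
  have hGnn : ∀ y, 0 ≤ G y := by
    intro y
    simp only [hG]
    split_ifs
    · exact abs_nonneg _
    · exact le_rfl
  have e3 : ∑ x, T x = ∑ x ∈ good, G (φ x) := by
    rw [← Finset.sum_subset (Finset.subset_univ good)]
    · refine Finset.sum_congr rfl fun x hx => ?_
      rw [hgood, Finset.mem_filter] at hx
      simp only [hT, hG, hφ]
      rw [if_pos hx.2.2, if_pos ⟨SEC1_OK m x.1 x.2 hx.2.1, hx.2.2⟩,
        sec_del s h m x.1 x.2 hx.2.1]
    · intro x _ hx
      rw [hgood, Finset.mem_filter] at hx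
      simp only [hT]
      split_ifs with h1
      · apply sec_zero s h hL m
        intro h2
        exact hx ⟨Finset.mem_univ _, h2, h1⟩
      · rfl
  have hinj : Set.InjOn φ good := by
    intro x _ y _ hxy
    simp only [hφ, Prod.mk.injEq] at hxy
    exact Prod.ext (SEC1_cset_inj _ _ hxy.1) (SEC1_cset_inj _ _ hxy.2)
  rw [e1, e2, e3, ← Finset.sum_image (f := G) hinj]
  apply Finset.sum_le_sum_of_subset_of_nonneg
  · intro y hy
    rw [Finset.mem_image] at hy
    obtain ⟨x, hx, rfl⟩ := hy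
    rw [hgood, Finset.mem_filter] at hx
    have h1 := hP _ _ (fun i => ⟨SEC1_val_pos _, SEC1_val_pos _⟩) hx.2.2
    rw [Finset.mem_product]
    constructor
    · simp only [hφ, grid, Fintype.mem_piFinset, Finset.mem_range]
      exact fun i => (h1 i).1
    · simp only [hφ, grid, Fintype.mem_piFinset, Finset.mem_range]
      exact fun i => (h1 i).2
  · intro y _ _
    exact hGnn y

/-- `S2` for arbitrary bounded weights, support condition by a predicate on pairs -/
theorem S2_errF (s h : Fin k → ℕ) (D N b : ℕ) (hL : Large s h D) (m : Fin k)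
    (P : (Fin k → ℕ) → (Fin k → ℕ) → Prop)
    (hP : ∀ d e : Fin k → ℕ, (∀ i, 0 < d i ∧ 0 < e i) → P d e → ∀ i, d i < N ∧ e i < N)
    (B B' : ℝ) (x x' : (Pr D N → Col k) → ℝ) (hx : ∀ a, |x a| ≤ B) (hx' : ∀ a, |x' a| ≤ B')
    (hs : ∀ a a', x a ≠ 0 → x' a' ≠ 0 → P (fun i => MT.val (cset a i)) (fun i => MT.val (cset a' i))) :
    |S2 s h b m x x' - N / ((primorial D).totient : ℝ) * form (fun p => K2 m (qq D N p)) x x'| ≤
      B * B' * SetErr s h (primorial D) b N m P := by
  classical
  have hB : 0 ≤ B := (abs_nonneg _).trans (hx (fun _ => none))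
  have hB' : 0 ≤ B' := (abs_nonneg _).trans (hx' (fun _ => none))
  set E : (Pr D N → Col k) → (Pr D N → Col k) → ℝ := fun a a' =>
    ∑ n ∈ rng (primorial D) b N, th (s m * n + h m) * (ind s h a n * ind s h a' n) -
          N / ((primorial D).totient : ℝ) * ∏ p, K2 m (qq D N p) (a p) (a' p) with hE
  have e1 : S2 s h b m x x' - N / ((primorial D).totient : ℝ) *
      form (fun p => K2 m (qq D N p)) x x' = ∑ a, ∑ a', x a * x' a' * E a a' := by
    have h1 : S2 s h b m x x' = ∑ a, ∑ a', x a * x' a' *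
          ∑ n ∈ rng (primorial D) b N, th (s m * n + h m) * (ind s h a n * ind s h a' n) := by
      unfold S2 LamW
      have h2 : ∀ n ∈ rng (primorial D) b N,
          th (s m * n + h m) * ((∑ a, x a * ind s h a n) * ∑ a', x' a' * ind s h a' n)
          = ∑ a, ∑ a', x a * x' a' * (th (s m * n + h m) * (ind s h a n * ind s h a' n)) := by
        intro n _
        rw [Finset.sum_mul_sum, Finset.mul_sum]
        refine Finset.sum_congr rfl fun a _ => ?_
        rw [Finset.mul_sum]
        refine Finset.sum_congr rfl fun a' _ => ?_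
        ring
      rw [Finset.sum_congr rfl h2, Finset.sum_comm]
      refine Finset.sum_congr rfl fun a _ => ?_
      rw [Finset.sum_comm]
      refine Finset.sum_congr rfl fun a' _ => ?_
      rw [Finset.mul_sum]
    rw [h1]
    unfold form
    rw [Finset.mul_sum, ← Finset.sum_sub_distrib]
    refine Finset.sum_congr rfl fun a _ => ?_
    rw [Finset.mul_sum, ← Finset.sum_sub_distrib]
    refine Finset.sum_congr rfl fun a' _ => ?_
    simp only [hE]
    ring
  rw [e1]
  have hterm : ∀ a a', |x a * x' a' * E a a'| ≤ B * B' *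
        (if P (fun i => MT.val (cset a i)) (fun i => MT.val (cset a' i)) then |E a a'| else 0) := by
    intro a a'
    have hnn : 0 ≤ (if P (fun i => MT.val (cset a i)) (fun i => MT.val (cset a' i)) then |E a a'| else 0) := by
      split_ifs
      · exact abs_nonneg _
      · exact le_rfl
    by_cases ha : x a = 0
    · rw [ha]
      simp only [zero_mul, abs_zero]
      exact mul_nonneg (mul_nonneg hB hB') hnn
    by_cases ha' : x' a' = 0
    · rw [ha']
      simp only [mul_zero, zero_mul, abs_zero]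
      exact mul_nonneg (mul_nonneg hB hB') hnn
    rw [if_pos (hs a a' ha ha')]
    rw [abs_mul, abs_mul]
    exact mul_le_mul (mul_le_mul (hx a) (hx' a') (abs_nonneg _) hB) le_rfl (abs_nonneg _) (mul_nonneg hB hB')
  calc |∑ a, ∑ a', x a * x' a' * E a a'| ≤ ∑ a, ∑ a', |x a * x' a' * E a a'| := by
        refine (Finset.abs_sum_le_sum_abs _ _).trans (Finset.sum_le_sum fun a _ => ?_)
        exact Finset.abs_sum_le_sum_abs _ _
    _ ≤ ∑ a, ∑ a', B * B' *
        (if P (fun i => MT.val (cset a i)) (fun i => MT.val (cset a' i)) then |E a a'| else 0) :=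
        Finset.sum_le_sum fun a _ => Finset.sum_le_sum fun a' _ => hterm a a'
    _ = B * B' * ∑ a, ∑ a',
        (if P (fun i => MT.val (cset a i)) (fun i => MT.val (cset a' i)) then |E a a'| else 0) := by
        simp only [← Finset.mul_sum]
    _ ≤ B * B' * SetErr s h (primorial D) b N m P :=
        mul_le_mul_of_nonneg_left (pair_errF s h D N b hL m P hP) (mul_nonneg hB hB')

/-! ## the weights of the majorant -/

theorem Fam.mono {N : ℕ} {ξ ξ' β : ℝ} {v w : ℕ} (hw : Fam N ξ ξ' β w) (hv : v ∣ w) (hw0 : w ≠ 0) :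
    Fam N ξ ξ' β v := by
  have h1 : (v : ℝ) ≤ w := by exact_mod_cast Nat.le_of_dvd (Nat.pos_of_ne_zero hw0) hv
  rcases hw with h | ⟨h, h2⟩
  · exact Or.inl (h1.trans_lt h)
  · exact Or.inr ⟨h1.trans_lt h, fun p hp hpv => h2 p hp (hpv.trans hv)⟩

private theorem val_dvd {D N : ℕ} {A B : Finset (Pr D N)} (h : A ⊆ B) : MT.val A ∣ MT.val B := by
  unfold MT.val
  exact Finset.prod_dvd_prod_of_subset _ _ _ h

theorem lam3F_supp (D N M : ℕ) (hN : 2 ≤ N) (hM : 1 ≤ M) (l m : Fin k) (hlm : l ≠ m) (ξ ξ' β θ : ℝ)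
    (Y : (Fin k → ℕ) → ℝ) (hθ : ∀ v, Y v ≠ 0 → ∑ i ∈ univ.erase m, ((v i : ℝ) + 1) / M ≤ θ)
    (a : Pr D N → Col k) (ha : lam3F m (qq D N) (cell M) Y (FS ξ ξ' β) a ≠ 0) :
    Fam N ξ ξ' β (MT.val (cset a m)) ∧
      ((∏ i ∈ univ.erase m, MT.val (cset a i) : ℕ) : ℝ) < (N : ℝ) ^ θ := by
  classical
  unfold lam3F lamG at ha
  obtain ⟨f, _, hf⟩ := Finset.exists_ne_zero_of_sum_ne_zero ha
  have hf1 : yzF (cell M) Y (FS ξ ξ' β) f ≠ 0 := left_ne_zero_of_mul hf
  have hf2 : ∏ p, Em m (qq D N p) (a p) (f p) ≠ 0 := right_ne_zero_of_mul hf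
  rw [Finset.prod_ne_zero_iff] at hf2
  unfold yzF at hf1
  have hf3 : yy (cell M) Y (fun p => (f p).1) ≠ 0 := left_ne_zero_of_mul hf1
  have hf4 : FS ξ ξ' β (tset f) := by
    by_contra hcon
    apply right_ne_zero_of_mul hf1
    rw [if_neg hcon]
  have hN1 : (1 : ℝ) < N := by
    have : 1 < N := by omega
    exact_mod_cast this
  have hsubm : cset a m ⊆ tset f := by
    intro p hp
    unfold cset at hp
    unfold tset
    rw [Finset.mem_filter] at hp ⊢
    refine ⟨Finset.mem_univ _, ?_⟩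
    have h := hf2 p (Finset.mem_univ p)
    unfold Em at h
    have h2 := right_ne_zero_of_mul h
    rw [hp.2] at h2
    simp only [decide_true] at h2
    cases hb : (f p).2 with
    | true => rfl
    | false =>
      rw [hb] at h2
      exact absurd rfl h2
  have hv0 : ∀ A : Finset (Pr D N), MT.val A ≠ 0 := fun A => (SEC1_val_pos A).ne'
  refine ⟨Fam.mono hf4 (val_dvd hsubm) (hv0 _), ?_⟩
  set v : Fin k → ℕ := fun i => cell M (cset (fun p => (f p).1) i) with hv
  have hlt : ∀ i ∈ univ.erase m, (MT.val (cset a i) : ℝ) < (N : ℝ) ^ (((v i : ℝ) + 1) / M) := by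
    intro i hi
    have hi' := Finset.ne_of_mem_erase hi
    have hsub : cset a i ⊆ cset (fun p => (f p).1) i := by
      intro p hp
      unfold cset at hp ⊢
      rw [Finset.mem_filter] at hp ⊢
      refine ⟨Finset.mem_univ _, ?_⟩
      have h := hf2 p (Finset.mem_univ p)
      unfold Em at h
      have h2 := left_ne_zero_of_mul h
      have hne : ¬ (some i : Col k) = some m := fun e => hi' (Option.some.inj e)
      rw [hp.2, if_neg hne] at h2
      rcases BOXAux.Bm_ne h2 with h3 | h3
      · exact absurd h3 (by simp)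
      · exact h3.symm
    have h1 : (MT.val (cset a i) : ℝ) ≤ (MT.val (cset (fun p => (f p).1) i) : ℝ) := by
      exact_mod_cast BOXAux.val_mono hsub
    exact h1.trans_lt (BOXAux.cell_lt M hN hM _)
  push_cast
  have h1 : ∏ i ∈ univ.erase m, (MT.val (cset a i) : ℝ) <
      ∏ i ∈ univ.erase m, (N : ℝ) ^ (((v i : ℝ) + 1) / M) := by
    refine Finset.prod_lt_prod_of_nonempty (fun i _ => ?_) hlt ⟨l, Finset.mem_erase.2 ⟨hlm, Finset.mem_univ l⟩⟩
    exact_mod_cast Nat.pos_of_ne_zero (hv0 _)
  refine h1.trans_le ?_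
  rw [← Real.rpow_sum_of_pos (by linarith)]
  exact Real.rpow_le_rpow_of_exponent_le hN1.le (hθ v hf3)

theorem lam3F_le (D N M : ℕ) (hD : 2 ≤ D) (m : Fin k) (r : ℝ) (Y : (Fin k → ℕ) → ℝ) (hY : Grid M r Y)
    (F : Finset (Pr D N) → Prop) (a : Pr D N → Col k) :
    |lam3F m (qq D N) (cell M) Y F a| ≤ r * PP (qq D N) ^ (k + 1) := by
  have hs := hY.s_nonneg
  have h1 := lamG_abs (fun p => Em m (qq D N p)) (yzF (cell M) Y F) r (yzF_bd (cell M) M r Y hY F) a
  refine h1.trans (mul_le_mul_of_nonneg_left ?_ hs)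
  have hPP : 0 ≤ PP (qq D N) := le_trans zero_le_one (PP_ge (qq D N) fun p => MT.qq_ge D N hD p)
  calc ∏ p, ∑ f, |Em m (qq D N p) (a p) f|
      ≤ ∏ p, ((1 + (k : ℝ) / (qq D N p - 1)) * (1 + 1 / (qq D N p - 1))) :=
        Finset.prod_le_prod (fun p _ => Finset.sum_nonneg fun c _ => abs_nonneg _)
          fun p _ => sum_Em m _ (MT.qq_ge D N hD p) _
    _ = (∏ p, (1 + (k : ℝ) / (qq D N p - 1))) * PP (qq D N) := by
        rw [Finset.prod_mul_distrib]
        rfl
    _ ≤ PP (qq D N) ^ k * PP (qq D N) :=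
        mul_le_mul_of_nonneg_right (prodB (qq D N) (fun p => MT.qq_ge D N hD p) k) hPP
    _ = PP (qq D N) ^ (k + 1) := by rw [pow_succ]

/-! ## pointwise majorant -/

theorem lam3F_eq {ι : Type} [Fintype ι] [DecidableEq ι] (m : Fin k) (q : ι → ℝ) (cl : Finset ι → ℕ)
    (Y : (Fin k → ℕ) → ℝ) (F : Finset ι → Prop) (a : ι → Col k) (ha : ∀ p, a p ≠ some m) :
    lam3F m q cl Y F a = ZF q F * lam q (yy cl Y) a := by
  classical
  unfold lam3F lamG lam ZF
  rw [SHPT_sum, Finset.mul_sum]
  refine Finset.sum_congr rfl fun c _ => ?_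
  rw [Finset.sum_filter, Finset.sum_mul]
  refine Finset.sum_congr rfl fun T _ => ?_
  have h1 : ∏ p, Em m (q p) (a p) (c p, decide (p ∈ T)) =
      (∏ p, Bm (q p) (a p) (c p)) * ∏ p ∈ T, 1 / (q p - 1) := by
    have h2 : ∀ p, Em m (q p) (a p) (c p, decide (p ∈ T)) =
        Bm (q p) (a p) (c p) * (if p ∈ T then 1 / (q p - 1) else 1) := by
      intro p
      unfold Em
      rw [if_neg (ha p)]
      have h3 : decide (a p = some m) = false := by simp [ha p]
      rw [h3]
      by_cases hp : p ∈ T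
      · simp [hp, bm]
      · simp [hp, bm]
    simp only [h2]
    rw [Finset.prod_mul_distrib, Finset.prod_ite_mem, Finset.univ_inter]
  rw [h1, yzF_eq]
  by_cases h5 : F T
  · rw [if_pos h5, if_pos h5]; ring
  · rw [if_neg h5, if_neg h5]; ring

private theorem ptF_prime (s h : Fin k → ℕ) (D N M : ℕ) (hs : ∀ i, 0 < s i) (m : Fin k)
    (Y : (Fin k → ℕ) → ℝ) (F : Finset (Pr D N) → Prop) (n : ℕ) (hn : N ≤ n) (hp : (s m * n + h m).Prime) :
    LamW s h (lam3F m (qq D N) (cell M) Y F) n = ZF (qq D N) F * LamW s h (lamY D N M Y) n := by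
  unfold LamW
  rw [Finset.mul_sum]
  refine Finset.sum_congr rfl fun a _ => ?_
  by_cases ha : ∀ p, a p ≠ some m
  · rw [lam3F_eq m (qq D N) (cell M) Y F a ha, lamY]
    ring
  · push Not at ha
    obtain ⟨p, hpa⟩ := ha
    have h0 : ind s h a n = 0 := by
      unfold ind
      rw [if_neg]
      intro hall
      have hdvd := hall p m hpa
      have hmem := p.2
      unfold PrS at hmem
      rw [Finset.mem_filter, Finset.mem_range] at hmem
      have hpp : (p : ℕ).Prime := hmem.2.1
      rcases (Nat.dvd_prime hp).1 hdvd with h1 | h1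
      · exact hpp.one_lt.ne' h1
      · have h2 : (p : ℕ) < N := hmem.1
        have h3 : n ≤ s m * n := Nat.le_mul_of_pos_left n (hs m)
        omega
    rw [h0]
    ring

theorem S3_leF (s h : Fin k → ℕ) (D N M b : ℕ) (hN : 2 ≤ N) (hs : ∀ i, 0 < s i) (l m : Fin k)
    (Y : (Fin k → ℕ) → ℝ) (F : Finset (Pr D N) → Prop) :
    ZF (qq D N) F ^ 2 * S3 s h b l m (lamY D N M Y) ≤
      Real.log (((2 * s m + h m : ℕ) : ℝ) * N) *
        S2 s h b l (lam3F m (qq D N) (cell M) Y F) (lam3F m (qq D N) (cell M) Y F) := by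
  have pt3_th_nonneg : ∀ n : ℕ, 0 ≤ th n := by
    intro n
    unfold th
    split_ifs
    · exact Real.log_natCast_nonneg n
    · exact le_rfl
  unfold S3 S2
  rw [Finset.mul_sum, Finset.mul_sum]
  refine Finset.sum_le_sum fun n hn => ?_
  have hn1 : N ≤ n ∧ n < 2 * N := by
    unfold rng at hn
    rw [Finset.mem_filter, Finset.mem_Ico] at hn
    exact hn.1
  have hthl := pt3_th_nonneg (s l * n + h l)
  have hlog : 0 ≤ Real.log (((2 * s m + h m : ℕ) : ℝ) * N) := by
    have : (((2 * s m + h m : ℕ) : ℝ) * N) = (((2 * s m + h m) * N : ℕ) : ℝ) := by push_cast; ring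
    rw [this]
    exact Real.log_natCast_nonneg _
  by_cases hp : (s m * n + h m).Prime
  · rw [ptF_prime s h D N M hs m Y F n hn1.1 hp]
    have hth : th (s m * n + h m) ≤ Real.log (((2 * s m + h m : ℕ) : ℝ) * N) := by
      unfold th
      rw [if_pos hp]
      have e1 : (((2 * s m + h m : ℕ) : ℝ) * N) = (((2 * s m + h m) * N : ℕ) : ℝ) := by push_cast; ring
      rw [e1]
      have e2 : s m * n + h m ≤ (2 * s m + h m) * N := by
        have e3 : s m * n ≤ s m * (2 * N) := Nat.mul_le_mul_left _ hn1.2.le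
        have e4 : h m * 1 ≤ h m * N := Nat.mul_le_mul_left _ (by omega)
        calc s m * n + h m ≤ s m * (2 * N) + h m * N := by omega
          _ = (2 * s m + h m) * N := by ring
      exact Real.log_le_log (by exact_mod_cast hp.pos) (by exact_mod_cast e2)
    have hsq : 0 ≤ (ZF (qq D N) F * LamW s h (lamY D N M Y) n) ^ 2 := sq_nonneg _
    calc ZF (qq D N) F ^ 2 *
          (th (s l * n + h l) * th (s m * n + h m) * LamW s h (lamY D N M Y) n ^ 2)
        = th (s m * n + h m) * (th (s l * n + h l) *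
          (ZF (qq D N) F * LamW s h (lamY D N M Y) n) ^ 2) := by ring
      _ ≤ Real.log (((2 * s m + h m : ℕ) : ℝ) * N) * (th (s l * n + h l) *
          (ZF (qq D N) F * LamW s h (lamY D N M Y) n) ^ 2) :=
          mul_le_mul_of_nonneg_right hth (mul_nonneg hthl hsq)
      _ = _ := by ring
  · have h0 : th (s m * n + h m) = 0 := by
      unfold th
      rw [if_neg hp]
    rw [h0]
    have hR : 0 ≤ LamW s h (lam3F m (qq D N) (cell M) Y F) n * LamW s h (lam3F m (qq D N) (cell M) Y F) n :=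
      mul_self_nonneg _
    have := mul_nonneg hlog (mul_nonneg hthl hR)
    simpa using this

end Pool.Agent.SL
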